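import Mathlib

/-! Elementary facts on points and lines of increasing slope. -/

namespace Pool.Agent.P.MP_77a832_co.KS.Z

open Finset Filter Topology
open scoped Classical

variable {α : Type}

/-- two lines, one of each range of times, dominate the other range at every point -/
theorem env (x : α → ℝ) {th : ℕ → ℝ} (be : ℕ → ℝ) (hth : Monotone th) (P : Finset α)
    {a s b : ℕ} (has : a ≤ s) (hsb : s ≤ b) :
    ∃ r₁ r₂, a ≤ r₁ ∧ r₁ ≤ s ∧ s ≤ r₂ ∧ r₂ ≤ b ∧ ∀ p ∈ P,
      (∀ t, s ≤ t → t ≤ b → th t * x p + be t ≤ th r₁ * x p + be r₁) ∨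
      (∀ t, a ≤ t → t ≤ s → th t * x p + be t ≤ th r₂ * x p + be r₂) := by
  let T1 : α → Prop := fun p => ∃ r, a ≤ r ∧ r ≤ s ∧
    ∀ t, s ≤ t → t ≤ b → th t * x p + be t ≤ th r * x p + be r
  let T2 : α → Prop := fun p => ∃ r, s ≤ r ∧ r ≤ b ∧
    ∀ t, a ≤ t → t ≤ s → th t * x p + be t ≤ th r * x p + be r
  have h12 : ∀ p, T1 p ∨ T2 p := by
    intro p
    obtain ⟨r, hr, hm⟩ := exists_max_image (Icc a b) (fun t => th t * x p + be t)
      ⟨a, mem_Icc.2 ⟨le_rfl, has.trans hsb⟩⟩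
    rw [mem_Icc] at hr
    rcases le_total r s with h | h
    · exact Or.inl ⟨r, hr.1, h, fun t h1 h2 => hm t (mem_Icc.2 ⟨has.trans h1, h2⟩)⟩
    · exact Or.inr ⟨r, h, hr.2, fun t h1 h2 => hm t (mem_Icc.2 ⟨h1, h2.trans hsb⟩)⟩
  have h1 : ∃ r, a ≤ r ∧ r ≤ s ∧ ∀ p ∈ P, T1 p →
      ∀ t, s ≤ t → t ≤ b → th t * x p + be t ≤ th r * x p + be r := by
    rcases (P.filter T1).eq_empty_or_nonempty with h | h
    · exact ⟨s, has, le_rfl, fun p hp h' =>
        absurd (mem_filter.2 ⟨hp, h'⟩) (by rw [h]; exact notMem_empty p)⟩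
    · obtain ⟨q, hq, hm⟩ := exists_max_image _ x h
      obtain ⟨r, h1, h2, h3⟩ := (mem_filter.1 hq).2
      refine ⟨r, h1, h2, fun p hp h' t h4 h5 => ?_⟩
      have := mul_nonneg (sub_nonneg.2 (hth (h2.trans h4)))
        (sub_nonneg.2 (hm p (mem_filter.2 ⟨hp, h'⟩)))
      nlinarith [h3 t h4 h5]
  have h2 : ∃ r, s ≤ r ∧ r ≤ b ∧ ∀ p ∈ P, T2 p →
      ∀ t, a ≤ t → t ≤ s → th t * x p + be t ≤ th r * x p + be r := by
    rcases (P.filter T2).eq_empty_or_nonempty with h | h
    · exact ⟨s, le_rfl, hsb, fun p hp h' =>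
        absurd (mem_filter.2 ⟨hp, h'⟩) (by rw [h]; exact notMem_empty p)⟩
    · obtain ⟨q, hq, hm⟩ := exists_min_image _ x h
      obtain ⟨r, h1, h2, h3⟩ := (mem_filter.1 hq).2
      refine ⟨r, h1, h2, fun p hp h' t h4 h5 => ?_⟩
      have := mul_nonneg (sub_nonneg.2 (hth (h5.trans h1)))
        (sub_nonneg.2 (hm p (mem_filter.2 ⟨hp, h'⟩)))
      nlinarith [h3 t h4 h5]
  obtain ⟨r₁, a1, a2, a3⟩ := h1
  obtain ⟨r₂, b1, b2, b3⟩ := h2
  exact ⟨r₁, r₂, a1, a2, b1, b2, fun p hp => (h12 p).imp (a3 p hp) (b3 p hp)⟩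

/-- a point that goes above lies to the left of a point that goes below, and the slope of the
pair lies between the slopes of the two lines -/
theorem slope {a a' b b' xp yp xq yq : ℝ} (h : a < a') (h1 : ¬ a * xp + b < yp)
    (h2 : a' * xp + b' < yp) (h3 : a * xq + b < yq) (h4 : ¬ a' * xq + b' < yq) :
    xp < xq ∧ a * (xq - xp) < yq - yp ∧ yq - yp < a' * (xq - xp) := by
  push Not at h1 h4
  refine ⟨?_, by linarith, by linarith⟩
  by_contra hc
  push Not at hc
  nlinarith [mul_nonneg (sub_nonneg.2 h.le) (sub_nonneg.2 hc)]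

/-- heights of auxiliary points -/
theorem dum (N : ℕ) (v : ℕ → ℝ) (L : ℕ → ℕ)
    (h : ∀ s t, s ≤ N → t ≤ N → L s < L t → v t < v s) :
    ∃ Y : ℕ → ℝ, ∀ i t, t ≤ N → (v t < Y i ↔ i < L t) := by
  have key : ∀ i, ∃ Y : ℝ, ∀ t, t ≤ N → (v t < Y ↔ i < L t) := by
    intro i
    rcases ((range (N + 1)).filter fun s => L s ≤ i).eq_empty_or_nonempty with h0 | h0
    · obtain ⟨r, -, hm⟩ := exists_max_image (range (N + 1)) v ⟨0, by simp⟩
      refine ⟨v r + 1, fun t ht => iff_of_true ?_ ?_⟩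
      · linarith [hm t (mem_range.2 (by omega))]
      · by_contra hc
        have : t ∈ (range (N + 1)).filter fun s => L s ≤ i :=
          mem_filter.2 ⟨mem_range.2 (by omega), not_lt.1 hc⟩
        rw [h0] at this
        exact notMem_empty _ this
    · obtain ⟨r, hr, hm⟩ := exists_min_image _ v h0
      rw [mem_filter, mem_range] at hr
      refine ⟨v r, fun t ht => ⟨fun h1 => ?_, fun h1 => h r t (by omega) ht (by omega)⟩⟩
      by_contra hc
      exact absurd (hm t (mem_filter.2 ⟨mem_range.2 (by omega), not_lt.1 hc⟩)) (not_le.2 h1)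
  choose Y hY using key
  exact ⟨Y, hY⟩

theorem ev_lt {a b c d : ℝ} (h : a < c) : ∀ᶠ e in 𝓝[>] (0 : ℝ), a + e * b < c + e * d := by
  have h1 : ContinuousAt (fun e : ℝ => a + e * b) 0 := by fun_prop
  have h2 : ContinuousAt (fun e : ℝ => c + e * d) 0 := by fun_prop
  exact (h1.eventually_lt h2 (by simpa using h)).filter_mono nhdsWithin_le_nhds

theorem ev_ne {a b : ℝ} (h : a ≠ 0 ∨ b ≠ 0) : ∀ᶠ e in 𝓝[>] (0 : ℝ), a + e * b ≠ 0 := by
  by_cases ha : a = 0
  · filter_upwards [self_mem_nhdsWithin] with e he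
    rw [ha, zero_add]
    exact mul_ne_zero (ne_of_gt he) (h.resolve_left (not_not.2 ha))
  · have h1 : ContinuousAt (fun e : ℝ => a + e * b) 0 := by fun_prop
    exact (h1.eventually_ne (by simpa using ha)).filter_mono nhdsWithin_le_nhds

/-- strict sides are kept by a small motion -/
theorem ev_side {u v : ℝ} (c d : ℝ) (h : u ≠ v) :
    ∀ᶠ e in 𝓝[>] (0 : ℝ), u + e * c ≠ v + e * d ∧ (u + e * c < v + e * d ↔ u < v) := by
  rcases lt_or_gt_of_ne h with h | h
  · filter_upwards [ev_lt (b := c) (d := d) h] with e he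
    exact ⟨he.ne, iff_of_true he h⟩
  · filter_upwards [ev_lt (b := d) (d := c) h] with e he
    exact ⟨he.ne', iff_of_false (not_lt.2 he.le) (not_lt.2 h.le)⟩

/-- perturbation to general position -/
theorem pert (x y : α → ℝ) (th be : ℕ → ℝ) (P : Finset α) (N : ℕ) :
    ∃ (x' y' : α → ℝ) (be' : ℕ → ℝ),
      (∀ p ∈ P, ∀ t, t ≤ N → (th t * x' p + be' t < y' p ↔ th t * x p + be t < y p)) ∧
      (∀ p ∈ P, ∀ t, t ≤ N → th t * x' p + be' t ≠ y' p) ∧
      (∀ p ∈ P, ∀ q ∈ P, p ≠ q → x' p ≠ x' q) ∧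
      (∀ p ∈ P, ∀ q ∈ P, ∀ r ∈ P, p ≠ q → p ≠ r → q ≠ r →
        (y' q - y' p) * (x' r - x' p) ≠ (y' r - y' p) * (x' q - x' p)) ∧
      (∀ p ∈ P, ∀ q ∈ P, p ≠ q → ∀ t, t ≤ N → y' q - y' p ≠ th t * (x' q - x' p)) := by
  have R : ∀ t, t ≤ N → t ∈ range (N + 1) := fun t ht => mem_range.2 (by omega)
  -- lift the lines
  obtain ⟨e, he⟩ : ∃ e : ℝ, ∀ p ∈ P, ∀ t ∈ range (N + 1), th t * x p + (be t + e) ≠ y p ∧
      (th t * x p + (be t + e) < y p ↔ th t * x p + be t < y p) := by
    apply Eventually.exists (f := 𝓝[>] (0 : ℝ))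
    rw [eventually_all_finset]
    intro p _
    rw [eventually_all_finset]
    intro t _
    by_cases h : th t * x p + be t < y p
    · filter_upwards [ev_lt (b := 1) (d := 0) h] with e he
      have : th t * x p + (be t + e) < y p := by linarith
      exact ⟨this.ne, iff_of_true this h⟩
    · filter_upwards [self_mem_nhdsWithin] with e he
      have he' : (0 : ℝ) < e := he
      have : y p < th t * x p + (be t + e) := by linarith [not_lt.1 h]
      exact ⟨this.ne', iff_of_false (not_lt.2 this.le) h⟩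
  -- separate the abscissae
  obtain ⟨f, hf⟩ : ∃ f : α → ℝ, ∀ p ∈ P, ∀ q ∈ P, p ≠ q → f p ≠ f q := by
    refine ⟨fun p => if h : p ∈ P then ((P.equivFin ⟨p, h⟩ : ℕ) : ℝ) else 0, ?_⟩
    intro p hp q hq hpq h
    simp only [dif_pos hp, dif_pos hq, Nat.cast_inj] at h
    exact hpq (congrArg Subtype.val (P.equivFin.injective (Fin.ext h)))
  obtain ⟨e₁, h1, h2⟩ : ∃ e₁ : ℝ, (∀ p ∈ P, ∀ t ∈ range (N + 1),
      th t * (x p + e₁ * f p) + (be t + e) ≠ y p ∧
      (th t * (x p + e₁ * f p) + (be t + e) < y p ↔ th t * x p + (be t + e) < y p)) ∧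
      ∀ p ∈ P, ∀ q ∈ P, p ≠ q → x p + e₁ * f p ≠ x q + e₁ * f q := by
    apply Eventually.exists (f := 𝓝[>] (0 : ℝ))
    refine Eventually.and ?_ ?_
    · rw [eventually_all_finset]
      intro p hp
      rw [eventually_all_finset]
      intro t ht
      filter_upwards [ev_side (th t * f p) 0 (he p hp t ht).1] with e₁ h
      rw [show th t * (x p + e₁ * f p) + (be t + e) =
        th t * x p + (be t + e) + e₁ * (th t * f p) by ring]
      simpa using h
    · rw [eventually_all_finset]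
      intro p hp
      rw [eventually_all_finset]
      intro q hq
      by_cases hpq : p = q
      · exact Eventually.of_forall fun _ h => absurd hpq h
      · filter_upwards [ev_ne (a := x p - x q) (Or.inr (sub_ne_zero.2 (hf p hp q hq hpq)))]
          with e₁ h _ h'
        exact h (by linarith)
  set X : α → ℝ := fun p => x p + e₁ * f p with hX
  obtain ⟨c, hc⟩ : ∃ c : ℝ, ∀ p ∈ P, c < X p := by
    obtain ⟨c, hc⟩ := (P.image X).bddBelow
    exact ⟨c - 1, fun p hp => by linarith [hc (mem_coe.2 (mem_image_of_mem X hp))]⟩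
  obtain ⟨e₂, h3, h4, h5⟩ : ∃ e₂ : ℝ, (∀ p ∈ P, ∀ t ∈ range (N + 1),
      th t * X p + (be t + e) ≠ y p + e₂ * (X p - c) ^ 2 ∧
      (th t * X p + (be t + e) < y p + e₂ * (X p - c) ^ 2 ↔ th t * X p + (be t + e) < y p)) ∧
      (∀ p ∈ P, ∀ q ∈ P, ∀ r ∈ P, p ≠ q → p ≠ r → q ≠ r →
        (y q + e₂ * (X q - c) ^ 2 - (y p + e₂ * (X p - c) ^ 2)) * (X r - X p) ≠
        (y r + e₂ * (X r - c) ^ 2 - (y p + e₂ * (X p - c) ^ 2)) * (X q - X p)) ∧
      ∀ p ∈ P, ∀ q ∈ P, ∀ t ∈ range (N + 1), p ≠ q →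
        y q + e₂ * (X q - c) ^ 2 - (y p + e₂ * (X p - c) ^ 2) ≠ th t * (X q - X p) := by
    apply Eventually.exists (f := 𝓝[>] (0 : ℝ))
    refine Eventually.and ?_ (Eventually.and ?_ ?_)
    · rw [eventually_all_finset]
      intro p hp
      rw [eventually_all_finset]
      intro t ht
      filter_upwards [ev_side 0 ((X p - c) ^ 2) (h1 p hp t ht).1] with e₂ h
      simpa using h
    · rw [eventually_all_finset]
      intro p hp
      rw [eventually_all_finset]
      intro q hq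
      rw [eventually_all_finset]
      intro r hr
      by_cases hd : p ≠ q ∧ p ≠ r ∧ q ≠ r
      · have hne : (X q - X p) * (X r - X p) * (X q - X r) ≠ 0 :=
          mul_ne_zero (mul_ne_zero (sub_ne_zero.2 (h2 p hp q hq hd.1).symm)
            (sub_ne_zero.2 (h2 p hp r hr hd.2.1).symm)) (sub_ne_zero.2 (h2 q hq r hr hd.2.2))
        filter_upwards [ev_ne (a := (y q - y p) * (X r - X p) - (y r - y p) * (X q - X p))
          (Or.inr hne)] with e₂ h _ _ _ h'
        exact h (by linear_combination h')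
      · exact Eventually.of_forall fun _ a b c => absurd ⟨a, b, c⟩ hd
    · rw [eventually_all_finset]
      intro p hp
      rw [eventually_all_finset]
      intro q hq
      rw [eventually_all_finset]
      intro t _
      by_cases hpq : p = q
      · exact Eventually.of_forall fun _ h => absurd hpq h
      · have hne : (X q - X p) * ((X q - c) + (X p - c)) ≠ 0 :=
          mul_ne_zero (sub_ne_zero.2 (h2 p hp q hq hpq).symm)
            (by linarith [hc p hp, hc q hq])
        filter_upwards [ev_ne (a := y q - y p - th t * (X q - X p)) (Or.inr hne)]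
          with e₂ h _ h'
        exact h (by linear_combination h')
  refine ⟨X, fun p => y p + e₂ * (X p - c) ^ 2, fun t => be t + e, ?_, ?_, h2, h4, ?_⟩
  · intro p hp t ht
    exact ((h3 p hp t (R t ht)).2.trans (h1 p hp t (R t ht)).2).trans (he p hp t (R t ht)).2
  · intro p hp t ht
    exact (h3 p hp t (R t ht)).1
  · intro p hp q hq hpq t ht
    exact h5 p hp q hq t (R t ht) hpq

/-- a set cut out by an open half-plane is cut out by a line that is not vertical -/
theorem tilt (x y : α → ℝ) (P : Finset α) (a b c : ℝ) :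
    (∃ u v : ℝ, ∀ p ∈ P, (a * x p + b * y p < c ↔ u * x p + v < y p)) ∨
    (∃ u v : ℝ, ∀ p ∈ P, (a * x p + b * y p < c ↔ u * x p + v < -y p)) := by
  obtain ⟨e, he⟩ : ∃ e : ℝ, ∀ p ∈ P, a * x p + b * y p + e ≠ c ∧
      (a * x p + b * y p + e < c ↔ a * x p + b * y p < c) := by
    apply Eventually.exists (f := 𝓝[>] (0 : ℝ))
    rw [eventually_all_finset]
    intro p _
    by_cases h : a * x p + b * y p < c
    · filter_upwards [ev_lt (b := 1) (d := 0) h] with e he
      have : a * x p + b * y p + e < c := by linarith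
      exact ⟨this.ne, iff_of_true this h⟩
    · filter_upwards [self_mem_nhdsWithin] with e he
      have he' : (0 : ℝ) < e := he
      have : c < a * x p + b * y p + e := by linarith [not_lt.1 h]
      exact ⟨this.ne', iff_of_false (not_lt.2 this.le) h⟩
  obtain ⟨d, hd, hd'⟩ : ∃ d : ℝ, b + d * 1 ≠ 0 ∧ ∀ p ∈ P,
      (a * x p + b * y p + e + d * y p < c ↔ a * x p + b * y p + e < c) := by
    apply Eventually.exists (f := 𝓝[>] (0 : ℝ))
    refine (ev_ne (Or.inr one_ne_zero)).and ?_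
    rw [eventually_all_finset]
    intro p hp
    filter_upwards [ev_side (y p) 0 (he p hp).1] with d h
    simpa using h.2
  rw [mul_one] at hd
  have key : ∀ p ∈ P, (a * x p + b * y p < c ↔ a * x p + (e - c) < -(b + d) * y p) := by
    intro p hp
    rw [← (he p hp).2, ← hd' p hp]
    constructor <;> intro h <;> linarith
  rcases lt_or_gt_of_ne hd with h | h
  · refine Or.inl ⟨a / -(b + d), (e - c) / -(b + d), fun p hp => ?_⟩
    rw [key p hp, div_mul_eq_mul_div, ← add_div, div_lt_iff₀ (by linarith), mul_comm (y p)]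
  · refine Or.inr ⟨a / (b + d), (e - c) / (b + d), fun p hp => ?_⟩
    rw [key p hp, div_mul_eq_mul_div, ← add_div, div_lt_iff₀ h]
    constructor <;> intro h <;> linarith

end Pool.Agent.P.MP_77a832_co.KS.Z
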