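import Pool.Agent.P.MP_77a832_co.KS.ZDefs
import Pool.Agent.P.MP_77a832_co.KS.ZFree

/-! Active points: sub-instances, the two-times lemma and the bound for families of windows. -/

set_option autoImplicit false

namespace Pool.Agent.P.MP_77a832_co.KS

open Finset
open scoped Classical

variable {α : Type} {x y : α → ℝ} {th be : ℕ → ℝ} {A : ℕ → Finset α} {P : Finset α} {a b : ℕ}

theorem act_subset (A : ℕ → Finset α) (Z : Finset α) (a b : ℕ) : act A Z a b ⊆ Z :=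
  filter_subset _ _

theorem act_mono {Z Z' : Finset α} {a' b' : ℕ} (hZ : Z ⊆ Z') (ha : a' ≤ a) (hb : b ≤ b') :
    act A Z a b ⊆ act A Z' a' b' := fun p hp => by
  obtain ⟨h, s, t, h1, h2, h3, h4, h5⟩ := mem_act.1 hp
  exact mem_act.2 ⟨hZ h, s, t, ha.trans h1, h2.trans hb, ha.trans h3, h4.trans hb, h5⟩

theorem act_act {Z : Finset α} {a' b' : ℕ} (ha : a' ≤ a) (hb : b ≤ b') :
    act A (act A Z a' b') a b = act A Z a b :=
  Subset.antisymm (act_mono (act_subset _ _ _ _) le_rfl le_rfl) fun _ hp =>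
    mem_act.2 ⟨act_mono Subset.rfl ha hb hp, (mem_act.1 hp).2⟩

theorem act_eq_inter {Z : Finset α} (hZ : Z ⊆ P) : act A Z a b = Z ∩ act A P a b := by
  ext p
  rw [mem_inter, mem_act, mem_act]
  exact ⟨fun h => ⟨h.1, hZ h.1, h.2⟩, fun h => ⟨h.1, h.2.2⟩⟩

theorem Bal.times (h : Bal x y th be A P a b) {a' b' : ℕ} (ha : a ≤ a') (hb : b' ≤ b) :
    Bal x y th be A P a' b' :=
  ⟨h.mono, fun t h1 h2 => h.ab t (ha.trans h1) (h2.trans hb), fun s t h1 h2 h3 h4 =>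
    h.card s t (ha.trans h1) (h2.trans hb) (ha.trans h3) (h4.trans hb)⟩

theorem GP.mono (h : GP x y th be P a b) {P' : Finset α} {a' b' : ℕ} (hP : P' ⊆ P) (ha : a ≤ a')
    (hb : b' ≤ b) : GP x y th be P' a' b' :=
  ⟨fun p hp t h1 h2 => h.off p (hP hp) t (ha.trans h1) (h2.trans hb),
    fun p hp q hq => h.inj p (hP hp) q (hP hq),
    fun p hp q hq r hr => h.col p (hP hp) q (hP hq) r (hP hr),
    fun p hp q hq hpq t h1 h2 => h.par p (hP hp) q (hP hq) hpq t (ha.trans h1) (h2.trans hb)⟩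

/-- the active points of a window form a balanced instance -/
theorem Bal.sub (h : Bal x y th be A P a b) {a' b' : ℕ} (ha : a ≤ a') (hb : b' ≤ b) :
    Bal x y th be A (act A P a' b') a' b' := by
  refine ⟨h.mono, fun t h1 h2 p hp =>
    h.ab t (ha.trans h1) (h2.trans hb) p (act_subset _ _ _ _ hp), fun s t h1 h2 h3 h4 => ?_⟩
  have key : ∀ u, (P ∩ A u).card =
      (act A P a' b' ∩ A u).card + ((P \ act A P a' b') ∩ A u).card := by
    intro u
    rw [← card_union_of_disjoint, ← union_inter_distrib_right,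
      union_sdiff_of_subset (act_subset _ _ _ _)]
    exact disjoint_sdiff.mono inter_subset_left inter_subset_left
  have e : (P \ act A P a' b') ∩ A s = (P \ act A P a' b') ∩ A t := by
    ext p
    simp only [mem_inter, mem_sdiff]
    constructor
    · rintro ⟨⟨h5, h6⟩, h7⟩
      refine ⟨⟨h5, h6⟩, ?_⟩
      by_contra hc
      exact h6 (mem_act.2 ⟨h5, s, t, h1, h2, h3, h4, h7, hc⟩)
    · rintro ⟨⟨h5, h6⟩, h7⟩
      refine ⟨⟨h5, h6⟩, ?_⟩
      by_contra hc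
      exact h6 (mem_act.2 ⟨h5, t, s, h3, h4, h1, h2, h7, hc⟩)
  have := h.card s t (ha.trans h1) (h2.trans hb) (ha.trans h3) (h4.trans hb)
  rw [key s, key t, e] at this
  omega

/-- order and slope of a pair that crosses in opposite directions -/
theorem Bal.slope (h : Bal x y th be A P a b) {s t : ℕ} (h1 : a ≤ s) (h2 : s ≤ t) (h3 : t ≤ b)
    {p q : α} (hp : p ∈ P) (hq : q ∈ P) (p1 : p ∈ A t) (p2 : p ∉ A s) (q1 : q ∈ A s)
    (q2 : q ∉ A t) :
    x p < x q ∧ th s * (x q - x p) < y q - y p ∧ y q - y p < th t * (x q - x p) := by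
  have hst : s < t := lt_of_le_of_ne h2 fun e => p2 (e ▸ p1)
  have hs := h.ab s h1 (h2.trans h3)
  have ht := h.ab t (h1.trans h2) h3
  exact Z.slope (h.mono hst) (mt (hs p hp).2 p2) ((ht p hp).1 p1) ((hs q hq).1 q1)
    (mt (ht q hq).2 q2)

/-- points active on both sides of a time lie in four net sets -/
theorem Bal.two (h : Bal x y th be A P a b) {a' s b' : ℕ} (h1 : a ≤ a') (h2 : a' ≤ s)
    (h3 : s ≤ b') (h4 : b' ≤ b) :
    ∃ r₁ r₂ r₃ r₄, (a' ≤ r₁ ∧ r₁ ≤ s) ∧ (s ≤ r₂ ∧ r₂ ≤ b') ∧ (a' ≤ r₃ ∧ r₃ ≤ s) ∧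
      (s ≤ r₄ ∧ r₄ ≤ b') ∧ ∀ p ∈ act A P a' s, p ∈ act A P s b' →
        p ∈ A s \ A r₁ ∨ p ∈ A s \ A r₂ ∨ p ∈ A r₃ \ A s ∨ p ∈ A r₄ \ A s := by
  obtain ⟨r₁, r₂, a1, a2, a3, a4, ha⟩ := Z.env x be h.mono.monotone P h2 h3
  obtain ⟨r₃, r₄, b1, b2, b3, b4, hb⟩ :=
    Z.env (fun p => -x p) (fun t => -be t) h.mono.monotone P h2 h3
  refine ⟨r₁, r₂, r₃, r₄, ⟨a1, a2⟩, ⟨a3, a4⟩, ⟨b1, b2⟩, ⟨b3, b4⟩, fun p hp hp' => ?_⟩
  obtain ⟨hP, u, v, c1, c2, c3, c4, c5, c6⟩ := mem_act.1 hp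
  obtain ⟨-, u', v', d1, d2, d3, d4, d5, d6⟩ := mem_act.1 hp'
  have ab : ∀ t, a' ≤ t → t ≤ b' → (p ∈ A t ↔ th t * x p + be t < y p) := fun t e1 e2 =>
    h.ab t (h1.trans e1) (e2.trans h4) p hP
  simp only [mem_sdiff]
  by_cases hs : p ∈ A s
  · rcases ha p hP with e | e
    · refine Or.inl ⟨hs, fun hc => d6 ?_⟩
      exact (ab v' (h2.trans d3) d4).2 ((e v' d3 d4).trans_lt ((ab r₁ a1 (a2.trans h3)).1 hc))
    · refine Or.inr (Or.inl ⟨hs, fun hc => c6 ?_⟩)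
      exact (ab v c3 (c4.trans h3)).2 ((e v c3 c4).trans_lt ((ab r₂ (h2.trans a3) a4).1 hc))
  · rcases hb p hP with e | e
    · refine Or.inr (Or.inr (Or.inl ⟨(ab r₃ b1 (b2.trans h3)).2 ?_, hs⟩))
      have := (ab u' (h2.trans d1) d2).1 d5
      linarith [e u' d1 d2]
    · refine Or.inr (Or.inr (Or.inr ⟨(ab r₄ (h2.trans b3) b4).2 ?_, hs⟩))
      have := (ab u c1 (c2.trans h3)).1 c5
      linarith [e u c1 c2]

/-- a monotone sequence of times gives a sweep -/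
theorem Bal.sw (h : Bal x y th be A P a b) (w : ℕ → ℕ) (N : ℕ)
    (hw : ∀ j, j < N → w j ≤ w (j + 1)) (hab : ∀ j, j ≤ N → a ≤ w j ∧ w j ≤ b) :
    Sw x y P (fun j => P ∩ A (w j)) (fun j => th (w j)) N := by
  refine ⟨fun j _ => inter_subset_left, fun j hj => ?_, fun j hj => h.mono.monotone (hw j hj),
    fun j hj p hp q hq => ?_⟩
  · exact h.card _ _ (hab _ hj).1 (hab _ hj).2 (hab _ hj.le).1 (hab _ hj.le).2
  · simp only [mem_sdiff, mem_inter, not_and] at hp hq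
    exact h.slope (hab _ hj.le).1 (hw j hj) (hab _ hj).2 hp.1.1 hq.1.1 hp.1.2 (hp.2 hp.1.1)
      hq.1.2 (hq.2 hq.1.1)

/-- a sequence of windows with disjoint interiors -/
def Chn (a b : ℕ) (lo hi : ℕ → ℕ) : Prop :=
  ∀ i, a ≤ lo i ∧ lo i ≤ hi i ∧ hi i ≤ lo (i + 1) ∧ hi i ≤ b

theorem Bal.net (hN : S_NETZ) (h : Bal x y th be A P a b) {Z : Finset α} (hZ : Z ⊆ P)
    {s t : ℕ → ℕ} (hc : Chn a b s t) (m : ℕ) :
    (∑ i ∈ range m, ((Z ∩ (A (s i) \ A (t i))).card : ℝ)) ^ 4 ≤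
      23 ^ 4 * Z.card * (P.card : ℝ) ^ 3 * m ∧
    (∑ i ∈ range m, ((Z ∩ (A (t i) \ A (s i))).card : ℝ)) ^ 4 ≤
      23 ^ 4 * Z.card * (P.card : ℝ) ^ 3 * m := by
  let w : ℕ → ℕ := fun j => if j % 2 = 0 then s (j / 2) else t (j / 2)
  have w0 : ∀ i, w (2 * i) = s i := fun i => by
    simp only [w, Nat.mul_mod_right, if_true, Nat.mul_div_cancel_left i two_pos]
  have w1 : ∀ i, w (2 * i + 1) = t i := fun i => by
    have e1 : (2 * i + 1) % 2 ≠ 0 := by omega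
    have e2 : (2 * i + 1) / 2 = i := by omega
    simp only [w, if_neg e1, e2]
  have hsw := h.sw w (2 * m) (fun j _ => by
    obtain ⟨i, rfl | rfl⟩ := Nat.even_or_odd' j
    · rw [w0, w1]; exact (hc i).2.1
    · rw [w1, show 2 * i + 1 + 1 = 2 * (i + 1) by ring, w0]; exact (hc i).2.2.1) (fun j _ => by
    obtain ⟨i, rfl | rfl⟩ := Nat.even_or_odd' j
    · rw [w0]; exact ⟨(hc i).1, (hc i).2.1.trans (hc i).2.2.2⟩
    · rw [w1]; exact ⟨(hc i).1.trans (hc i).2.1, (hc i).2.2.2⟩)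
  have inj : Set.InjOn (fun i : ℕ => 2 * i) (range m : Finset ℕ) := fun i _ j _ e => by
    simp only at e; omega
  have := hN α x y P _ _ _ hsw Z ((range m).image fun i => 2 * i) hZ (fun j hj => by
    obtain ⟨i, hi, rfl⟩ := mem_image.1 hj
    rw [mem_range] at hi ⊢
    omega)
  rw [sum_image inj, sum_image inj, card_image_of_injOn inj, card_range] at this
  have e : ∀ u v, Z ∩ ((P ∩ A u) \ (P ∩ A v)) = Z ∩ (A u \ A v) := fun u v => by
    ext p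
    simp only [mem_inter, mem_sdiff, not_and]
    exact ⟨fun h => ⟨h.1, h.2.1.2, h.2.2 h.2.1.1⟩, fun h => ⟨h.1, ⟨hZ h.1, h.2.1⟩, fun _ => h.2.2⟩⟩
  simpa only [w0, w1, e] using this

theorem sum_two_mul (f : ℕ → ℝ) (m : ℕ) :
    ∑ i ∈ range (2 * m), f i = ∑ i ∈ range m, (f (2 * i) + f (2 * i + 1)) := by
  induction m with
  | zero => simp
  | succ m ih => rw [show 2 * (m + 1) = 2 * m + 1 + 1 by ring, sum_range_succ, sum_range_succ,
      sum_range_succ, ih]; ring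

theorem Bal.dyadic (hN : S_NETZ) (h : Bal x y th be A P a b) {Z : Finset α} (hZ : Z ⊆ P)
    {c ρ : ℝ} (hc0 : 0 ≤ c) (hc : c ^ 4 = Z.card * (P.card : ℝ) ^ 3) (hρ0 : 0 ≤ ρ)
    (hρ : ρ ^ 4 = 2) (d : ℕ) : ∀ lo hi : ℕ → ℕ, Chn a b lo hi →
      ∑ i ∈ range (2 ^ d), ((act A Z (lo i) (hi i)).card : ℝ) ≤ 500 * c * ρ ^ d := by
  have hρ1 : (592 / 500 : ℝ) ≤ ρ := by
    by_contra hlt
    have := pow_le_pow_left₀ hρ0 (not_le.1 hlt).le 4
    rw [hρ] at this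
    norm_num at this
  induction d with
  | zero =>
    intro lo hi _
    have h1 : ((act A Z (lo 0) (hi 0)).card : ℝ) ≤ Z.card := by
      exact_mod_cast card_le_card (act_subset _ _ _ _)
    have h2 : (Z.card : ℝ) ≤ P.card := by exact_mod_cast card_le_card hZ
    have h3 : (Z.card : ℝ) ≤ c := by
      refine le_of_pow_le_pow_left₀ (n := 4) (by norm_num) hc0 ?_
      rw [hc, show (Z.card : ℝ) ^ 4 = Z.card * (Z.card : ℝ) ^ 3 by ring]
      gcongr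
    simp only [pow_zero, range_one, sum_singleton]
    linarith
  | succ d ih =>
    intro lo hi hch
    have two := fun i => h.two (a' := lo (2 * i)) (s := hi (2 * i)) (b' := hi (2 * i + 1))
      (hch _).1 (hch _).2.1 ((hch _).2.2.1.trans (hch _).2.1) (hch _).2.2.2
    choose r₁ r₂ r₃ r₄ h1 h2 h3 h4 h5 using two
    have nx : ∀ i, hi (2 * i + 1) ≤ lo (2 * (i + 1)) := fun i => (hch (2 * i + 1)).2.2.1
    have mid : ∀ i, hi (2 * i) ≤ hi (2 * i + 1) := fun i => (hch _).2.2.1.trans (hch _).2.1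
    have cl : ∀ r : ℕ → ℕ, (∀ i, lo (2 * i) ≤ r i ∧ r i ≤ hi (2 * i)) →
        Chn a b r fun i => hi (2 * i) := fun r hr i =>
      ⟨(hch _).1.trans (hr i).1, (hr i).2, ((mid i).trans (nx i)).trans (hr (i + 1)).1,
        (hch _).2.2.2⟩
    have cr' : ∀ r : ℕ → ℕ, (∀ i, hi (2 * i) ≤ r i ∧ r i ≤ hi (2 * i + 1)) →
        Chn a b (fun i => hi (2 * i)) r := fun r hr i =>
      ⟨(hch _).1.trans (hch _).2.1, (hr i).1, ((hr i).2.trans (nx i)).trans (hch _).2.1,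
        (hr i).2.trans (hch _).2.2.2⟩
    have rt : ∀ S : ℝ, S ^ 4 ≤ 23 ^ 4 * Z.card * (P.card : ℝ) ^ 3 * ((2 ^ d : ℕ) : ℝ) →
        S ≤ 23 * c * ρ ^ d := fun S hS => by
      refine le_of_pow_le_pow_left₀ (n := 4) (by norm_num) (by positivity) (hS.trans_eq ?_)
      rw [mul_pow, mul_pow, hc, ← pow_mul, mul_comm d 4, pow_mul, hρ]
      push_cast
      ring
    have n1 := rt _ (h.net hN hZ (cl r₁ h1) (2 ^ d)).2
    have n2 := rt _ (h.net hN hZ (cr' r₂ h2) (2 ^ d)).1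
    have n3 := rt _ (h.net hN hZ (cl r₃ h3) (2 ^ d)).1
    have n4 := rt _ (h.net hN hZ (cr' r₄ h4) (2 ^ d)).2
    have n0 := ih (fun i => lo (2 * i)) (fun i => hi (2 * i + 1)) fun i =>
      ⟨(hch _).1, (hch _).2.1.trans (mid i), nx i, (hch _).2.2.2⟩
    have st : ∀ i, ((act A Z (lo (2 * i)) (hi (2 * i))).card : ℝ) +
        (act A Z (lo (2 * i + 1)) (hi (2 * i + 1))).card ≤
        (act A Z (lo (2 * i)) (hi (2 * i + 1))).card +
          (Z ∩ (A (hi (2 * i)) \ A (r₁ i))).card + (Z ∩ (A (hi (2 * i)) \ A (r₂ i))).card +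
          (Z ∩ (A (r₃ i) \ A (hi (2 * i)))).card + (Z ∩ (A (r₄ i) \ A (hi (2 * i)))).card := by
      intro i
      have e0 := card_union_add_card_inter (act A Z (lo (2 * i)) (hi (2 * i)))
        (act A Z (lo (2 * i + 1)) (hi (2 * i + 1)))
      have e1 := card_le_card (union_subset
        (act_mono (A := A) (Subset.refl Z) (le_refl (lo (2 * i))) (mid i))
        (act_mono (Subset.refl Z) ((hch _).2.1.trans (hch _).2.2.1) (le_refl (hi (2 * i + 1)))))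
      have e2 : act A Z (lo (2 * i)) (hi (2 * i)) ∩ act A Z (lo (2 * i + 1)) (hi (2 * i + 1)) ⊆
          ((Z ∩ (A (hi (2 * i)) \ A (r₁ i)) ∪ Z ∩ (A (hi (2 * i)) \ A (r₂ i))) ∪
          Z ∩ (A (r₃ i) \ A (hi (2 * i)))) ∪ Z ∩ (A (r₄ i) \ A (hi (2 * i))) := by
        intro p hp
        rw [mem_inter] at hp
        have hz := act_subset _ _ _ _ hp.1
        have := h5 i p (act_mono hZ le_rfl le_rfl hp.1) (act_mono hZ (hch _).2.2.1 le_rfl hp.2)
        simp only [mem_union, mem_inter]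
        tauto
      have e3 := (card_le_card e2).trans ((card_union_le _ _).trans (Nat.add_le_add_right
        ((card_union_le _ _).trans (Nat.add_le_add_right (card_union_le _ _) _)) _))
      have : (act A Z (lo (2 * i)) (hi (2 * i))).card +
        (act A Z (lo (2 * i + 1)) (hi (2 * i + 1))).card ≤
        (act A Z (lo (2 * i)) (hi (2 * i + 1))).card +
          (Z ∩ (A (hi (2 * i)) \ A (r₁ i))).card + (Z ∩ (A (hi (2 * i)) \ A (r₂ i))).card +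
          (Z ∩ (A (r₃ i) \ A (hi (2 * i)))).card + (Z ∩ (A (r₄ i) \ A (hi (2 * i)))).card := by
        omega
      exact_mod_cast this
    rw [pow_succ', sum_two_mul]
    refine (sum_le_sum fun i _ => st i).trans ?_
    simp only [sum_add_distrib]
    have : 0 ≤ c * ρ ^ d := by positivity
    rw [pow_succ]
    nlinarith

theorem chn_of_family {τ : ℕ → ℕ} {F : Finset ℕ} (hτ : Monotone τ)
    (hF : ∀ i ∈ F, a ≤ τ i ∧ τ (i + 1) ≤ b) (hab : a ≤ b) :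
    ∃ lo hi : ℕ → ℕ, Chn a b lo hi ∧ ∀ f : ℕ → ℕ → ℝ,
      ∑ i ∈ F, f (τ i) (τ (i + 1)) = ∑ i ∈ range F.card, f (lo i) (hi i) := by
  obtain ⟨m, hm⟩ : ∃ m, F.card = m := ⟨_, rfl⟩
  rw [hm]
  let e := F.orderEmbOfFin hm
  have he : ∀ i, e i ∈ F := fun i => orderEmbOfFin_mem _ _ _
  refine ⟨fun i => if h : i < m then τ (e ⟨i, h⟩) else b,
    fun i => if h : i < m then τ (e ⟨i, h⟩ + 1) else b, fun i => ?_, fun f => ?_⟩
  · by_cases h1 : i < m
    · simp only [dif_pos h1]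
      refine ⟨(hF _ (he _)).1, hτ (Nat.le_succ _), ?_, (hF _ (he _)).2⟩
      split_ifs with h2
      · exact hτ (e.strictMono (show (⟨i, h1⟩ : Fin m) < ⟨i + 1, h2⟩ from Nat.lt_succ_self i))
      · exact (hF _ (he _)).2
    · simp only [dif_neg h1, dif_neg (show ¬ i + 1 < m by omega)]
      exact ⟨hab, le_rfl, le_rfl, le_rfl⟩
  · rw [sum_range]
    symm
    refine sum_bij (fun i _ => e i) (fun i _ => he i) (fun i _ j _ h => e.injective h) ?_ ?_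
    · intro j hj
      have : j ∈ Set.range e := by rw [range_orderEmbOfFin]; exact hj
      obtain ⟨i, hi⟩ := this
      exact ⟨i, mem_univ _, hi⟩
    · intro i _
      simp only [dif_pos i.2]

theorem star (hN : S_NETZ) : S_STARZ := by
  intro α x y th be A P a b h Z τ F hZ hτ hF
  rcases F.eq_empty_or_nonempty with rfl | ⟨i₀, hi₀⟩
  · simp
  have hab : a ≤ b := (hF i₀ hi₀).1.trans ((hτ (Nat.le_succ _)).trans (hF i₀ hi₀).2)
  obtain ⟨lo, hi, hch, hs⟩ := chn_of_family hτ hF hab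
  have h1 := hs fun u v => ((act A Z u v).card : ℝ)
  have hm0 : F.card ≠ 0 := card_ne_zero.2 ⟨i₀, hi₀⟩
  generalize F.card = m at h1 hm0 ⊢
  obtain ⟨c, hc0, hc⟩ : ∃ c : ℝ, 0 ≤ c ∧ c ^ 4 = Z.card * (P.card : ℝ) ^ 3 :=
    ⟨_, by positivity, Real.rpow_inv_natCast_pow (by positivity) (by norm_num)⟩
  obtain ⟨ρ, hρ0, hρ⟩ : ∃ ρ : ℝ, 0 ≤ ρ ∧ ρ ^ 4 = 2 :=
    ⟨_, by positivity, Real.rpow_inv_natCast_pow (by positivity) (by norm_num)⟩
  obtain ⟨d, d1, d2⟩ : ∃ d, m ≤ 2 ^ d ∧ 2 ^ d ≤ 2 * m :=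
    ⟨Nat.log 2 m + 1, (Nat.lt_pow_succ_log_self one_lt_two m).le, by
      rw [pow_succ']
      exact Nat.mul_le_mul_left 2 (Nat.pow_log_le_self 2 hm0)⟩
  have h2 : ∑ i ∈ range m, ((act A Z (lo i) (hi i)).card : ℝ) ≤
      ∑ i ∈ range (2 ^ d), ((act A Z (lo i) (hi i)).card : ℝ) :=
    sum_le_sum_of_subset_of_nonneg (range_subset_range.2 d1) fun _ _ _ => Nat.cast_nonneg _
  have h3 := h2.trans (h.dyadic hN hZ hc0 hc hρ0 hρ d lo hi hch)
  have h4 : 0 ≤ ∑ i ∈ range m, ((act A Z (lo i) (hi i)).card : ℝ) :=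
    sum_nonneg fun _ _ => Nat.cast_nonneg _
  rw [h1]
  generalize ∑ i ∈ range m, ((act A Z (lo i) (hi i)).card : ℝ) = S at h3 h4 ⊢
  refine (pow_le_pow_left₀ h4 h3 4).trans ?_
  rw [mul_pow, mul_pow, hc, ← pow_mul, mul_comm d 4, pow_mul, hρ]
  have d3 : (2 : ℝ) ^ d ≤ 2 * m := by exact_mod_cast d2
  have h5 : (0 : ℝ) ≤ Z.card * (P.card : ℝ) ^ 3 := by positivity
  have h0 : (0 : ℝ) ≤ m := Nat.cast_nonneg _
  rw [mul_assoc (600 ^ 4 : ℝ)]
  generalize (Z.card : ℝ) * (P.card : ℝ) ^ 3 = W at h5 ⊢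
  generalize (2 : ℝ) ^ d = D at d3 ⊢
  nlinarith [mul_le_mul_of_nonneg_left d3 h5, mul_nonneg h5 h0]

end Pool.Agent.P.MP_77a832_co.KS
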