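import Pool.Agent.P.MP_77a832_co.KS.ADefs

/-! Balanced families of lines, active points, and the statements of the outer layer. -/

set_option autoImplicit false

namespace Pool.Agent.P.MP_77a832_co.KS

open Finset
open scoped Classical

variable {α : Type}

/-- the points of `Z` whose status changes during the times `a, …, b` -/
noncomputable def act (A : ℕ → Finset α) (Z : Finset α) (a b : ℕ) : Finset α :=
  Z.filter fun p => ∃ s t, a ≤ s ∧ s ≤ b ∧ a ≤ t ∧ t ≤ b ∧ p ∈ A s ∧ p ∉ A t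

theorem mem_act {A : ℕ → Finset α} {Z : Finset α} {a b : ℕ} {p : α} : p ∈ act A Z a b ↔
    p ∈ Z ∧ ∃ s t, a ≤ s ∧ s ≤ b ∧ a ≤ t ∧ t ≤ b ∧ p ∈ A s ∧ p ∉ A t := mem_filter

/-- during the times `a, …, b` the set `A t` consists, inside `P`, of the points above a line of
slope `th t`, and the number of these points is constant -/
structure Bal (x y : α → ℝ) (th be : ℕ → ℝ) (A : ℕ → Finset α) (P : Finset α) (a b : ℕ) :
    Prop where
  mono : StrictMono th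
  ab : ∀ t, a ≤ t → t ≤ b → ∀ p ∈ P, (p ∈ A t ↔ th t * x p + be t < y p)
  card : ∀ s t, a ≤ s → s ≤ b → a ≤ t → t ≤ b → (P ∩ A s).card = (P ∩ A t).card

/-- general position -/
structure GP (x y : α → ℝ) (th be : ℕ → ℝ) (P : Finset α) (a b : ℕ) : Prop where
  off : ∀ p ∈ P, ∀ t, a ≤ t → t ≤ b → th t * x p + be t ≠ y p
  inj : ∀ p ∈ P, ∀ q ∈ P, p ≠ q → x p ≠ x q
  col : ∀ p ∈ P, ∀ q ∈ P, ∀ r ∈ P, p ≠ q → p ≠ r → q ≠ r →
    (y q - y p) * (x r - x p) ≠ (y r - y p) * (x q - x p)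
  par : ∀ p ∈ P, ∀ q ∈ P, p ≠ q → ∀ t, a ≤ t → t ≤ b → y q - y p ≠ th t * (x q - x p)

/-- the bound for net crossings -/
def S_NETZ : Prop := ∀ (α : Type) (x y : α → ℝ) (P : Finset α) (A : ℕ → Finset α) (th : ℕ → ℝ)
  (N : ℕ), Sw x y P A th N → ∀ (Z : Finset α) (F : Finset ℕ), Z ⊆ P → F ⊆ range N →
    (∑ j ∈ F, ((Z ∩ (A j \ A (j + 1))).card : ℝ)) ^ 4 ≤
      23 ^ 4 * Z.card * (P.card : ℝ) ^ 3 * F.card ∧
    (∑ j ∈ F, ((Z ∩ (A (j + 1) \ A j)).card : ℝ)) ^ 4 ≤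
      23 ^ 4 * Z.card * (P.card : ℝ) ^ 3 * F.card

/-- the bound for active points -/
def S_STARZ : Prop := ∀ (α : Type) (x y : α → ℝ) (th be : ℕ → ℝ) (A : ℕ → Finset α)
  (P : Finset α) (a b : ℕ), Bal x y th be A P a b → ∀ (Z : Finset α) (τ : ℕ → ℕ) (F : Finset ℕ),
    Z ⊆ P → Monotone τ → (∀ i ∈ F, a ≤ τ i ∧ τ (i + 1) ≤ b) →
    (∑ i ∈ F, ((act A Z (τ i) (τ (i + 1))).card : ℝ)) ^ 4 ≤
      600 ^ 4 * Z.card * (P.card : ℝ) ^ 3 * F.card

/-- the gain of a factor two at one scale, for windows of equal length `M` -/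
def MainAt (L : ℕ) : Prop := ∀ (α : Type) (x y : α → ℝ) (th be : ℕ → ℝ) (A : ℕ → Finset α)
  (P : Finset α) (M : ℕ), 1 ≤ M → Bal x y th be A P 0 (16 ^ L * M) →
    GP x y th be P 0 (16 ^ L * M) →
    2 * ∑ i ∈ range (16 ^ L), (act A P (i * M) ((i + 1) * M)).card ≤ 2 ^ L * P.card

/-- the bound on the number of `k`-sets -/
def S_KSETS : Prop := ∃ C ε : ℝ, 0 < ε ∧ ∀ (α : Type) (x y : α → ℝ) (P : Finset α) (k : ℕ),
  1 ≤ k → ∀ 𝓕 : Finset (Finset α),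
    (∀ S ∈ 𝓕, S.card = k ∧ ∃ a b c : ℝ, S = P.filter fun p => a * x p + b * y p < c) →
    (𝓕.card : ℝ) ≤ C * P.card * (k : ℝ) ^ (1 / 3 - ε)

end Pool.Agent.P.MP_77a832_co.KS
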