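import Pool.Agent.P.MP_77a832_co.KS.Tails
import Pool.Agent.P.MP_77a832_co.KB.Defs
import Pool.Agent.P.MP_77a832_co.KG.Defs

/-! The tail bounds for a sweep. -/

set_option autoImplicit false

namespace Pool.Agent.P.MP_77a832_co.KS.Tails

open Finset

variable {α : Type}

/-- the six bounds in the form used by the next step -/
theorem Star.tails {P : Finset α} {S : α → Finset ℕ} {J : ℕ} {A : ℝ} (h : Star P S J A) :
    KG.Tails P S J (2 * A ^ 3) := by
  have A1 := h.one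
  have a1 : A ≤ A ^ 3 := le_self_pow₀ A1 (by norm_num)
  have a2 : A ^ 2 ≤ A ^ 3 := pow_le_pow_right₀ A1 (by norm_num)
  have a3 : (0 : ℝ) ≤ P.card * 2 ^ J := by positivity
  have a4 : (0 : ℝ) ≤ A ^ 3 := by positivity
  refine ⟨fun e he D hD Q hQ => ?_, fun e he z hz Q hQ => ?_, fun e he b hb Q hQ => ?_,
    fun e he b hb Q hQ => ?_, fun e he k hk D a z hD ha hz h1 Q hQ => ?_,
    fun e he z hz F _ hF Q hQ => ?_⟩
  · have := h.lo he (fun x hx => ⟨(hQ x hx).1, (hQ x hx).2.1⟩) hD fun x hx => (hQ x hx).2.2.le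
    rw [le_div_iff₀ hD] at this
    nlinarith
  · have := h.up he (fun x hx => ⟨(hQ x hx).1, (hQ x hx).2.1⟩) (by linarith : 0 < z)
      fun x hx => (hQ x hx).2.2.le
    rw [le_div_iff₀ (by linarith)] at this
    nlinarith
  · refine (h.bd he (fun x hx => ⟨(hQ x hx).1, (hQ x hx).2.1⟩) hb.le
      fun x hx => Or.inl (hQ x hx).2.2).trans ?_
    have : 0 ≤ (b + 1 / 2 ^ e) * (P.card * 2 ^ J) := by positivity
    nlinarith
  · refine (h.bd he (fun x hx => ⟨(hQ x hx).1, (hQ x hx).2.1⟩) hb.le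
      fun x hx => Or.inr (hQ x hx).2.2).trans ?_
    have : 0 ≤ (b + 1 / 2 ^ e) * (P.card * 2 ^ J) := by positivity
    nlinarith
  · have := h.atom (e := e) (hk.trans he) (fun x hx => ⟨(hQ x hx).1, (hQ x hx).2.1⟩)
      (by linarith : 0 < z) hD.le h1 fun x hx => ⟨(hQ x hx).2.2.1,
        (hQ x hx).2.2.2.imp fun _ k => k.le⟩
    rw [le_div_iff₀ (by positivity)] at this
    have b1 : 0 ≤ A ^ 3 * D * (P.card * 2 ^ J) := by positivity
    linarith
  · have := h.sp he (fun x hx => ⟨(hQ x hx).1, (hQ x hx).2.1⟩) (by linarith : 0 < z) F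
      (by rwa [mul_comm]) fun x hx => (hQ x hx).2.2
    rw [le_div_iff₀ (by linarith)] at this
    nlinarith

variable [DecidableEq α] {A : ℕ → Finset α} {v : ℕ → ℕ} {p : α}

/-- the base windows in which `p` is active -/
def vis (A : ℕ → Finset α) (v : ℕ → ℕ) (J : ℕ) (p : α) : Finset ℕ :=
  (range (16 ^ J)).filter fun B => p ∈ KB.win A v B

theorem mem_vis {J B : ℕ} : B ∈ vis A v J p ↔ B < 16 ^ J ∧ p ∈ KB.win A v B := by
  rw [vis, mem_filter, mem_range]

theorem act_mono {a b a' b' : ℕ} (h1 : a' ≤ a) (h2 : b ≤ b') : KB.act A a b ⊆ KB.act A a' b' := by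
  intro p hp
  obtain ⟨⟨s, s1, s2, s3⟩, t, t1, t2, t3⟩ := KB.mem_act.1 hp
  exact KB.mem_act.2 ⟨⟨s, by omega, by omega, s3⟩, t, by omega, by omega, t3⟩

theorem act_split {a s b : ℕ} (h1 : a ≤ s) (h2 : s ≤ b) (hp : p ∈ KB.act A a b) :
    p ∈ KB.act A a s ∨ p ∈ KB.act A s b := by
  obtain ⟨⟨r, r1, r2, r3⟩, t, t1, t2, t3⟩ := KB.mem_act.1 hp
  simp only [KB.mem_act]
  by_cases c : p ∈ A s
  · rcases le_total t s with k | k
    exacts [Or.inl ⟨⟨s, h1, le_rfl, c⟩, t, t1, k, t3⟩, Or.inr ⟨⟨s, le_rfl, h2, c⟩, t, k, t2, t3⟩]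
  · rcases le_total r s with k | k
    exacts [Or.inl ⟨⟨r, r1, k, r3⟩, s, h1, le_rfl, c⟩, Or.inr ⟨⟨r, k, r2, r3⟩, s, le_rfl, h2, c⟩]

/-- a point active between two boundaries is active in one window between them -/
theorem act_win (hv : Monotone v) (a m : ℕ) (hp : p ∈ KB.act A (v a) (v (a + m))) :
    ∃ B, a ≤ B ∧ B < a + m ∧ p ∈ KB.win A v B := by
  induction m with
  | zero =>
    obtain ⟨⟨r, r1, r2, r3⟩, t, t1, t2, t3⟩ := KB.mem_act.1 hp
    exact absurd ((le_antisymm (r2.trans t1) (t2.trans r1)) ▸ r3) t3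
  | succ m ih =>
    rcases act_split (hv (Nat.le_add_right a m)) (hv (Nat.le_succ _)) hp with k | k
    · obtain ⟨B, b1, b2, b3⟩ := ih k
      exact ⟨B, b1, by omega, b3⟩
    · exact ⟨a + m, by omega, by omega, k⟩

theorem div_bd {B e u : ℕ} : B / 16 ^ e = u ↔ u * 16 ^ e ≤ B ∧ B < u * 16 ^ e + 16 ^ e := by
  rw [Nat.div_eq_iff (by positivity)]
  have : 0 < 16 ^ e := by positivity
  omega

theorem up_le {J e u : ℕ} (he : e ≤ J) (hu : u < 16 ^ (J - e)) : (u + 1) * 16 ^ e ≤ 16 ^ J := by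
  conv_rhs => rw [← Nat.sub_add_cancel he, pow_add]
  exact Nat.mul_le_mul_right _ hu

/-- the points that visit a window of height `e` are its active points -/
theorem act_eq {P : Finset α} {J e u : ℕ} (hv : Monotone v)
    (hP : KB.act A (v 0) (v (16 ^ J)) ⊆ P) (he : e ≤ J) (hu : u < 16 ^ (J - e)) :
    act P (vis A v J) e u = KB.win A (KB.up v e) u := by
  have a1 := up_le he hu
  ext p
  simp only [act, cell, mem_filter, filter_nonempty_iff, mem_vis, div_bd, KB.win, KB.up]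
  rw [add_mul, one_mul] at a1 ⊢
  refine ⟨fun ⟨_, B, ⟨_, b1⟩, b2, b3⟩ => act_mono (hv b2) (hv b3) b1, fun h => ?_⟩
  obtain ⟨B, b1, b2, b3⟩ := act_win hv _ _ h
  exact ⟨hP (act_mono (hv (Nat.zero_le _)) (hv a1) h), B, ⟨by omega, b3⟩, b1, b2⟩

theorem star_vis {P : Finset α} {J : ℕ} {K : ℝ} (hK : 1 ≤ K) (hv : Monotone v) (h : KB.Star K A)
    (hP : KB.act A (v 0) (v (16 ^ J)) ⊆ P) : Star P (vis A v J) J K := by
  refine ⟨hK, fun p _ B hB => (mem_vis.1 hB).1, fun e he F hF => ?_, fun e he u hu Z hZ => ?_⟩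
  · have a1 := h (KB.up v e) (v 0) (v (16 ^ J)) F P
      (fun a b k => hv (Nat.mul_le_mul_right _ k)) fun i hi =>
        ⟨hv (Nat.zero_le _), hv (up_le he (mem_range.1 (hF hi)))⟩
    rw [sum_congr rfl fun u hu => show ((P ∩ KB.win A (KB.up v e) u).card : ℝ) =
      (act P (vis A v J) e u).card by
        rw [← act_eq hv hP he (mem_range.1 (hF hu)), act, inter_eq_right.2 (filter_subset _ _)]]
      at a1
    have a2 : ((KB.act A (v 0) (v (16 ^ J))).card : ℝ) ≤ P.card := by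
      exact_mod_cast card_le_card hP
    calc _ ≤ _ := a1
      _ ≤ K ^ 4 * P.card * (P.card : ℝ) ^ 3 * F.card := by gcongr
      _ = _ := by ring
  · have a0 := up_le he hu
    have a1 := h v (v (u * 16 ^ e)) (v ((u + 1) * 16 ^ e)) (Ico (u * 16 ^ e) (u * 16 ^ e + 16 ^ e))
      Z hv fun i hi => ⟨hv (mem_Ico.1 hi).1, hv (by rw [add_mul, one_mul]; exact (mem_Ico.1 hi).2)⟩
    rw [Nat.card_Ico, Nat.add_sub_cancel_left] at a1
    rw [act_eq hv hP he hu]
    have a2 : ∑ p ∈ Z, (cell (vis A v J) p e u).card =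
        ∑ i ∈ Ico (u * 16 ^ e) (u * 16 ^ e + 16 ^ e), (Z ∩ KB.win A v i).card := by
      simp only [← filter_mem_eq_inter, card_filter]
      rw [sum_comm]
      refine sum_congr rfl fun p _ => ?_
      rw [← card_filter]
      congr 1
      ext B
      simp only [cell, mem_filter, mem_vis, div_bd, mem_Ico]
      rw [add_mul, one_mul] at a0
      exact ⟨fun k => ⟨k.2, k.1.2⟩, fun k => ⟨⟨by omega, k.2⟩, k.1⟩⟩
    have a3 := congrArg (Nat.cast (R := ℝ)) a2
    push_cast at a1 a3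
    rw [a3]
    exact a1

/-- the tail bounds for the visits of a sweep -/
theorem tails {P : Finset α} {J : ℕ} {K : ℝ} (hK : 1 ≤ K) (hv : Monotone v) (h : KB.Star K A)
    (hP : KB.act A (v 0) (v (16 ^ J)) ⊆ P) : KG.Tails P (vis A v J) J (2 * K ^ 3) :=
  (star_vis hK hv h hP).tails

end Pool.Agent.P.MP_77a832_co.KS.Tails
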