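import Pool.Agent.P.MP_77a832_co.KS.ATok

set_option autoImplicit false

open Finset

namespace Pool.Agent.P.MP_77a832_co.KS

variable {α : Type*} [DecidableEq α]

/-- the edges of step `j` (none if the step moves fewer than `g` points) -/
def edg (A : ℕ → Finset α) (m : ℕ → ℕ → α → α) (g j : ℕ) : Finset (α × α) :=
  if g ≤ (A (j + 1) \ A j).card then
    (range g ×ˢ (A (j + 1) \ A j)).image fun a => (a.2, m j a.1 a.2) else ∅

variable {x y : α → ℝ} {P : Finset α} {A : ℕ → Finset α} {th : ℕ → ℝ} {N : ℕ}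
  {m : ℕ → ℕ → α → α}

lemma mem_edg {g j : ℕ} {e : α × α} : e ∈ edg A m g j ↔ g ≤ (A (j + 1) \ A j).card ∧
    ∃ c, c < g ∧ e.1 ∈ A (j + 1) \ A j ∧ m j c e.1 = e.2 := by
  unfold edg
  split_ifs with h
  · simp only [mem_image, mem_product, mem_range, h, true_and]
    constructor
    · rintro ⟨a, ⟨h1, h2⟩, rfl⟩
      exact ⟨a.1, h1, h2, rfl⟩
    · rintro ⟨c, h1, h2, h3⟩
      exact ⟨(c, e.1), ⟨h1, h2⟩, Prod.ext rfl h3⟩
  · simp [h]

lemma Mt.ends (hm : Mt A N m) {g j : ℕ} (hj : j < N) {e : α × α} (he : e ∈ edg A m g j) :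
    e.1 ∈ A (j + 1) \ A j ∧ e.2 ∈ A j \ A (j + 1) := by
  obtain ⟨-, c, -, h2, h3⟩ := mem_edg.mp he
  exact ⟨h2, h3 ▸ hm.mX j hj c _ h2⟩

lemma deg_left_sub (g j : ℕ) (p : α) : ((edg A m g j).filter fun e => e.1 = p) ⊆
    (range g).image fun c => (p, m j c p) := by
  intro e he
  obtain ⟨he', rfl⟩ := mem_filter.mp he
  obtain ⟨-, c, h1, -, h3⟩ := mem_edg.mp he'
  exact mem_image.mpr ⟨c, mem_range.mpr h1, Prod.ext rfl h3⟩

lemma Mt.deg_right_sub (hm : Mt A N m) (g : ℕ) {j : ℕ} (hj : j < N) (q : α) :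
    ((edg A m g j).filter fun e => e.2 = q) ⊆ (range g).image fun c => (m j c q, q) := by
  intro e he
  obtain ⟨he', rfl⟩ := mem_filter.mp he
  obtain ⟨-, c, h1, -, h3⟩ := mem_edg.mp he'
  refine mem_image.mpr ⟨c, mem_range.mpr h1, Prod.ext ?_ rfl⟩
  simp only [← h3, hm.inv j hj]

lemma Mt.deg_left (hm : Mt A N m) {g j : ℕ} (hj : j < N) (hg : g ≤ (A (j + 1) \ A j).card) (p : α)
    (hp : p ∈ A (j + 1) \ A j) : ((edg A m g j).filter fun e => e.1 = p).card = g := by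
  have : ((edg A m g j).filter fun e => e.1 = p) = (range g).image fun c => (p, m j c p) := by
    refine Subset.antisymm (deg_left_sub g j p) fun e he => ?_
    obtain ⟨c, hc, rfl⟩ := mem_image.mp he
    exact mem_filter.mpr ⟨mem_edg.mpr ⟨hg, c, mem_range.mp hc, hp, rfl⟩, rfl⟩
  rw [this, card_image_of_injOn, card_range]
  intro c hc c' hc' h
  have hc := mem_range.mp (mem_coe.mp hc)
  have hc' := mem_range.mp (mem_coe.mp hc')
  exact hm.inj j hj c (by omega) c' (by omega) p hp (congrArg Prod.snd h)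

lemma Mt.deg_right (hm : Mt A N m) {g j : ℕ} (hj : j < N) (hg : g ≤ (A (j + 1) \ A j).card) (q : α)
    (hq : q ∈ A j \ A (j + 1)) : ((edg A m g j).filter fun e => e.2 = q).card = g := by
  have : ((edg A m g j).filter fun e => e.2 = q) = (range g).image fun c => (m j c q, q) := by
    refine Subset.antisymm (hm.deg_right_sub g hj q) fun e he => ?_
    obtain ⟨c, hc, rfl⟩ := mem_image.mp he
    exact mem_filter.mpr
      ⟨mem_edg.mpr ⟨hg, c, mem_range.mp hc, hm.mY j hj c q hq, hm.inv j hj c q⟩, rfl⟩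
  rw [this, card_image_of_injOn, card_range]
  intro c hc c' hc' h
  have hc := mem_range.mp (mem_coe.mp hc)
  have hc' := mem_range.mp (mem_coe.mp hc')
  have h1 : m j c q = m j c' q := congrArg Prod.fst h
  refine hm.inj j hj c (by omega) c' (by omega) _ (hm.mY j hj c q hq) ?_
  rw [hm.inv j hj, h1, hm.inv j hj]

lemma Sw.label (h : Sw x y P A th N) {j j' : ℕ} (hj : j < N) (hj' : j' < N) {e : α × α}
    (h1 : e.1 ∈ A (j + 1) \ A j ∧ e.2 ∈ A j \ A (j + 1))
    (h2 : e.1 ∈ A (j' + 1) \ A j' ∧ e.2 ∈ A j' \ A (j' + 1)) : j = j' := by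
  obtain ⟨-, a1, a2⟩ := h.sl hj h1.1 h1.2
  obtain ⟨-, b1, b2⟩ := h.sl hj' h2.1 h2.2
  rcases lt_trichotomy j j' with hl | hl | hl
  · linarith [h.th_le (j := j + 1) hl hj'.le]
  · exact hl
  · linarith [h.th_le (j := j' + 1) hl hj.le]

/-- CHAIN -/
theorem chain (h : Sw x y P A th N) (g : ℕ) :
    ∃ (Ed : ℕ → Finset (α × α)) (I : Finset (ℕ × α)) (C : ℕ × α → ℝ → ℝ) (ch : α × α → ℕ × α),
      Sys x y ((range N).biUnion Ed) I C ch ∧
      (∀ j < N, ∀ e ∈ Ed j, e.1 ∈ A (j + 1) \ A j ∧ e.2 ∈ A j \ A (j + 1)) ∧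
      (∀ j < N, ∀ p, ((Ed j).filter fun e => e.1 = p).card ≤ g ∧
        ((Ed j).filter fun e => e.2 = p).card ≤ g) ∧
      (∀ j < N, g ≤ (A (j + 1) \ A j).card →
        (∀ p ∈ A (j + 1) \ A j, ((Ed j).filter fun e => e.1 = p).card = g) ∧
        (∀ q ∈ A j \ A (j + 1), ((Ed j).filter fun e => e.2 = q).card = g)) ∧
      (∀ j < N, ∀ j' < N, ∀ e, e ∈ Ed j → e ∈ Ed j' → j = j') ∧
      ∑ e ∈ (range N).biUnion Ed, cr x y I C e ≤ 4 * (g * P.card) ^ 2 := by
  classical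
  obtain ⟨m, hm⟩ := exists_Mt h
  set E := (range N).biUnion (edg A m g) with hE
  have hk : ∀ e : α × α, ∃ j, e ∈ E → j < N ∧ e ∈ edg A m g j := by
    intro e
    by_cases he : e ∈ E
    · obtain ⟨j, h1, h2⟩ := mem_biUnion.mp he
      exact ⟨j, fun _ => ⟨mem_range.mp h1, h2⟩⟩
    · exact ⟨0, fun h => absurd h he⟩
  choose k hk using hk
  have hends : ∀ e ∈ E, e.1 ∈ A (k e + 1) \ A (k e) ∧ e.2 ∈ A (k e) \ A (k e + 1) :=
    fun e he => hm.ends (hk e he).1 (hk e he).2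
  have hlt : ∀ e ∈ E, x e.1 < x e.2 := fun e he =>
    (h.sl (hk e he).1 (hends e he).1 (hends e he).2).1
  set I : Finset (ℕ × α) := range g ×ˢ P with hI
  set Dn : ℕ × α → Finset (α × α) := fun i =>
    E.filter fun e => pos m i.1 i.2 (k e) = e.1 ∧ pos m i.1 i.2 (k e + 1) = e.2 with hDn
  set Up : ℕ × α → Finset (α × α) := fun i =>
    E.filter fun e => pos m i.1 i.2 (k e) = e.2 ∧ pos m i.1 i.2 (k e + 1) = e.1 with hUp
  have hdn : ∀ e : α × α, ∃ i, e ∈ E → i ∈ I ∧ e ∈ Dn i := by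
    intro e
    by_cases he : e ∈ E
    · obtain ⟨h1, h2⟩ := hk e he
      obtain ⟨-, c, c1, c2, c3⟩ := mem_edg.mp h2
      obtain ⟨τ, t1, t2⟩ := hm.surj h c h1.le (h.sub _ h1 (mem_sdiff.mp c2).1)
      exact ⟨(c, τ), fun _ => ⟨mem_product.mpr ⟨mem_range.mpr c1, t1⟩,
        mem_filter.mpr ⟨he, t2, by rw [pos, t2, c3]⟩⟩⟩
    · exact ⟨(0, e.1), fun h => absurd h he⟩
  have hup : ∀ e ∈ E, ∃ i ∈ I, e ∈ Up i := by
    intro e he
    obtain ⟨h1, h2⟩ := hk e he
    obtain ⟨-, c, c1, c2, c3⟩ := mem_edg.mp h2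
    obtain ⟨τ, t1, t2⟩ := hm.surj h c h1.le (h.sub _ h1.le (mem_sdiff.mp (hends e he).2).1)
    exact ⟨(c, τ), mem_product.mpr ⟨mem_range.mpr c1, t1⟩,
      mem_filter.mpr ⟨he, t2, by rw [pos, t2, ← c3, hm.inv _ h1]⟩⟩
  choose ch hch using hdn
  have hvv : ∀ i, ∀ e ∈ Dn i, ∀ e' ∈ Dn i, k e < k e' → x e.2 ≤ x e'.1 ∧
      (∀ t, t ≤ x e.2 → ln x y e' t ≤ ln x y e t) ∧
      (∀ t, x e'.1 ≤ t → ln x y e t ≤ ln x y e' t) := by
    intro i e he e' he' hl
    obtain ⟨he, -, p1⟩ := mem_filter.mp he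
    obtain ⟨he', p2, -⟩ := mem_filter.mp he'
    exact hm.vv h i.1 i.2 hl (hk e' he').1 (hends e he).1 (hends e he).2 (hends e' he').1
      (hends e' he').2 p1 p2
  have heq : ∀ i, ∀ e ∈ Dn i, ∀ e' ∈ Dn i, k e = k e' → e = e' := by
    intro i e he e' he' hl
    obtain ⟨-, p1, p2⟩ := mem_filter.mp he
    obtain ⟨-, p3, p4⟩ := mem_filter.mp he'
    rw [hl] at p1 p2
    exact Prod.ext (p1.symm.trans p3) (p2.symm.trans p4)
  refine ⟨edg A m g, I, fun i => env x y (Dn i), ch, ⟨hlt, fun e he => (hch e he).1, ?_, ?_⟩,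
    fun j hj e he => hm.ends hj he, fun j hj p => ⟨?_, ?_⟩,
    fun j hj hg => ⟨hm.deg_left hj hg, hm.deg_right hj hg⟩,
    fun j hj j' hj' e he he' => h.label hj hj' (hm.ends hj he) (hm.ends hj' he'), ?_⟩
  · intro e he t t1 t2
    refine env_eq x y _ e (hch e he).2 t fun e' he' => ?_
    rcases lt_trichotomy (k e) (k e') with hl | hl | hl
    · exact (hvv _ e (hch e he).2 e' he' hl).2.1 t t2
    · rw [heq _ e (hch e he).2 e' he' hl]
    · exact (hvv _ e' he' e (hch e he).2 hl).2.2 t t1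
  · intro e he e' he' hc
    have a1 := (hch e he).2
    have a2 := (hch e' he').2
    rw [← hc] at a2
    rcases lt_trichotomy (k e) (k e') with hl | hl | hl
    · exact Or.inr (Or.inl (hvv _ e a1 e' a2 hl).1)
    · exact Or.inl (heq _ e a1 e' a2 hl)
    · exact Or.inr (Or.inr (hvv _ e' a2 e a1 hl).1)
  · exact (card_le_card (deg_left_sub g j p)).trans (card_image_le.trans (card_range g).le)
  · exact (card_le_card (hm.deg_right_sub g hj p)).trans (card_image_le.trans (card_range g).le)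
  · have a1 : ∑ e ∈ E, cr x y I (fun i => env x y (Dn i)) e =
        ∑ i ∈ I, (E.filter fun e => meets x y (env x y (Dn i)) e).card := by
      unfold cr
      simp only [card_filter]
      exact sum_comm
    have a2 : ∀ i ∈ I, (E.filter fun e => meets x y (env x y (Dn i)) e).card ≤ I.card * 4 := by
      intro i _
      have b1 : (E.filter fun e => meets x y (env x y (Dn i)) e) ⊆
          I.biUnion fun i' => (Up i').filter fun e => meets x y (env x y (Dn i)) e := by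
        intro e he
        obtain ⟨he, hme⟩ := mem_filter.mp he
        obtain ⟨i', h1, h2⟩ := hup e he
        exact mem_biUnion.mpr ⟨i', h1, mem_filter.mpr ⟨h2, hme⟩⟩
      refine (card_le_card b1).trans (card_biUnion_le_card_mul _ _ _ fun i' _ => ?_)
      refine meet4 (env_cvx x y (Dn i)) (Up i') k ?_ (fun e he => hlt e (mem_filter.mp he).1) ?_
      · intro e he e' he' hl
        obtain ⟨-, p1, p2⟩ := mem_filter.mp he
        obtain ⟨-, p3, p4⟩ := mem_filter.mp he'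
        rw [hl] at p1 p2
        exact Prod.ext (p2.symm.trans p4) (p1.symm.trans p3)
      · intro e he e' he' hl
        obtain ⟨he, -, p1⟩ := mem_filter.mp he
        obtain ⟨he', p2, -⟩ := mem_filter.mp he'
        exact hm.cc h i'.1 i'.2 hl (hk e' he').1 (hends e he).1 (hends e he).2 (hends e' he').1
          (hends e' he').2 p1 p2
    have a3 : I.card = g * P.card := by rw [hI, card_product, card_range]
    rw [a1]
    calc _ ≤ I.card * (I.card * 4) := by
          have := sum_le_card_nsmul I _ _ a2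
          simpa using this
      _ = _ := by rw [a3]; ring

end Pool.Agent.P.MP_77a832_co.KS
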