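import Mathlib

set_option autoImplicit false

open Finset

namespace Pool.Agent.P.MP_77a832_co.KS

variable {α : Type*} {ι : Type*}

/-- A balanced sweep with unit steps `j → j+1`, `j < N`: `A j` is the set of points above line `j`,
of slope `th j`; only the slope property of consecutive sets is kept. -/
structure Sw [DecidableEq α] (x y : α → ℝ) (P : Finset α) (A : ℕ → Finset α) (th : ℕ → ℝ) (N : ℕ) :
    Prop where
  sub : ∀ j, j ≤ N → A j ⊆ P
  card : ∀ j, j < N → (A (j + 1)).card = (A j).card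
  mono : ∀ j, j < N → th j ≤ th (j + 1)
  slope : ∀ j, j < N → ∀ p ∈ A (j + 1) \ A j, ∀ q ∈ A j \ A (j + 1),
    x p < x q ∧ th j * (x q - x p) < y q - y p ∧ y q - y p < th (j + 1) * (x q - x p)

/-- the line through the two ends of an edge -/
noncomputable def ln (x y : α → ℝ) (e : α × α) (t : ℝ) : ℝ :=
  y e.1 + (y e.2 - y e.1) / (x e.2 - x e.1) * (t - x e.1)

/-- the function `f` meets the edge `e` -/
def meets (x y : α → ℝ) (f : ℝ → ℝ) (e : α × α) : Prop :=
  (∃ t, x e.1 ≤ t ∧ t ≤ x e.2 ∧ f t ≤ ln x y e t) ∧ (∃ t, x e.1 ≤ t ∧ t ≤ x e.2 ∧ ln x y e t ≤ f t)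

open Classical in
/-- number of chains meeting the edge -/
noncomputable def cr (x y : α → ℝ) (I : Finset ι) (C : ι → ℝ → ℝ) (e : α × α) : ℕ :=
  (I.filter fun i => meets x y (C i) e).card

open Classical in
/-- number of chains whose height at `t` lies between `u` and `v` -/
noncomputable def btw (I : Finset ι) (C : ι → ℝ → ℝ) (t u v : ℝ) : ℕ :=
  (I.filter fun i => min u v ≤ C i t ∧ C i t ≤ max u v).card

/-- every edge of `E` is a piece of its own chain; two edges of one chain have disjoint spans -/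
structure Sys (x y : α → ℝ) (E : Finset (α × α)) (I : Finset ι) (C : ι → ℝ → ℝ)
    (ch : α × α → ι) : Prop where
  lt : ∀ e ∈ E, x e.1 < x e.2
  mem : ∀ e ∈ E, ch e ∈ I
  eq : ∀ e ∈ E, ∀ t, x e.1 ≤ t → t ≤ x e.2 → C (ch e) t = ln x y e t
  disj : ∀ e ∈ E, ∀ e' ∈ E, ch e = ch e' → e = e' ∨ x e.2 ≤ x e'.1 ∨ x e'.2 ≤ x e.1

/-- `v` lies over the half-open span of `e`, within `R` chains of `e` -/
def near (x y : α → ℝ) (I : Finset ι) (C : ι → ℝ → ℝ) (R : ℝ) (e : α × α) (v : α) : Prop :=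
  x e.1 ≤ x v ∧ x v < x e.2 ∧ (btw I C (x v) (y v) (ln x y e (x v)) : ℝ) ≤ R

lemma ln_left (x y : α → ℝ) (e : α × α) : ln x y e (x e.1) = y e.1 := by simp [ln]

lemma ln_right (x y : α → ℝ) (e : α × α) (h : x e.1 < x e.2) : ln x y e (x e.2) = y e.2 := by
  unfold ln
  have : x e.2 - x e.1 ≠ 0 := by linarith [sub_pos.mpr h] |> fun (h : 0 < x e.2 - x e.1) => h.ne'
  field_simp
  ring

lemma Sys.mono {x y : α → ℝ} {E E' : Finset (α × α)} {I : Finset ι} {C : ι → ℝ → ℝ}
    {ch : α × α → ι} (h : Sys x y E I C ch) (hE : E' ⊆ E) : Sys x y E' I C ch :=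
  ⟨fun e he => h.lt e (hE he), fun e he => h.mem e (hE he), fun e he => h.eq e (hE he),
    fun e he e' he' => h.disj e (hE he) e' (hE he')⟩

end Pool.Agent.P.MP_77a832_co.KS
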