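import Pool.Agent.P.MP_77a832_co.KS.ADefs

set_option autoImplicit false

open Finset

namespace Pool.Agent.P.MP_77a832_co.KS

variable {α : Type*}

/-- MATCH: cyclic matchings between two disjoint sets of the same size -/
lemma matching [DecidableEq α] (X Y : Finset α) (hd : Disjoint X Y) (hc : X.card = Y.card) :
    ∃ m : ℕ → α → α, (∀ c p, m c (m c p) = p) ∧ (∀ c, ∀ p ∈ X, m c p ∈ Y) ∧
      (∀ c, ∀ q ∈ Y, m c q ∈ X) ∧ (∀ c p, p ∉ X → p ∉ Y → m c p = p) ∧
      (∀ c, c < X.card → ∀ c', c' < X.card → ∀ p ∈ X, m c p = m c' p → c = c') := by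
  rcases Nat.eq_zero_or_pos X.card with h0 | h0
  · have hX : X = ∅ := card_eq_zero.mp h0
    have hY : Y = ∅ := card_eq_zero.mp (hc ▸ h0)
    subst hX hY
    exact ⟨fun _ p => p, by simp, by simp, by simp, by simp, by simp⟩
  have : NeZero X.card := ⟨h0.ne'⟩
  have eX : X ≃ ZMod X.card := Fintype.equivOfCardEq (by simp [ZMod.card])
  have eY : Y ≃ ZMod X.card := Fintype.equivOfCardEq (by simp [ZMod.card, hc])
  let φ : ℕ → X ≃ Y := fun c => eX.trans ((Equiv.addRight (c : ZMod X.card)).trans eY.symm)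
  have hn : ∀ q ∈ Y, q ∉ X := fun q hq hx => disjoint_left.mp hd hx hq
  let m : ℕ → α → α := fun c p =>
    if hp : p ∈ X then (φ c ⟨p, hp⟩ : α) else if hq : p ∈ Y then ((φ c).symm ⟨p, hq⟩ : α) else p
  have mX : ∀ c p (hp : p ∈ X), m c p = (φ c ⟨p, hp⟩ : α) := fun c p hp => by simp [m, hp]
  have mY : ∀ c p (hq : p ∈ Y), m c p = ((φ c).symm ⟨p, hq⟩ : α) := fun c p hq => by
    simp [m, hq, hn p hq]
  have m0 : ∀ c p, p ∉ X → p ∉ Y → m c p = p := fun c p h1 h2 => by simp [m, h1, h2]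
  refine ⟨m, ?_, ?_, ?_, m0, ?_⟩
  · intro c p
    by_cases hp : p ∈ X
    · rw [mX c p hp, mY c _ (φ c ⟨p, hp⟩).2]; simp
    by_cases hq : p ∈ Y
    · rw [mY c p hq, mX c _ ((φ c).symm ⟨p, hq⟩).2]; simp
    · rw [m0 c p hp hq, m0 c p hp hq]
  · intro c p hp
    rw [mX c p hp]; exact (φ c ⟨p, hp⟩).2
  · intro c p hq
    rw [mY c p hq]; exact ((φ c).symm ⟨p, hq⟩).2
  · intro c hc1 c' hc2 p hp h
    rw [mX c p hp, mX c' p hp] at h
    have h1 : φ c ⟨p, hp⟩ = φ c' ⟨p, hp⟩ := Subtype.ext h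
    simp only [φ, Equiv.trans_apply, Equiv.coe_addRight, EmbeddingLike.apply_eq_iff_eq,
      add_right_inj] at h1
    rw [ZMod.natCast_eq_natCast_iff', Nat.mod_eq_of_lt hc1, Nat.mod_eq_of_lt hc2] at h1
    exact h1

/-- the form of convexity that is used -/
def Cvx (f : ℝ → ℝ) : Prop :=
  ∀ a b c t1 t t2 : ℝ, t1 ≤ t → t ≤ t2 → f t1 < a + b * (t1 - c) → f t2 < a + b * (t2 - c) →
    f t < a + b * (t - c)

/-- slope of an edge -/
noncomputable def sl (x y : α → ℝ) (e : α × α) : ℝ := (y e.2 - y e.1) / (x e.2 - x e.1)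

lemma ln_eq (x y : α → ℝ) (e : α × α) (s t : ℝ) :
    ln x y e t = ln x y e s + sl x y e * (t - s) := by
  unfold ln sl; ring

/-- `e'` lies to the left of `e`, in concave position -/
def cc (x y : α → ℝ) (e e' : α × α) : Prop :=
  x e'.2 ≤ x e.1 ∧ sl x y e < sl x y e' ∧ ln x y e' (x e'.2) ≤ ln x y e (x e'.2) ∧
    ln x y e (x e.1) ≤ ln x y e' (x e.1)

lemma cc_r {x y : α → ℝ} {e e' : α × α} (h : cc x y e e') (t : ℝ) (ht : x e.1 ≤ t) :
    ln x y e t ≤ ln x y e' t := by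
  rw [ln_eq x y e (x e.1) t, ln_eq x y e' (x e.1) t]
  nlinarith [h.2.2.2, mul_le_mul_of_nonneg_right h.2.1.le (sub_nonneg.mpr ht)]

lemma cc_r' {x y : α → ℝ} {e e' : α × α} (h : cc x y e e') (t : ℝ) (ht : x e.1 < t) :
    ln x y e t < ln x y e' t := by
  rw [ln_eq x y e (x e.1) t, ln_eq x y e' (x e.1) t]
  nlinarith [h.2.2.2, mul_lt_mul_of_pos_right h.2.1 (sub_pos.mpr ht)]

lemma cc_l {x y : α → ℝ} {e e' : α × α} (h : cc x y e e') (t : ℝ) (ht : t ≤ x e'.2) :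
    ln x y e' t ≤ ln x y e t := by
  rw [ln_eq x y e (x e'.2) t, ln_eq x y e' (x e'.2) t]
  nlinarith [h.2.2.1, mul_le_mul_of_nonneg_right h.2.1.le (sub_nonneg.mpr ht)]

lemma cc_l' {x y : α → ℝ} {e e' : α × α} (h : cc x y e e') (t : ℝ) (ht : t < x e'.2) :
    ln x y e' t < ln x y e t := by
  rw [ln_eq x y e (x e'.2) t, ln_eq x y e' (x e'.2) t]
  nlinarith [h.2.2.1, mul_lt_mul_of_pos_right h.2.1 (sub_pos.mpr ht)]

lemma meet5 {x y : α → ℝ} {f : ℝ → ℝ} (hf : Cvx f) {a1 a2 a3 a4 a5 : α × α}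
    (l2 : x a2.1 < x a2.2) (l4 : x a4.1 < x a4.2) (c12 : cc x y a1 a2) (c23 : cc x y a2 a3)
    (c34 : cc x y a3 a4) (c45 : cc x y a4 a5) (m1 : meets x y f a1) (m3 : meets x y f a3)
    (m5 : meets x y f a5) : False := by
  obtain ⟨⟨t1, p1, -, r1⟩, -⟩ := m1
  obtain ⟨⟨t5, -, q5, r5⟩, -⟩ := m5
  obtain ⟨-, t, p3, q3, r3⟩ := m3
  have u1 : f t1 < ln x y a3 t1 :=
    lt_of_le_of_lt (r1.trans (cc_r c12 t1 p1)) (cc_r' c23 t1 (by linarith [c12.1]))
  have u5 : f t5 < ln x y a3 t5 :=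
    lt_of_le_of_lt (r5.trans (cc_l c45 t5 q5)) (cc_l' c34 t5 (by linarith [c45.1]))
  have := hf (y a3.1) ((y a3.2 - y a3.1) / (x a3.2 - x a3.1)) (x a3.1) t5 t t1
    (by linarith [c45.1, c34.1]) (by linarith [c12.1, c23.1]) u5 u1
  exact absurd r3 (not_le.mpr this)

open Classical in
/-- MEET4: a convex function meets at most four edges of a concave chain -/
lemma meet4 {x y : α → ℝ} {f : ℝ → ℝ} (hf : Cvx f) (D : Finset (α × α)) (k : α × α → ℕ)
    (hk : Set.InjOn k D) (hl : ∀ e ∈ D, x e.1 < x e.2)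
    (hc : ∀ e ∈ D, ∀ e' ∈ D, k e < k e' → cc x y e e') :
    (D.filter fun e => meets x y f e).card ≤ 4 := by
  by_contra h
  have h5 : 5 ≤ ((D.filter fun e => meets x y f e).image k).card := by
    rw [card_image_of_injOn (hk.mono (by intro a ha; exact (mem_filter.mp ha).1))]; omega
  have hm := orderEmbOfCardLe_mem _ h5
  have hs := (orderEmbOfCardLe _ h5).strictMono
  simp only [mem_image, mem_filter] at hm
  choose a ha hka using hm
  have hcc : ∀ i j : Fin 5, i < j → cc x y (a i) (a j) := fun i j hij =>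
    hc _ (ha i).1 _ (ha j).1 (by rw [hka, hka]; exact hs hij)
  exact meet5 hf (hl _ (ha 1).1) (hl _ (ha 3).1) (hcc 0 1 (by decide)) (hcc 1 2 (by decide))
    (hcc 2 3 (by decide)) (hcc 3 4 (by decide)) (ha 0).2 (ha 2).2 (ha 4).2

open Classical in
/-- upper envelope of the lines of a set of edges -/
noncomputable def env (x y : α → ℝ) (D : Finset (α × α)) (t : ℝ) : ℝ :=
  if h : D.Nonempty then D.sup' h (fun e => ln x y e t) else 0

lemma env_cvx (x y : α → ℝ) (D : Finset (α × α)) : Cvx (env x y D) := by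
  intro a b c t1 t t2 h1 h2 h3 h4
  have key : ∀ u v : ℝ, u + v * t1 < a + b * (t1 - c) → u + v * t2 < a + b * (t2 - c) →
      u + v * t < a + b * (t - c) := by
    intro u v k1 k2
    rcases le_total v b with h | h
    · nlinarith [mul_nonneg (sub_nonneg.mpr h) (sub_nonneg.mpr h1)]
    · nlinarith [mul_nonneg (sub_nonneg.mpr h) (sub_nonneg.mpr h2)]
  unfold env at *
  split_ifs at * with h
  · rw [sup'_lt_iff] at *
    intro e he
    have k1 := h3 e he
    have k2 := h4 e he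
    rw [ln_eq x y e 0] at k1 k2 ⊢
    simp only [sub_zero] at k1 k2 ⊢
    exact key _ _ k1 k2
  · simpa using key 0 0 (by simpa using h3) (by simpa using h4)

lemma env_eq (x y : α → ℝ) (D : Finset (α × α)) (e : α × α) (he : e ∈ D) (t : ℝ)
    (h : ∀ e' ∈ D, ln x y e' t ≤ ln x y e t) : env x y D t = ln x y e t := by
  unfold env
  rw [dif_pos ⟨e, he⟩]
  exact le_antisymm (sup'_le _ _ h) (le_sup' (fun e => ln x y e t) he)

end Pool.Agent.P.MP_77a832_co.KS
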