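import Pool.Agent.P.MP_77a832_co.KS.ASand

set_option autoImplicit false

open Finset

namespace Pool.Agent.P.MP_77a832_co.KS

variable {α : Type*} {ι : Type*} {β : Type*}

lemma prune_step [DecidableEq α] [DecidableEq β] (H : Finset β) (f g : β → α) (D1 D2 : ℝ)
    (h2 : 0 ≤ D2) (h1 : 0 ≤ D1) (e : β) (he : e ∈ H)
    (hmax : ((H.filter fun a => ¬ f a = f e).card : ℝ)
        - D1 * ((H.filter fun a => ¬ f a = f e).image f).card
        - D2 * ((H.filter fun a => ¬ f a = f e).image g).card ≤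
      H.card - D1 * (H.image f).card - D2 * (H.image g).card) :
    D1 ≤ (H.filter fun a => f a = f e).card := by
  have a1 := card_filter_add_card_filter_not (s := H) (fun a => f a = f e)
  have a1' : ((H.filter fun a => f a = f e).card : ℝ) +
      ((H.filter fun a => ¬ f a = f e).card : ℝ) = H.card := by exact_mod_cast a1
  have a2 : ((H.filter fun a => ¬ f a = f e).image f).card + 1 ≤ (H.image f).card := by
    apply Nat.succ_le_of_lt
    apply card_lt_card
    refine ⟨image_subset_image (filter_subset _ _), fun h => ?_⟩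
    obtain ⟨a, ha, ha'⟩ := mem_image.mp (h (mem_image_of_mem f he))
    exact (mem_filter.mp ha).2 ha'
  have a3 : ((H.filter fun a => ¬ f a = f e).image g).card ≤ (H.image g).card :=
    card_le_card (image_subset_image (filter_subset _ _))
  have a2' : (((H.filter fun a => ¬ f a = f e).image f).card : ℝ) + 1 ≤ (H.image f).card := by
    exact_mod_cast a2
  have a3' : (((H.filter fun a => ¬ f a = f e).image g).card : ℝ) ≤ (H.image g).card := by
    exact_mod_cast a3
  nlinarith [mul_le_mul_of_nonneg_left a2' h1, mul_le_mul_of_nonneg_left a3' h2]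

/-- PRUNE: a subgraph with large minimum degrees -/
lemma prune [DecidableEq α] [DecidableEq β] (H : Finset β) (f g : β → α) (D1 D2 : ℝ)
    (h1 : 0 ≤ D1) (h2 : 0 ≤ D2)
    (h : D1 * (H.image f).card + D2 * (H.image g).card < H.card) :
    ∃ H' ⊆ H, H'.Nonempty ∧ ∀ e ∈ H', D1 ≤ (H'.filter fun a => f a = f e).card ∧
      D2 ≤ (H'.filter fun a => g a = g e).card := by
  obtain ⟨H', hH', hm⟩ := exists_max_image H.powerset
    (fun K => (K.card : ℝ) - D1 * (K.image f).card - D2 * (K.image g).card) ⟨∅, by simp⟩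
  have hs := mem_powerset.mp hH'
  refine ⟨H', hs, ?_, fun e he => ⟨?_, ?_⟩⟩
  · rw [nonempty_iff_ne_empty]
    rintro rfl
    have := hm H (mem_powerset_self H)
    simp at this
    linarith
  · exact prune_step H' f g D1 D2 h2 h1 e he
      (hm _ (mem_powerset.mpr ((filter_subset _ _).trans hs)))
  · refine prune_step H' g f D2 D1 h1 h2 e he ?_
    have := hm (H'.filter fun a => ¬ g a = g e) (mem_powerset.mpr ((filter_subset _ _).trans hs))
    linarith

open Classical in
lemma half_long (H : Finset β) (f : β → α) (len : β → ℝ) (l : ℝ)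
    (hno : ∀ e ∈ H, len e < l → 2 * (H.filter fun a => f a = f e ∧ len a ≤ len e).card <
      (H.filter fun a => f a = f e).card) (e : β) :
    (H.filter fun a => f a = f e).card ≤ 2 * (H.filter fun a => f a = f e ∧ l ≤ len a).card := by
  have a1 := card_filter_add_card_filter_not (s := H.filter fun a => f a = f e)
    (fun a => l ≤ len a)
  rw [filter_filter, filter_filter] at a1
  rcases (H.filter fun a => f a = f e ∧ ¬ l ≤ len a).eq_empty_or_nonempty with h0 | h0
  · rw [h0, card_empty] at a1; omega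
  obtain ⟨b, hb, hm⟩ := exists_max_image _ len h0
  obtain ⟨hb1, hb2, hb3⟩ := mem_filter.mp hb
  have a2 := hno b hb1 (not_le.mp hb3)
  rw [hb2] at a2
  have a3 : (H.filter fun a => f a = f e ∧ ¬ l ≤ len a).card ≤
      (H.filter fun a => f a = f e ∧ len a ≤ len b).card := by
    refine card_le_card fun a ha => ?_
    have := mem_filter.mp ha
    exact mem_filter.mpr ⟨this.1, this.2.1, hm a ha⟩
  omega

open Classical in
lemma two_step (H : Finset β) (f g : β → α) (hfg : ∀ a b, f a = f b → g a = g b → a = b)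
    (len : β → ℝ) (l D : ℝ) (p : α)
    (h : ∀ e ∈ H, D ≤ (H.filter fun a => g a = g e ∧ l ≤ len a).card) :
    ((H.filter fun a => f a = p ∧ len a ≤ l).card : ℝ) * D ≤
      (H.filter fun b => l ≤ len b ∧ ∃ a ∈ H, f a = p ∧ len a ≤ l ∧ g b = g a).card := by
  have a1 : (H.filter fun b => l ≤ len b ∧ ∃ a ∈ H, f a = p ∧ len a ≤ l ∧ g b = g a) =
      (H.filter fun a => f a = p ∧ len a ≤ l).biUnion
        (fun e => H.filter fun a => g a = g e ∧ l ≤ len a) := by
    ext b
    simp only [mem_filter, mem_biUnion]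
    constructor
    · rintro ⟨hb, hl, a, ha, h1, h2, h3⟩
      exact ⟨a, ⟨ha, h1, h2⟩, hb, h3, hl⟩
    · rintro ⟨a, ⟨ha, h1, h2⟩, hb, h3, hl⟩
      exact ⟨hb, hl, a, ha, h1, h2, h3⟩
  rw [a1, card_biUnion]
  · push_cast
    calc _ = ∑ _e ∈ (H.filter fun a => f a = p ∧ len a ≤ l), D := by simp
      _ ≤ _ := sum_le_sum fun e he => h e (mem_filter.mp he).1
  · intro a ha b hb hab
    rw [Function.onFun, disjoint_left]
    intro c hc hc'
    have ha' := (mem_filter.mp ha).2.1
    have hb' := (mem_filter.mp hb).2.1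
    exact hab (hfg a b (ha'.trans hb'.symm)
      ((mem_filter.mp hc).2.1.symm.trans (mem_filter.mp hc').2.1))

open Classical in
lemma min_core {x y : α → ℝ} {H : Finset (α × α)} {I : Finset ι} {C : ι → ℝ → ℝ}
    {ch : α × α → ι} (hS : Sys x y H I C ch) (M D1 D2 : ℝ) (hM : 0 ≤ M) (h1 : 0 ≤ D1)
    (h2 : 0 ≤ D2) (hc : ∀ e ∈ H, (cr x y I C e : ℝ) ≤ M) (hne : H.Nonempty)
    (hd : ∀ e ∈ H, D1 ≤ (H.filter fun a => a.1 = e.1).card ∧
      D2 ≤ (H.filter fun a => a.2 = e.2).card) : D1 * D2 ≤ 16 * M := by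
  set len : α × α → ℝ := fun e => x e.2 - x e.1 with hlen
  set Q : α × α → Prop := fun e =>
    (H.filter fun a => a.1 = e.1).card ≤ 2 * (H.filter fun a => a.1 = e.1 ∧ len a ≤ len e).card ∨
    (H.filter fun a => a.2 = e.2).card ≤ 2 * (H.filter fun a => a.2 = e.2 ∧ len a ≤ len e).card
    with hQ
  have hQn : (H.filter Q).Nonempty := by
    obtain ⟨b, hb, hm⟩ := exists_max_image H len hne
    refine ⟨b, mem_filter.mpr ⟨hb, Or.inl ?_⟩⟩
    have : (H.filter fun a => a.1 = b.1).card ≤
        (H.filter fun a => a.1 = b.1 ∧ len a ≤ len b).card := by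
      refine card_le_card fun a ha => ?_
      have := mem_filter.mp ha
      exact mem_filter.mpr ⟨this.1, this.2, hm a this.1⟩
    omega
  obtain ⟨e, he, hm⟩ := exists_min_image _ len hQn
  obtain ⟨he, hQe⟩ := mem_filter.mp he
  have hno : ∀ b ∈ H, len b < len e → ¬ Q b := fun b hb hl hq =>
    absurd (hm b (mem_filter.mpr ⟨hb, hq⟩)) (not_le.mpr hl)
  have hL : ∀ b ∈ H, D1 / 2 ≤ (H.filter fun a => a.1 = b.1 ∧ len e ≤ len a).card := by
    intro b hb
    have a1 := half_long H Prod.fst len (len e)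
      (fun c hc hl => by have := hno c hc hl; simp only [hQ, not_or, not_le] at this; exact this.1) b
    have a2 : ((H.filter fun a => a.1 = b.1).card : ℝ) ≤
        2 * (H.filter fun a => a.1 = b.1 ∧ len e ≤ len a).card := by exact_mod_cast a1
    linarith [(hd b hb).1]
  have hR : ∀ b ∈ H, D2 / 2 ≤ (H.filter fun a => a.2 = b.2 ∧ len e ≤ len a).card := by
    intro b hb
    have a1 := half_long H Prod.snd len (len e)
      (fun c hc hl => by have := hno c hc hl; simp only [hQ, not_or, not_le] at this; exact this.2) b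
    have a2 : ((H.filter fun a => a.2 = b.2).card : ℝ) ≤
        2 * (H.filter fun a => a.2 = b.2 ∧ len e ≤ len a).card := by exact_mod_cast a1
    linarith [(hd b hb).2]
  rcases hQe with hq | hq
  · have a1 := two_step H Prod.fst Prod.snd (fun a b h h' => Prod.ext h h') len (len e) (D2 / 2)
      e.1 hR
    have a2 : ((H.filter fun a => a.1 = e.1).card : ℝ) ≤
        2 * (H.filter fun a => a.1 = e.1 ∧ len a ≤ len e).card := by exact_mod_cast hq
    have key : ∀ b ∈ (H.filter fun b => len e ≤ len b ∧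
        ∃ a ∈ H, a.1 = e.1 ∧ len a ≤ len e ∧ b.2 = a.2), (x b.1 ≤ x e.1 ∧ x e.1 < x b.2) ∧
        (btw I C (x e.1) (y e.1) (ln x y b (x e.1)) : ℝ) ≤ 2 * M := by
      intro b hb
      obtain ⟨hb, hl, a, ha, e1, hl', e2⟩ := mem_filter.mp hb
      obtain ⟨p, q⟩ := a
      obtain ⟨p', q'⟩ := b
      simp only [hlen] at hl hl' e1 e2 ⊢
      subst e2
      have b1 := hS.lt _ ha
      have b2 := hS.lt _ hb
      simp only at b1 b2
      rw [← e1] at hl hl' ⊢
      have b3 : x p' ≤ x p := by linarith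
      refine ⟨⟨b3, b1⟩, ?_⟩
      have b4 := sand_right x y I C p p' q' (x p) b1 b2 le_rfl b3 b1.le
      have b5 : ln x y (p, q') (x p) = y p := ln_left x y (p, q')
      rw [b5] at b4
      have b6 : (btw I C (x p) (y p) (ln x y (p', q') (x p)) : ℝ) ≤
          cr x y I C (p, q') + cr x y I C (p', q') := by exact_mod_cast b4
      linarith [hc _ ha, hc _ hb]
    have a3 := rank_left (hS.mono (filter_subset _ _)) (x e.1) (y e.1) (2 * M) (by linarith)
      (fun b hb => (key b hb).1) (fun b hb => (key b hb).2)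
    have a4 := (hd e he).1
    nlinarith [mul_le_mul_of_nonneg_right (a4.trans a2) h2]
  · have a1 := two_step H Prod.snd Prod.fst (fun a b h h' => Prod.ext h' h) len (len e) (D1 / 2)
      e.2 hL
    have a2 : ((H.filter fun a => a.2 = e.2).card : ℝ) ≤
        2 * (H.filter fun a => a.2 = e.2 ∧ len a ≤ len e).card := by exact_mod_cast hq
    have key : ∀ b ∈ (H.filter fun b => len e ≤ len b ∧
        ∃ a ∈ H, a.2 = e.2 ∧ len a ≤ len e ∧ b.1 = a.1), (x b.1 < x e.2 ∧ x e.2 ≤ x b.2) ∧
        (btw I C (x e.2) (y e.2) (ln x y b (x e.2)) : ℝ) ≤ 2 * M := by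
      intro b hb
      obtain ⟨hb, hl, a, ha, e1, hl', e2⟩ := mem_filter.mp hb
      obtain ⟨p, q⟩ := a
      obtain ⟨p', q'⟩ := b
      simp only [hlen] at hl hl' e1 e2 ⊢
      subst e2
      have b1 := hS.lt _ ha
      have b2 := hS.lt _ hb
      simp only at b1 b2
      rw [← e1] at hl hl' ⊢
      have b3 : x q ≤ x q' := by linarith
      refine ⟨⟨b1, b3⟩, ?_⟩
      have b4 := sand_left x y I C p' q q' (x q) b1 b2 b1.le le_rfl b3
      have b5 : ln x y (p', q) (x q) = y q := ln_right x y (p', q) b1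
      rw [b5] at b4
      have b6 : (btw I C (x q) (y q) (ln x y (p', q') (x q)) : ℝ) ≤
          cr x y I C (p', q) + cr x y I C (p', q') := by exact_mod_cast b4
      linarith [hc _ ha, hc _ hb]
    have a3 := rank_right (hS.mono (filter_subset _ _)) (x e.2) (y e.2) (2 * M) (by linarith)
      (fun b hb => (key b hb).1) (fun b hb => (key b hb).2)
    have a4 := (hd e he).2
    nlinarith [mul_le_mul_of_nonneg_right (a4.trans a2) h1]

/-- MIN -/
lemma min_bound {x y : α → ℝ} {H : Finset (α × α)} {I : Finset ι} {C : ι → ℝ → ℝ}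
    {ch : α × α → ι} (hS : Sys x y H I C ch) (M : ℝ) (hM : 0 ≤ M)
    (hc : ∀ e ∈ H, (cr x y I C e : ℝ) ≤ M) (Z1 Z2 : Finset α)
    (hZ : ∀ e ∈ H, e.1 ∈ Z1 ∧ e.2 ∈ Z2) :
    (H.card : ℝ) ^ 2 ≤ 256 * M * Z1.card * Z2.card := by
  classical
  rcases H.eq_empty_or_nonempty with rfl | hne
  · simp only [card_empty, Nat.cast_zero]; norm_num; positivity
  obtain ⟨e0, he0⟩ := hne
  have z1 : (0 : ℝ) < Z1.card := by exact_mod_cast card_pos.mpr ⟨_, (hZ e0 he0).1⟩
  have z2 : (0 : ℝ) < Z2.card := by exact_mod_cast card_pos.mpr ⟨_, (hZ e0 he0).2⟩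
  have z0 : (0 : ℝ) < H.card := by exact_mod_cast card_pos.mpr ⟨_, he0⟩
  have i1 : ((H.image Prod.fst).card : ℝ) ≤ Z1.card := by
    refine Nat.cast_le.mpr (card_le_card fun a ha => ?_)
    obtain ⟨e, he, rfl⟩ := mem_image.mp ha
    exact (hZ e he).1
  have i2 : ((H.image Prod.snd).card : ℝ) ≤ Z2.card := by
    refine Nat.cast_le.mpr (card_le_card fun a ha => ?_)
    obtain ⟨e, he, rfl⟩ := mem_image.mp ha
    exact (hZ e he).2
  have d1 : (0 : ℝ) ≤ H.card / (4 * Z1.card) := by positivity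
  have d2 : (0 : ℝ) ≤ H.card / (4 * Z2.card) := by positivity
  have e1 : (H.card : ℝ) / (4 * Z1.card) * Z1.card = H.card / 4 := by field_simp
  have e2 : (H.card : ℝ) / (4 * Z2.card) * Z2.card = H.card / 4 := by field_simp
  obtain ⟨H', hs, hne, hd⟩ := prune H Prod.fst Prod.snd _ _ d1 d2 (by
    nlinarith [mul_le_mul_of_nonneg_left i1 d1, mul_le_mul_of_nonneg_left i2 d2])
  have := min_core (hS.mono hs) M _ _ hM d1 d2 (fun e he => hc e (hs he)) hne (by convert hd)
  have e3 : (H.card : ℝ) ^ 2 = 16 * (H.card / (4 * Z1.card) * (H.card / (4 * Z2.card))) *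
      (Z1.card * Z2.card) := by field_simp; ring
  rw [e3]
  nlinarith [mul_le_mul_of_nonneg_right this (mul_pos z1 z2).le]

end Pool.Agent.P.MP_77a832_co.KS
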