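import Pool.Agent.P.MP_77a832_co.KS.AMin
import Pool.Agent.P.MP_77a832_co.KS.AChain

set_option autoImplicit false

open Finset

namespace Pool.Agent.P.MP_77a832_co.KS

variable {α : Type*} {ι : Type*}

/-- Markov: at most half of `H` has `f > 2T/|H|` -/
lemma cube_bound {x y : α → ℝ} {E : Finset (α × α)} {I : Finset ι} {C : ι → ℝ → ℝ}
    {ch : α × α → ι} (hS : Sys x y E I C ch) (T : ℝ)
    (hT : ∑ e ∈ E, (cr x y I C e : ℝ) ≤ T) (H : Finset (α × α)) (hH : H ⊆ E) (Z1 Z2 : Finset α)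
    (hZ : ∀ e ∈ H, e.1 ∈ Z1 ∧ e.2 ∈ Z2) :
    (H.card : ℝ) ^ 3 ≤ 2048 * T * Z1.card * Z2.card := by
  classical
  have hs : ∀ K ⊆ E, ∑ e ∈ K, (cr x y I C e : ℝ) ≤ T := fun K hK =>
    (sum_le_sum_of_subset_of_nonneg hK fun _ _ _ => Nat.cast_nonneg _).trans hT
  have hT0 : 0 ≤ T := by simpa using hs ∅ (empty_subset _)
  rcases Nat.eq_zero_or_pos H.card with h0 | h0
  · rw [h0]; norm_num; positivity
  have m0 : (0 : ℝ) < H.card := by exact_mod_cast h0
  set M : ℝ := 2 * T / H.card with hM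
  have M0 : 0 ≤ M := by positivity
  have hMm : M * H.card = 2 * T := by rw [hM]; field_simp
  have a1 := card_filter_add_card_filter_not (s := H) (fun e => (cr x y I C e : ℝ) ≤ M)
  have a1' : ((H.filter fun e => (cr x y I C e : ℝ) ≤ M).card : ℝ) +
      ((H.filter fun e => ¬ (cr x y I C e : ℝ) ≤ M).card : ℝ) = H.card := by exact_mod_cast a1
  have a2 : 2 * ((H.filter fun e => ¬ (cr x y I C e : ℝ) ≤ M).card : ℝ) ≤ H.card := by
    rcases (H.filter fun e => ¬ (cr x y I C e : ℝ) ≤ M).eq_empty_or_nonempty with h1 | h1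
    · rw [h1]; simp
    have b1 : ∑ _e ∈ (H.filter fun e => ¬ (cr x y I C e : ℝ) ≤ M), M <
        ∑ e ∈ (H.filter fun e => ¬ (cr x y I C e : ℝ) ≤ M), (cr x y I C e : ℝ) :=
      sum_lt_sum_of_nonempty h1 fun e he => not_le.mp (mem_filter.mp he).2
    have b2 := hs _ ((filter_subset (fun e => ¬ (cr x y I C e : ℝ) ≤ M) H).trans hH)
    rw [sum_const, nsmul_eq_mul] at b1
    by_contra hc
    have hc := not_le.mp hc
    nlinarith [mul_le_mul_of_nonneg_right hc.le M0]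
  have a3 := min_bound (hS.mono ((filter_subset (fun e => (cr x y I C e : ℝ) ≤ M) H).trans hH)) M M0
    (fun e he => (mem_filter.mp he).2) Z1 Z2 (fun e he => hZ e (mem_filter.mp he).1)
  have a4 : (H.card : ℝ) ^ 2 ≤ 1024 * M * Z1.card * Z2.card := by
    have : (H.card : ℝ) ≤ 2 * ((H.filter fun e => (cr x y I C e : ℝ) ≤ M).card : ℝ) := by linarith
    nlinarith [pow_le_pow_left₀ m0.le this 2]
  calc (H.card : ℝ) ^ 3 = (H.card : ℝ) ^ 2 * H.card := by ring
    _ ≤ 1024 * M * Z1.card * Z2.card * H.card := mul_le_mul_of_nonneg_right a4 m0.le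
    _ = 1024 * (M * H.card) * Z1.card * Z2.card := by ring
    _ = _ := by rw [hMm]; ring

lemma net_num (g S K H Z n : ℝ) (r1 : 1 ≤ g) (hS : 0 ≤ S) (hK : 0 ≤ K) (hZ : 0 ≤ Z) (hn : 0 ≤ n)
    (r5 : g * S ≤ 2 * H) (r3 : S ≤ 4 * K * g) (s4 : H ^ 3 ≤ 8192 * g ^ 2 * n ^ 3 * Z) :
    S ^ 4 ≤ 23 ^ 4 * Z * n ^ 3 * K := by
  have r0 : 0 < g := by linarith
  have r6 : (g * S) ^ 3 ≤ (2 * H) ^ 3 := pow_le_pow_left₀ (by positivity) r5 3
  have r7 : g * S ^ 3 ≤ 65536 * n ^ 3 * Z := by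
    have : g ^ 2 * (g * S ^ 3) ≤ g ^ 2 * (65536 * n ^ 3 * Z) :=
      calc g ^ 2 * (g * S ^ 3) = (g * S) ^ 3 := by ring
        _ ≤ (2 * H) ^ 3 := r6
        _ = 8 * H ^ 3 := by ring
        _ ≤ 8 * (8192 * g ^ 2 * n ^ 3 * Z) := by linarith
        _ = _ := by ring
    exact le_of_mul_le_mul_left this (by positivity)
  have r8 : 0 ≤ n ^ 3 * Z * K := by positivity
  calc S ^ 4 = S ^ 3 * S := by ring
    _ ≤ S ^ 3 * (4 * K * g) := mul_le_mul_of_nonneg_left r3 (by positivity)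
    _ = 4 * K * (g * S ^ 3) := by ring
    _ ≤ 4 * K * (65536 * n ^ 3 * Z) := mul_le_mul_of_nonneg_left r7 (by positivity)
    _ = 262144 * (n ^ 3 * Z * K) := by ring
    _ ≤ 23 ^ 4 * (n ^ 3 * Z * K) := mul_le_mul_of_nonneg_right (by norm_num) r8
    _ = _ := by ring

lemma net_gen [DecidableEq α] (F : Finset ℕ) (Z : Finset α) (W : ℕ → Finset α) (f : α × α → α)
    (n : ℝ) (hn : 0 ≤ n)
    (h : ∀ g : ℕ, ∃ Ed : ℕ → Finset (α × α),
      (∀ j ∈ F, g ≤ (W j).card → ∀ q ∈ W j, ((Ed j).filter fun e => f e = q).card = g) ∧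
      (∀ j ∈ F, ∀ j' ∈ F, ∀ e, e ∈ Ed j → e ∈ Ed j' → j = j') ∧
      ∀ H ⊆ F.biUnion Ed, (∀ e ∈ H, f e ∈ Z) → (H.card : ℝ) ^ 3 ≤ 8192 * g ^ 2 * n ^ 3 * Z.card) :
    ((∑ j ∈ F, (Z ∩ W j).card : ℕ) : ℝ) ^ 4 ≤ 23 ^ 4 * Z.card * n ^ 3 * F.card := by
  set S := ∑ j ∈ F, (Z ∩ W j).card with hS
  rcases Nat.eq_zero_or_pos F.card with h0 | h0
  · have : F = ∅ := card_eq_zero.mp h0
    subst this
    simp [hS]
  set K := F.card with hK
  set g := max 1 (S / (2 * K)) with hg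
  have g1 : 1 ≤ g := le_max_left _ _
  have g2 : 2 * ((g - 1) * K) ≤ S := by
    have := Nat.div_mul_le_self S (2 * K)
    rcases max_cases 1 (S / (2 * K)) with h1 | h1
    · rw [hg, h1.1]; simp
    · rw [hg, h1.1]
      calc 2 * ((S / (2 * K) - 1) * K) ≤ 2 * (S / (2 * K) * K) := by
            gcongr; omega
        _ = S / (2 * K) * (2 * K) := by ring
        _ ≤ S := this
  have g3 : S ≤ 4 * K * g := by
    have a1 := Nat.lt_div_mul_add (a := S) (b := 2 * K) (by omega)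
    have a2 : S / (2 * K) ≤ g := le_max_right _ _
    nlinarith [Nat.mul_le_mul_right (2 * K) a2, Nat.mul_le_mul_right (2 * K) g1]
  obtain ⟨Ed, h1, h2, h3⟩ := h g
  set F' := F.filter fun j => g ≤ (W j).card with hF'
  have s1 : ∑ j ∈ F', (Z ∩ W j).card + ∑ j ∈ F.filter (fun j => ¬ g ≤ (W j).card),
      (Z ∩ W j).card = S := sum_filter_add_sum_filter_not _ _ _
  have s2 : ∑ j ∈ F.filter (fun j => ¬ g ≤ (W j).card), (Z ∩ W j).card ≤ (g - 1) * K := by
    calc _ ≤ (F.filter (fun j => ¬ g ≤ (W j).card)).card • (g - 1) := by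
          refine sum_le_card_nsmul _ _ _ fun j hj => ?_
          have := (mem_filter.mp hj).2
          have := card_le_card (inter_subset_right (s₁ := Z) (s₂ := W j))
          omega
      _ ≤ _ := by
          rw [smul_eq_mul, mul_comm]
          exact Nat.mul_le_mul_left _ (card_filter_le _ _)
  set H := F'.biUnion fun j => (Ed j).filter fun e => f e ∈ Z ∩ W j with hH
  have s3 : H.card = g * ∑ j ∈ F', (Z ∩ W j).card := by
    rw [hH, card_biUnion, mul_sum]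
    · refine sum_congr rfl fun j hj => ?_
      obtain ⟨j1, j2⟩ := mem_filter.mp hj
      rw [card_eq_sum_card_fiberwise (f := f) (s := (Ed j).filter fun e => f e ∈ Z ∩ W j)
        (t := Z ∩ W j) (fun e he => mem_coe.mpr (mem_filter.mp (mem_coe.mp he)).2)]
      rw [sum_congr rfl (g := fun _ => g), sum_const, smul_eq_mul, mul_comm]
      intro q hq
      rw [← h1 j j1 j2 q (mem_inter.mp hq).2, filter_filter]
      congr 1
      ext e
      simp only [mem_filter, and_congr_right_iff, and_iff_right_iff_imp]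
      rintro - rfl
      exact hq
    · intro j hj j' hj' hne
      rw [Function.onFun, disjoint_left]
      intro e he he'
      exact hne (h2 j (mem_filter.mp hj).1 j' (mem_filter.mp hj').1 e (mem_filter.mp he).1
        (mem_filter.mp he').1)
  have s4 := h3 H (by
    intro e he
    obtain ⟨j, j1, j2⟩ := mem_biUnion.mp he
    exact mem_biUnion.mpr ⟨j, (mem_filter.mp j1).1, (mem_filter.mp j2).1⟩) (by
    intro e he
    obtain ⟨j, -, j2⟩ := mem_biUnion.mp he
    exact (mem_inter.mp (mem_filter.mp j2).2).1)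
  have s5 : g * S ≤ 2 * H.card := by
    rw [s3]
    have : S ≤ 2 * ∑ j ∈ F', (Z ∩ W j).card := by omega
    nlinarith [Nat.mul_le_mul_left g this]
  exact net_num g S K H.card Z.card n (by exact_mod_cast g1) (Nat.cast_nonneg _)
    (Nat.cast_nonneg _) (Nat.cast_nonneg _) hn (by exact_mod_cast s5) (by exact_mod_cast g3) s4

variable [DecidableEq α] {x y : α → ℝ} {P : Finset α} {A : ℕ → Finset α} {th : ℕ → ℝ} {N : ℕ}

/-- NET bound for the points that leave -/
theorem netY (h : Sw x y P A th N) (Z : Finset α) (F : Finset ℕ) (hF : F ⊆ range N) :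
    ((∑ j ∈ F, (Z ∩ (A j \ A (j + 1))).card : ℕ) : ℝ) ^ 4 ≤
      23 ^ 4 * Z.card * (P.card : ℝ) ^ 3 * F.card := by
  refine net_gen F Z (fun j => A j \ A (j + 1)) Prod.snd P.card (Nat.cast_nonneg _) fun g => ?_
  obtain ⟨Ed, I, C, ch, hS, h1, -, h3, h4, h5⟩ := chain h g
  have hN : ∀ j ∈ F, j < N := fun j hj => mem_range.mp (hF hj)
  refine ⟨Ed, fun j hj hg => (h3 j (hN j hj) ?_).2,
    fun j hj j' hj' => h4 j (hN j hj) j' (hN j' hj'), fun H hH hZ => ?_⟩
  · rwa [card_sdiff_comm (h.card j (hN j hj))]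
  · have hH' := hH.trans (biUnion_subset_biUnion_of_subset_left Ed hF)
    have := cube_bound hS (4 * (g * P.card) ^ 2) (by exact_mod_cast h5) H hH' P Z (by
      intro e he
      obtain ⟨j, j1, j2⟩ := mem_biUnion.mp (hH' he)
      have j1 := mem_range.mp j1
      exact ⟨h.sub _ j1 (mem_sdiff.mp (h1 j j1 e j2).1).1, hZ e he⟩)
    calc _ ≤ _ := this
      _ = _ := by ring

/-- NET bound for the points that enter -/
theorem netX (h : Sw x y P A th N) (Z : Finset α) (F : Finset ℕ) (hF : F ⊆ range N) :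
    ((∑ j ∈ F, (Z ∩ (A (j + 1) \ A j)).card : ℕ) : ℝ) ^ 4 ≤
      23 ^ 4 * Z.card * (P.card : ℝ) ^ 3 * F.card := by
  refine net_gen F Z (fun j => A (j + 1) \ A j) Prod.fst P.card (Nat.cast_nonneg _) fun g => ?_
  obtain ⟨Ed, I, C, ch, hS, h1, -, h3, h4, h5⟩ := chain h g
  have hN : ∀ j ∈ F, j < N := fun j hj => mem_range.mp (hF hj)
  refine ⟨Ed, fun j hj hg => (h3 j (hN j hj) hg).1,
    fun j hj j' hj' => h4 j (hN j hj) j' (hN j' hj'), fun H hH hZ => ?_⟩
  have hH' := hH.trans (biUnion_subset_biUnion_of_subset_left Ed hF)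
  have := cube_bound hS (4 * (g * P.card) ^ 2) (by exact_mod_cast h5) H hH' Z P (by
    intro e he
    obtain ⟨j, j1, j2⟩ := mem_biUnion.mp (hH' he)
    have j1 := mem_range.mp j1
    exact ⟨hZ e he, h.sub _ j1.le (mem_sdiff.mp (h1 j j1 e j2).2).1⟩)
  calc _ ≤ _ := this
    _ = _ := by ring

end Pool.Agent.P.MP_77a832_co.KS
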