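import Pool.Agent.P.MP_77a832_co.KS.ANet
import Pool.Agent.P.MP_77a832_co.KS.ZDefs

set_option autoImplicit false

namespace Pool.Agent.P.MP_77a832_co.KS

open scoped Classical

theorem netz : S_NETZ := by
  intro α x y P A th N h Z F _ hF
  have h1 := netY h Z F hF
  have h2 := netX h Z F hF
  push_cast at h1 h2
  exact ⟨h1, h2⟩

end Pool.Agent.P.MP_77a832_co.KS
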