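import Pool.Agent.P.MP_77a832_co.KS.ADefs

set_option autoImplicit false

open Finset

namespace Pool.Agent.P.MP_77a832_co.KS

variable {α : Type*} {ι : Type*}

lemma btw_comm (I : Finset ι) (C : ι → ℝ → ℝ) (t u v : ℝ) : btw I C t u v = btw I C t v u := by
  unfold btw; simp only [min_comm u v, max_comm u v]

lemma btw_tri (I : Finset ι) (C : ι → ℝ → ℝ) (t u v w : ℝ) :
    btw I C t u w ≤ btw I C t u v + btw I C t v w := by
  classical
  unfold btw
  refine le_trans (card_le_card ?_) (card_union_le _ _)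
  intro i hi
  simp only [mem_filter, mem_union, min_le_iff, le_max_iff] at hi ⊢
  obtain ⟨hi, h1, h2⟩ := hi
  rcases le_total (C i t) v with h | h <;> rcases le_total (C i t) u with h' | h' <;>
    rcases le_total (C i t) w with h'' | h'' <;> rcases h1 with h1 | h1 <;>
    rcases h2 with h2 | h2 <;> simp [*]

/-- two edges with a common point `(s, ln e s)` and a common abscissa `t` -/
lemma sand (x y : α → ℝ) (I : Finset ι) (C : ι → ℝ → ℝ) (e e' : α × α) (s t : ℝ)
    (h1 : x e.1 ≤ s) (h2 : s ≤ x e.2) (h3 : x e'.1 ≤ s) (h4 : s ≤ x e'.2)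
    (h5 : x e.1 ≤ t) (h6 : t ≤ x e.2) (h7 : x e'.1 ≤ t) (h8 : t ≤ x e'.2)
    (hs : ln x y e s = ln x y e' s) :
    btw I C t (ln x y e t) (ln x y e' t) ≤ cr x y I C e + cr x y I C e' := by
  classical
  unfold btw cr
  refine le_trans (card_le_card ?_) (card_union_le _ _)
  intro i hi
  simp only [mem_filter, mem_union, min_le_iff, le_max_iff] at hi ⊢
  obtain ⟨hi, ha, hb⟩ := hi
  rcases le_total (C i s) (ln x y e s) with h | h
  · rcases ha with ha | ha
    · exact Or.inl ⟨hi, ⟨s, h1, h2, h⟩, ⟨t, h5, h6, ha⟩⟩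
    · exact Or.inr ⟨hi, ⟨s, h3, h4, hs ▸ h⟩, ⟨t, h7, h8, ha⟩⟩
  · rcases hb with hb | hb
    · exact Or.inl ⟨hi, ⟨t, h5, h6, hb⟩, ⟨s, h1, h2, h⟩⟩
    · exact Or.inr ⟨hi, ⟨t, h7, h8, hb⟩, ⟨s, h3, h4, hs ▸ h⟩⟩

/-- common right end -/
lemma sand_right (x y : α → ℝ) (I : Finset ι) (C : ι → ℝ → ℝ) (p p' q : α) (t : ℝ)
    (h : x p < x q) (h' : x p' < x q) (h1 : x p ≤ t) (h2 : x p' ≤ t) (h3 : t ≤ x q) :
    btw I C t (ln x y (p, q) t) (ln x y (p', q) t) ≤ cr x y I C (p, q) + cr x y I C (p', q) :=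
  sand x y I C (p, q) (p', q) (x q) t h.le le_rfl h'.le le_rfl h1 h3 h2 h3
    ((ln_right x y (p, q) h).trans (ln_right x y (p', q) h').symm)

/-- common left end -/
lemma sand_left (x y : α → ℝ) (I : Finset ι) (C : ι → ℝ → ℝ) (p q q' : α) (t : ℝ)
    (h : x p < x q) (h' : x p < x q') (h1 : x p ≤ t) (h2 : t ≤ x q) (h3 : t ≤ x q') :
    btw I C t (ln x y (p, q) t) (ln x y (p, q') t) ≤ cr x y I C (p, q) + cr x y I C (p, q') :=
  sand x y I C (p, q) (p, q') (x p) t le_rfl h.le le_rfl h'.le h1 h2 h1 h3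
    ((ln_left x y (p, q)).trans (ln_left x y (p, q')).symm)

lemma rank_aux (I : Finset ι) (C : ι → ℝ → ℝ) (G : Finset ι) (hG : G ⊆ I) (t u R : ℝ)
    (hR : 0 ≤ R) (h : ∀ i ∈ G, (btw I C t u (C i t) : ℝ) ≤ R) : (G.card : ℝ) ≤ 2 * R := by
  classical
  have hup : ((G.filter fun i => u ≤ C i t).card : ℝ) ≤ R := by
    rcases (G.filter fun i => u ≤ C i t).eq_empty_or_nonempty with h0 | h0
    · simp [h0, hR]
    obtain ⟨i, hi, hm⟩ := exists_max_image _ (fun i => C i t) h0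
    refine le_trans ?_ (h i (mem_filter.mp hi).1)
    unfold btw
    refine Nat.cast_le.mpr (card_le_card fun j hj => ?_)
    have hj' := mem_filter.mp hj
    exact mem_filter.mpr ⟨hG hj'.1, min_le_of_left_le hj'.2, le_max_of_le_right (hm j hj)⟩
  have hdn : ((G.filter fun i => ¬ u ≤ C i t).card : ℝ) ≤ R := by
    rcases (G.filter fun i => ¬ u ≤ C i t).eq_empty_or_nonempty with h0 | h0
    · simp only [h0, card_empty, Nat.cast_zero, hR]
    obtain ⟨i, hi, hm⟩ := exists_min_image _ (fun i => C i t) h0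
    refine le_trans ?_ (h i (mem_filter.mp hi).1)
    unfold btw
    refine Nat.cast_le.mpr (card_le_card fun j hj => ?_)
    have hj' := mem_filter.mp hj
    exact mem_filter.mpr ⟨hG hj'.1, min_le_of_right_le (hm j hj),
      le_max_of_le_left (not_le.mp hj'.2).le⟩
  have := card_filter_add_card_filter_not (s := G) (fun i => u ≤ C i t)
  have h2 : (G.card : ℝ) = ((G.filter fun i => u ≤ C i t).card : ℝ) +
      ((G.filter fun i => ¬ u ≤ C i t).card : ℝ) := by exact_mod_cast this.symm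
  linarith

lemma rank_inj {x y : α → ℝ} {E : Finset (α × α)} {I : Finset ι} {C : ι → ℝ → ℝ}
    {ch : α × α → ι} (hS : Sys x y E I C ch) (t u R : ℝ) (hR : 0 ≤ R)
    (hsp : ∀ e ∈ E, x e.1 ≤ t ∧ t ≤ x e.2) (hinj : Set.InjOn ch E)
    (h : ∀ e ∈ E, (btw I C t u (ln x y e t) : ℝ) ≤ R) : (E.card : ℝ) ≤ 2 * R := by
  classical
  rw [← card_image_of_injOn hinj]
  refine rank_aux I C _ ?_ t u R hR ?_
  · intro i hi
    obtain ⟨e, he, rfl⟩ := mem_image.mp hi
    exact hS.mem e he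
  · intro i hi
    obtain ⟨e, he, rfl⟩ := mem_image.mp hi
    rw [hS.eq e he t (hsp e he).1 (hsp e he).2]
    exact h e he

/-- RANK, spans `[x p, x q)` -/
lemma rank_left {x y : α → ℝ} {E : Finset (α × α)} {I : Finset ι} {C : ι → ℝ → ℝ}
    {ch : α × α → ι} (hS : Sys x y E I C ch) (t u R : ℝ) (hR : 0 ≤ R)
    (hsp : ∀ e ∈ E, x e.1 ≤ t ∧ t < x e.2)
    (h : ∀ e ∈ E, (btw I C t u (ln x y e t) : ℝ) ≤ R) : (E.card : ℝ) ≤ 2 * R := by
  refine rank_inj hS t u R hR (fun e he => ⟨(hsp e he).1, (hsp e he).2.le⟩) ?_ h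
  intro e he e' he' hc
  rcases hS.disj e he e' he' hc with h0 | h0 | h0
  · exact h0
  · linarith [(hsp e he).2, (hsp e' he').1]
  · linarith [(hsp e he).1, (hsp e' he').2]

/-- RANK, spans `(x p, x q]` -/
lemma rank_right {x y : α → ℝ} {E : Finset (α × α)} {I : Finset ι} {C : ι → ℝ → ℝ}
    {ch : α × α → ι} (hS : Sys x y E I C ch) (t u R : ℝ) (hR : 0 ≤ R)
    (hsp : ∀ e ∈ E, x e.1 < t ∧ t ≤ x e.2)
    (h : ∀ e ∈ E, (btw I C t u (ln x y e t) : ℝ) ≤ R) : (E.card : ℝ) ≤ 2 * R := by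
  refine rank_inj hS t u R hR (fun e he => ⟨(hsp e he).1.le, (hsp e he).2⟩) ?_ h
  intro e he e' he' hc
  rcases hS.disj e he e' he' hc with h0 | h0 | h0
  · exact h0
  · linarith [(hsp e he).2, (hsp e' he').1]
  · linarith [(hsp e he).1, (hsp e' he').2]

open Classical in
/-- each point is near at most `2R` edges -/
lemma near_pt {x y : α → ℝ} {E : Finset (α × α)} {I : Finset ι} {C : ι → ℝ → ℝ}
    {ch : α × α → ι} (hS : Sys x y E I C ch) (R : ℝ) (hR : 0 ≤ R) (v : α) :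
    ((E.filter fun e => near x y I C R e v).card : ℝ) ≤ 2 * R := by
  refine rank_left (hS.mono (filter_subset _ _)) (x v) (y v) R hR ?_ ?_
  · intro e he
    have := (mem_filter.mp he).2
    exact ⟨this.1, this.2.1⟩
  · intro e he
    exact (mem_filter.mp he).2.2.2

open Classical in
/-- NEAR: total size of the near sets -/
lemma near_sum {x y : α → ℝ} {E : Finset (α × α)} {I : Finset ι} {C : ι → ℝ → ℝ}
    {ch : α × α → ι} (hS : Sys x y E I C ch) (R : ℝ) (hR : 0 ≤ R) (P : Finset α) :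
    ∑ e ∈ E, ((P.filter fun v => near x y I C R e v).card : ℝ) ≤ 2 * R * P.card := by
  have h1 : ∑ e ∈ E, ((P.filter fun v => near x y I C R e v).card : ℝ) =
      ∑ v ∈ P, ((E.filter fun e => near x y I C R e v).card : ℝ) := by
    simp only [card_filter, Nat.cast_sum]
    exact sum_comm
  rw [h1]
  calc _ ≤ ∑ _v ∈ P, 2 * R := sum_le_sum fun v _ => near_pt hS R hR v
    _ = _ := by simp [mul_comm]

/-- two left ends with a common right neighbour: the right one is near any longer edge at the left one -/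
lemma near_tri (x y : α → ℝ) (I : Finset ι) (C : ι → ℝ → ℝ) (M : ℝ) (p p' q q' : α)
    (h' : x p' < x q) (hp : x p ≤ x p') (hq : x q ≤ x q')
    (c1 : (cr x y I C (p, q) : ℝ) ≤ M) (c2 : (cr x y I C (p', q) : ℝ) ≤ M)
    (c3 : (cr x y I C (p, q') : ℝ) ≤ M) : near x y I C (4 * M) (p, q') p' := by
  refine ⟨hp, lt_of_lt_of_le h' hq, ?_⟩
  have h : x p < x q := lt_of_le_of_lt hp h'
  have a1 := sand_right x y I C p' p q (x p') h' h le_rfl hp h'.le
  have a2 := sand_left x y I C p q q' (x p') h (lt_of_lt_of_le h hq) hp h'.le (h'.le.trans hq)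
  have a3 := btw_tri I C (x p') (ln x y (p', q) (x p')) (ln x y (p, q) (x p'))
    (ln x y (p, q') (x p'))
  have a4 : ln x y (p', q) (x p') = y p' := ln_left x y (p', q)
  rw [a4] at a1 a3
  have a5 : (btw I C (x p') (y p') (ln x y (p, q') (x p')) : ℝ) ≤
      (cr x y I C (p', q) + cr x y I C (p, q) : ℝ) + (cr x y I C (p, q) + cr x y I C (p, q') : ℝ) := by
    exact_mod_cast a3.trans (add_le_add a1 a2)
  linarith

end Pool.Agent.P.MP_77a832_co.KS
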