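import Pool.Agent.P.MP_77a832_co.KS.AMeet

set_option autoImplicit false

open Finset

namespace Pool.Agent.P.MP_77a832_co.KS

variable {α : Type*} [DecidableEq α]

/-- position of the token `τ` of colour `c` at time `j` -/
def pos (m : ℕ → ℕ → α → α) (c : ℕ) (τ : α) : ℕ → α
  | 0 => τ
  | j + 1 => m j c (pos m c τ j)

/-- the matchings of all steps -/
structure Mt (A : ℕ → Finset α) (N : ℕ) (m : ℕ → ℕ → α → α) : Prop where
  inv : ∀ j, j < N → ∀ c p, m j c (m j c p) = p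
  mX : ∀ j, j < N → ∀ c, ∀ p ∈ A (j + 1) \ A j, m j c p ∈ A j \ A (j + 1)
  mY : ∀ j, j < N → ∀ c, ∀ q ∈ A j \ A (j + 1), m j c q ∈ A (j + 1) \ A j
  fix : ∀ j, j < N → ∀ c p, p ∉ A (j + 1) \ A j → p ∉ A j \ A (j + 1) → m j c p = p
  inj : ∀ j, j < N → ∀ c, c < (A (j + 1) \ A j).card → ∀ c', c' < (A (j + 1) \ A j).card →
    ∀ p ∈ A (j + 1) \ A j, m j c p = m j c' p → c = c'

variable {x y : α → ℝ} {P : Finset α} {A : ℕ → Finset α} {th : ℕ → ℝ} {N : ℕ}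
  {m : ℕ → ℕ → α → α}

lemma exists_Mt (h : Sw x y P A th N) : ∃ m, Mt A N m := by
  have : ∀ j, ∃ mj : ℕ → α → α, j < N → ((∀ c p, mj c (mj c p) = p) ∧
      (∀ c, ∀ p ∈ A (j + 1) \ A j, mj c p ∈ A j \ A (j + 1)) ∧
      (∀ c, ∀ q ∈ A j \ A (j + 1), mj c q ∈ A (j + 1) \ A j) ∧
      (∀ c p, p ∉ A (j + 1) \ A j → p ∉ A j \ A (j + 1) → mj c p = p) ∧
      (∀ c, c < (A (j + 1) \ A j).card → ∀ c', c' < (A (j + 1) \ A j).card →
        ∀ p ∈ A (j + 1) \ A j, mj c p = mj c' p → c = c')) := by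
    intro j
    by_cases hj : j < N
    · obtain ⟨mj, hm⟩ := matching (A (j + 1) \ A j) (A j \ A (j + 1)) disjoint_sdiff_sdiff
        (card_sdiff_comm (h.card j hj))
      exact ⟨mj, fun _ => hm⟩
    · exact ⟨fun _ p => p, fun h => absurd h hj⟩
  choose m hm using this
  exact ⟨m, fun j hj => (hm j hj).1, fun j hj => (hm j hj).2.1, fun j hj => (hm j hj).2.2.1,
    fun j hj => (hm j hj).2.2.2.1, fun j hj => (hm j hj).2.2.2.2⟩

lemma Sw.th_le (h : Sw x y P A th N) {j j' : ℕ} (hj : j ≤ j') (hN : j' ≤ N) : th j ≤ th j' := by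
  induction j', hj using Nat.le_induction with
  | base => exact le_rfl
  | succ k hk ih => exact (ih (by omega)).trans (h.mono k (by omega))

lemma Mt.mem (hm : Mt A N m) (h : Sw x y P A th N) {j : ℕ} (hj : j < N) (c : ℕ) {p : α}
    (hp : p ∈ P) : m j c p ∈ P := by
  by_cases h1 : p ∈ A (j + 1) \ A j
  · exact h.sub j hj.le (mem_sdiff.mp (hm.mX j hj c p h1)).1
  by_cases h2 : p ∈ A j \ A (j + 1)
  · exact h.sub (j + 1) hj (mem_sdiff.mp (hm.mY j hj c p h2)).1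
  · rwa [hm.fix j hj c p h1 h2]

lemma Mt.surj (hm : Mt A N m) (h : Sw x y P A th N) (c : ℕ) {j : ℕ} (hj : j ≤ N) {p : α}
    (hp : p ∈ P) : ∃ τ ∈ P, pos m c τ j = p := by
  induction j generalizing p with
  | zero => exact ⟨p, hp, rfl⟩
  | succ k ih =>
    obtain ⟨τ, h1, h2⟩ := ih (by omega) (hm.mem h (j := k) (by omega) c hp)
    exact ⟨τ, h1, by rw [pos, h2, hm.inv k (by omega)]⟩

lemma Mt.below (hm : Mt A N m) (h : Sw x y P A th N) (c : ℕ) (τ : α) {j j' : ℕ} (hj : j ≤ j')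
    (hN : j' ≤ N) (h0 : pos m c τ j ∉ A j) :
    pos m c τ j' ∉ A j' ∧ x (pos m c τ j) ≤ x (pos m c τ j') ∧
      th j * (x (pos m c τ j') - x (pos m c τ j)) ≤ y (pos m c τ j') - y (pos m c τ j) ∧
      y (pos m c τ j') - y (pos m c τ j) ≤ th j' * (x (pos m c τ j') - x (pos m c τ j)) := by
  induction j', hj using Nat.le_induction with
  | base => simp [h0]
  | succ k hk ih =>
    obtain ⟨i1, i2, i3, i4⟩ := ih (by omega)
    have hk' : k < N := by omega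
    have t1 := h.th_le hk hk'.le
    have t2 := h.mono k hk'
    rw [pos]
    set u := pos m c τ j
    set v := pos m c τ k
    by_cases h1 : v ∈ A (k + 1) \ A k
    · have h2 := hm.mX k hk' c v h1
      obtain ⟨s1, s2, s3⟩ := h.slope k hk' v h1 _ h2
      refine ⟨(mem_sdiff.mp h2).2, by linarith, ?_, ?_⟩
      · nlinarith [mul_le_mul_of_nonneg_right t1 (sub_nonneg.mpr s1.le)]
      · nlinarith [mul_le_mul_of_nonneg_right t2 (sub_nonneg.mpr i2)]
    · rw [hm.fix k hk' c v h1 (fun h2 => i1 (mem_sdiff.mp h2).1)]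
      refine ⟨fun h2 => h1 (mem_sdiff.mpr ⟨h2, i1⟩), i2, i3, ?_⟩
      nlinarith [mul_le_mul_of_nonneg_right t2 (sub_nonneg.mpr i2)]

lemma Mt.above (hm : Mt A N m) (h : Sw x y P A th N) (c : ℕ) (τ : α) {j j' : ℕ} (hj : j ≤ j')
    (hN : j' ≤ N) (h0 : pos m c τ j ∈ A j) :
    pos m c τ j' ∈ A j' ∧ x (pos m c τ j') ≤ x (pos m c τ j) ∧
      th j * (x (pos m c τ j) - x (pos m c τ j')) ≤ y (pos m c τ j) - y (pos m c τ j') ∧
      y (pos m c τ j) - y (pos m c τ j') ≤ th j' * (x (pos m c τ j) - x (pos m c τ j')) := by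
  induction j', hj using Nat.le_induction with
  | base => simp [h0]
  | succ k hk ih =>
    obtain ⟨i1, i2, i3, i4⟩ := ih (by omega)
    have hk' : k < N := by omega
    have t1 := h.th_le hk hk'.le
    have t2 := h.mono k hk'
    rw [pos]
    set u := pos m c τ j
    set v := pos m c τ k
    by_cases h1 : v ∈ A k \ A (k + 1)
    · have h2 := hm.mY k hk' c v h1
      obtain ⟨s1, s2, s3⟩ := h.slope k hk' _ h2 v h1
      refine ⟨(mem_sdiff.mp h2).1, by linarith, ?_, ?_⟩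
      · nlinarith [mul_le_mul_of_nonneg_right t1 (sub_nonneg.mpr s1.le)]
      · nlinarith [mul_le_mul_of_nonneg_right t2 (sub_nonneg.mpr i2)]
    · rw [hm.fix k hk' c v (fun h2 => (mem_sdiff.mp h2).2 i1) h1]
      refine ⟨by_contra fun h2 => h1 (mem_sdiff.mpr ⟨i1, h2⟩), i2, i3, ?_⟩
      nlinarith [mul_le_mul_of_nonneg_right t2 (sub_nonneg.mpr i2)]

lemma Sw.sl (h : Sw x y P A th N) {j : ℕ} (hj : j < N) {e : α × α} (h1 : e.1 ∈ A (j + 1) \ A j)
    (h2 : e.2 ∈ A j \ A (j + 1)) : x e.1 < x e.2 ∧ th j < sl x y e ∧ sl x y e < th (j + 1) := by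
  obtain ⟨s1, s2, s3⟩ := h.slope j hj _ h1 _ h2
  have := sub_pos.mpr s1
  exact ⟨s1, (lt_div_iff₀ this).mpr s2, (div_lt_iff₀ this).mpr s3⟩

/-- two edges of one token above the line are in concave position -/
lemma Mt.cc (hm : Mt A N m) (h : Sw x y P A th N) (c : ℕ) (τ : α) {j j' : ℕ} (hj : j < j')
    (hN : j' < N) {e e' : α × α} (h1 : e.1 ∈ A (j + 1) \ A j) (h2 : e.2 ∈ A j \ A (j + 1))
    (h3 : e'.1 ∈ A (j' + 1) \ A j') (h4 : e'.2 ∈ A j' \ A (j' + 1))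
    (p1 : pos m c τ (j + 1) = e.1) (p2 : pos m c τ j' = e'.2) : cc x y e e' := by
  obtain ⟨-, a1, a2, a3⟩ := hm.above h c τ (j := j + 1) hj hN.le (p1 ▸ (mem_sdiff.mp h1).1)
  rw [p1, p2] at a1 a2 a3
  obtain ⟨b1, -, b3⟩ := h.sl (hj.trans hN) h1 h2
  obtain ⟨c1, c2, -⟩ := h.sl hN h3 h4
  have t := h.th_le (j := j + 1) hj hN.le
  have d := sub_nonneg.mpr a1
  refine ⟨a1, by linarith, ?_, ?_⟩
  · rw [ln_right x y e' c1, ln_eq x y e (x e.1), ln_left]
    nlinarith [mul_le_mul_of_nonneg_right b3.le d]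
  · rw [ln_left, ln_eq x y e' (x e'.2), ln_right x y e' c1]
    nlinarith [mul_le_mul_of_nonneg_right c2.le d]

/-- two edges of one token below the line are in convex position -/
lemma Mt.vv (hm : Mt A N m) (h : Sw x y P A th N) (c : ℕ) (τ : α) {j j' : ℕ} (hj : j < j')
    (hN : j' < N) {e e' : α × α} (h1 : e.1 ∈ A (j + 1) \ A j) (h2 : e.2 ∈ A j \ A (j + 1))
    (h3 : e'.1 ∈ A (j' + 1) \ A j') (h4 : e'.2 ∈ A j' \ A (j' + 1))
    (p1 : pos m c τ (j + 1) = e.2) (p2 : pos m c τ j' = e'.1) :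
    x e.2 ≤ x e'.1 ∧ (∀ t, t ≤ x e.2 → ln x y e' t ≤ ln x y e t) ∧
      (∀ t, x e'.1 ≤ t → ln x y e t ≤ ln x y e' t) := by
  obtain ⟨-, a1, a2, a3⟩ := hm.below h c τ (j := j + 1) hj hN.le (p1 ▸ (mem_sdiff.mp h2).2)
  rw [p1, p2] at a1 a2 a3
  obtain ⟨b1, -, b3⟩ := h.sl (hj.trans hN) h1 h2
  obtain ⟨c1, c2, -⟩ := h.sl hN h3 h4
  have t0 := h.th_le (j := j + 1) hj hN.le
  have d := sub_nonneg.mpr a1
  have s : sl x y e ≤ sl x y e' := by linarith
  refine ⟨a1, fun t ht => ?_, fun t ht => ?_⟩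
  · rw [ln_eq x y e (x e.2), ln_right x y e b1, ln_eq x y e' (x e'.1), ln_left]
    nlinarith [mul_le_mul_of_nonneg_right c2.le d,
      mul_le_mul_of_nonneg_right s (sub_nonneg.mpr ht)]
  · rw [ln_eq x y e (x e.2), ln_right x y e b1, ln_eq x y e' (x e'.1), ln_left]
    nlinarith [mul_le_mul_of_nonneg_right b3.le d,
      mul_le_mul_of_nonneg_right s (sub_nonneg.mpr ht)]

end Pool.Agent.P.MP_77a832_co.KS
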