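import Mathlib

/-! Tail bounds for the visits of windows, from the star inequality. -/

set_option autoImplicit false

namespace Pool.Agent.P.MP_77a832_co.KS.Tails

open Finset

variable {α : Type}

/-- the visits of `p` in the window of height `e` and index `u` -/
def cell (S : α → Finset ℕ) (p : α) (e u : ℕ) : Finset ℕ := (S p).filter fun A => A / 16 ^ e = u

/-- the points that visit the window of height `e` and index `u` -/
def act (P : Finset α) (S : α → Finset ℕ) (e u : ℕ) : Finset α :=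
  P.filter fun p => (cell S p e u).Nonempty

/-- the two forms of the star inequality -/
structure Star (P : Finset α) (S : α → Finset ℕ) (J : ℕ) (A : ℝ) : Prop where
  one : 1 ≤ A
  lt : ∀ p ∈ P, ∀ B ∈ S p, B < 16 ^ J
  glob : ∀ e ≤ J, ∀ F ⊆ range (16 ^ (J - e)),
    (∑ u ∈ F, ((act P S e u).card : ℝ)) ^ 4 ≤ A ^ 4 * (P.card : ℝ) ^ 4 * F.card
  loc : ∀ e ≤ J, ∀ u < 16 ^ (J - e), ∀ Z ⊆ act P S e u,
    (∑ p ∈ Z, ((cell S p e u).card : ℝ)) ^ 4 ≤
      A ^ 4 * Z.card * ((act P S e u).card : ℝ) ^ 3 * 16 ^ e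

/-- a set of visits -/
def Vis (P : Finset α) (S : α → Finset ℕ) (Q : Finset (α × ℕ)) : Prop :=
  ∀ x ∈ Q, x.1 ∈ P ∧ x.2 ∈ S x.1

variable {P : Finset α} {S : α → Finset ℕ} {J e : ℕ} {A : ℝ} {Q : Finset (α × ℕ)}

theorem p16 (n : ℕ) : (16 : ℝ) ^ n = (2 ^ n) ^ 4 := by
  rw [← pow_mul, mul_comm, pow_mul]; norm_num

theorem le4 {a b : ℝ} (hb : 0 ≤ b) (h : a ^ 4 ≤ b ^ 4) : a ≤ b :=
  le_of_pow_le_pow_left₀ (by norm_num) hb h

theorem Star.idx (h : Star P S J A) (he : e ≤ J) {p : α} {B : ℕ} (hp : p ∈ P) (hB : B ∈ S p) :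
    B / 16 ^ e < 16 ^ (J - e) := by
  rw [Nat.div_lt_iff_lt_mul (by positivity), ← pow_add, Nat.sub_add_cancel he]
  exact h.lt p hp B hB

theorem Star.all (h : Star P S J A) (he : e ≤ J) :
    ∑ u ∈ range (16 ^ (J - e)), ((act P S e u).card : ℝ) ≤ A * P.card * 2 ^ (J - e) := by
  have := h.one
  refine le4 (by positivity) ((h.glob e he _ Subset.rfl).trans_eq ?_)
  rw [card_range]
  push_cast
  rw [p16]
  ring

theorem Star.ins (h : Star P S J A) (he : e ≤ J) {u : ℕ} (hu : u < 16 ^ (J - e)) :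
    ∑ p ∈ act P S e u, ((cell S p e u).card : ℝ) ≤ A * (act P S e u).card * 2 ^ e := by
  have := h.one
  refine le4 (by positivity) ((h.loc e he u hu _ Subset.rfl).trans_eq ?_)
  rw [p16]
  ring

/-- splitting a set of visits along the windows of height `e` -/
theorem split (hQ : Vis P S Q) (F : Finset ℕ) (hF : ∀ x ∈ Q, x.2 / 16 ^ e ∈ F) (c : α → ℕ → ℝ)
    (c0 : ∀ p u, 0 ≤ c p u)
    (hc : ∀ (p : α) (u : ℕ) (T : Finset ℕ), T.Nonempty → T ⊆ cell S p e u →
      (∀ B ∈ T, (p, B) ∈ Q) → (T.card : ℝ) ≤ c p u) :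
    (Q.card : ℝ) ≤ ∑ u ∈ F, ∑ p ∈ act P S e u, c p u := by
  classical
  rw [sum_sigma']
  have hm : ∀ x ∈ Q, (⟨x.2 / 16 ^ e, x.1⟩ : (_ : ℕ) × α) ∈ F.sigma fun u => act P S e u :=
    fun x hx => mem_sigma.2 ⟨hF x hx, mem_filter.2 ⟨(hQ x hx).1, x.2,
      mem_filter.2 ⟨(hQ x hx).2, rfl⟩⟩⟩
  rw [card_eq_sum_card_fiberwise hm]
  push_cast
  refine sum_le_sum fun y _ => ?_
  set G := Q.filter fun x => (⟨x.2 / 16 ^ e, x.1⟩ : (_ : ℕ) × α) = y with hG
  have h1 : ∀ x ∈ G, x ∈ Q ∧ x.2 / 16 ^ e = y.1 ∧ x.1 = y.2 := fun x hx => by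
    obtain ⟨a, rfl⟩ := mem_filter.1 hx
    exact ⟨a, rfl, rfl⟩
  have inj : Set.InjOn Prod.snd (G : Set (α × ℕ)) := fun x hx x' hx' k =>
    Prod.ext ((h1 x hx).2.2.trans (h1 x' hx').2.2.symm) k
  rw [← card_image_of_injOn inj]
  rcases (G.image Prod.snd).eq_empty_or_nonempty with k | k
  · rw [k]; simpa using c0 _ _
  refine hc _ _ _ k (fun B hB => ?_) fun B hB => ?_
  · obtain ⟨x, hx, rfl⟩ := mem_image.1 hB
    exact mem_filter.2 ⟨(h1 x hx).2.2 ▸ (hQ x (h1 x hx).1).2, (h1 x hx).2.1⟩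
  · obtain ⟨x, hx, rfl⟩ := mem_image.1 hB
    rw [← (h1 x hx).2.2]
    exact (h1 x hx).1

/-- at most `c` visits in each pair of a point and a window -/
theorem Star.flat (h : Star P S J A) (he : e ≤ J) (hQ : Vis P S Q) {c : ℝ} (c0 : 0 ≤ c)
    (hc : ∀ (p : α) (u : ℕ) (T : Finset ℕ), T.Nonempty → T ⊆ cell S p e u →
      (∀ B ∈ T, (p, B) ∈ Q) → (T.card : ℝ) ≤ c * 2 ^ e) :
    (Q.card : ℝ) ≤ c * (A * P.card * 2 ^ J) := by
  refine (split hQ _ (fun x hx => mem_range.2 (h.idx he (hQ x hx).1 (hQ x hx).2))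
    (fun _ _ => c * 2 ^ e) (fun _ _ => by positivity) hc).trans ?_
  simp only [sum_const, nsmul_eq_mul]
  rw [← sum_mul]
  refine (mul_le_mul_of_nonneg_right (h.all he) (by positivity)).trans_eq ?_
  rw [show (2 : ℝ) ^ J = 2 ^ (J - e) * 2 ^ e by rw [← pow_add, Nat.sub_add_cancel he]]
  ring

/-- few visits -/
theorem Star.lo (h : Star P S J A) (he : e ≤ J) (hQ : Vis P S Q) {D : ℝ} (hD : 0 < D)
    (hc : ∀ x ∈ Q, D * (cell S x.1 e (x.2 / 16 ^ e)).card ≤ 2 ^ e) :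
    (Q.card : ℝ) ≤ A * P.card * 2 ^ J / D := by
  refine (h.flat he hQ (c := 1 / D) (by positivity) fun p u T ⟨B, hB⟩ k1 k2 => ?_).trans_eq
    (by ring)
  have a1 := hc _ (k2 B hB)
  rw [(mem_filter.1 (k1 hB)).2] at a1
  rw [one_div_mul_eq_div, le_div_iff₀' hD]
  exact (mul_le_mul_of_nonneg_left (by exact_mod_cast card_le_card k1) hD.le).trans a1

theorem rank_le {C T : Finset ℕ} {r : ℕ → ℕ → Prop} [DecidableRel r] [IsStrictTotalOrder ℕ r]
    (hT : T ⊆ C) {b : ℝ} (b0 : 0 ≤ b)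
    (h : ∀ B ∈ T, ((C.filter fun x => r x B).card : ℝ) < b) : (T.card : ℝ) ≤ b + 1 := by
  have key : ∀ x ∈ T, ∀ y, r x y →
      (C.filter fun z => r z x).card < (C.filter fun z => r z y).card := fun x hx y k =>
    card_lt_card ⟨fun z hz => mem_filter.2 ⟨(mem_filter.1 hz).1, _root_.trans (mem_filter.1 hz).2 k⟩,
      fun k' => irrefl x (mem_filter.1 (k' (mem_filter.2 ⟨hT hx, k⟩))).2⟩
  have : T.card ≤ (range ⌈b⌉₊).card := card_le_card_of_injOn
    (fun B => (C.filter fun x => r x B).card)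
    (fun B hB => mem_coe.2 (mem_range.2 (Nat.lt_ceil.2 (h B hB)))) fun x hx y hy k => by
      rcases trichotomous_of r x y with a | a | a
      exacts [absurd k (key x hx y a).ne, a, absurd k (key y hy x a).ne']
  rw [card_range] at this
  exact (Nat.cast_le.2 this).trans (Nat.ceil_lt_add_one b0).le

/-- few visits before or after -/
theorem Star.bd (h : Star P S J A) (he : e ≤ J) (hQ : Vis P S Q) {b : ℝ} (b0 : 0 ≤ b)
    (hc : ∀ x ∈ Q,
      (((cell S x.1 e (x.2 / 16 ^ e)).filter fun B => B < x.2).card : ℝ) < b * 2 ^ e ∨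
      (((cell S x.1 e (x.2 / 16 ^ e)).filter fun B => x.2 < B).card : ℝ) < b * 2 ^ e) :
    (Q.card : ℝ) ≤ 2 * (b + 1 / 2 ^ e) * (A * P.card * 2 ^ J) := by
  classical
  refine h.flat he hQ (by positivity) fun p u T _ k1 k2 => ?_
  set g := fun y : ℕ => (((cell S p e u).filter fun B => B < y).card : ℝ) < b * 2 ^ e
  have a1 := rank_le (r := (· < ·)) ((filter_subset g T).trans k1) (b := b * 2 ^ e)
    (by positivity) fun B hB => (mem_filter.1 hB).2
  have a2 := rank_le (r := (· > ·)) ((filter_subset (fun y => ¬ g y) T).trans k1) (b := b * 2 ^ e)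
    (by positivity) fun B hB => by
      have b1 := hc _ (k2 B (mem_filter.1 hB).1)
      rw [(mem_filter.1 (k1 (mem_filter.1 hB).1)).2] at b1
      exact b1.resolve_left (mem_filter.1 hB).2
  have a3 : ((T.filter g).card : ℝ) + (T.filter fun y => ¬ g y).card = T.card := by
    exact_mod_cast card_filter_add_card_filter_not g
  have a4 : 2 * (b + 1 / 2 ^ e) * 2 ^ e = 2 * (b * 2 ^ e + 1) := by field_simp
  linarith

/-- many visits -/
theorem Star.up (h : Star P S J A) (he : e ≤ J) (hQ : Vis P S Q) {z : ℝ} (hz : 0 < z)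
    (hc : ∀ x ∈ Q, z ^ 4 * 2 ^ e ≤ (cell S x.1 e (x.2 / 16 ^ e)).card) :
    (Q.card : ℝ) ≤ A ^ 3 * P.card * 2 ^ J / z := by
  classical
  have A1 := h.one
  refine (split hQ _ (fun x hx => mem_range.2 (h.idx he (hQ x hx).1 (hQ x hx).2))
    (fun p u => if z ^ 4 * 2 ^ e ≤ (cell S p e u).card then (cell S p e u).card else 0)
    (fun _ _ => by positivity) fun p u T ⟨B, hB⟩ k1 k2 => ?_).trans ?_
  · have a1 := hc _ (k2 B hB)
    rw [(mem_filter.1 (k1 hB)).2] at a1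
    rw [if_pos a1]
    exact_mod_cast card_le_card k1
  have key : ∀ u ∈ range (16 ^ (J - e)), ∑ p ∈ act P S e u,
      (if z ^ 4 * 2 ^ e ≤ (cell S p e u).card then ((cell S p e u).card : ℝ) else 0) ≤
      (act P S e u).card * (A ^ 2 * 2 ^ e / z) := fun u hu => by
    rw [← sum_filter]
    set Z := (act P S e u).filter fun p => z ^ 4 * 2 ^ e ≤ (cell S p e u).card
    have a1 : (Z.card : ℝ) * (z ^ 4 * 2 ^ e) ≤ A * (act P S e u).card * 2 ^ e := by
      rw [← nsmul_eq_mul, ← sum_const]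
      exact ((sum_le_sum fun p hp => (mem_filter.1 hp).2).trans
        (sum_le_sum_of_subset_of_nonneg (filter_subset _ _) fun _ _ _ => by positivity)).trans
        (h.ins he (mem_range.1 hu))
    rw [← mul_assoc, mul_le_mul_iff_left₀ (by positivity), ← le_div_iff₀ (by positivity)] at a1
    refine le4 (by positivity) ((h.loc e he u (mem_range.1 hu) Z (filter_subset _ _)).trans ?_)
    have a2 : A ≤ A ^ 4 := le_self_pow₀ A1 (by norm_num)
    calc _ ≤ A ^ 4 * (A ^ 4 * (act P S e u).card / z ^ 4) * ((act P S e u).card : ℝ) ^ 3 *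
          16 ^ e := by
          gcongr
          exact a1.trans (by gcongr)
      _ = _ := by rw [p16]; field_simp
  refine (sum_le_sum key).trans ?_
  rw [← sum_mul]
  refine (mul_le_mul_of_nonneg_right (h.all he) (by positivity)).trans_eq ?_
  rw [show (2 : ℝ) ^ J = 2 ^ (J - e) * 2 ^ e by rw [← pow_add, Nat.sub_add_cancel he]]
  ring

/-- visits inside a family of few windows -/
theorem Star.sp (h : Star P S J A) (he : e ≤ J) (hQ : Vis P S Q) {z : ℝ} (hz : 0 < z)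
    (F : Finset ℕ) (hF : z ^ 4 * F.card ≤ 16 ^ (J - e)) (hc : ∀ x ∈ Q, x.2 / 16 ^ e ∈ F) :
    (Q.card : ℝ) ≤ A ^ 2 * P.card * 2 ^ J / z := by
  have A1 := h.one
  refine (split hQ (F ∩ range (16 ^ (J - e))) (fun x hx => mem_inter.2 ⟨hc x hx,
    mem_range.2 (h.idx he (hQ x hx).1 (hQ x hx).2)⟩) (fun p u => (cell S p e u).card)
    (fun _ _ => by positivity) fun p u T _ k1 _ => by exact_mod_cast card_le_card k1).trans ?_
  refine (sum_le_sum fun u hu => h.ins he (mem_range.1 (mem_inter.1 hu).2)).trans ?_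
  have a1 : ∑ u ∈ F ∩ range (16 ^ (J - e)), ((act P S e u).card : ℝ) ≤
      A * P.card * 2 ^ (J - e) / z := by
    refine le4 (by positivity) ((h.glob e he _ inter_subset_right).trans ?_)
    rw [← le_div_iff₀' (by positivity), p16] at hF
    calc _ ≤ A ^ 4 * (P.card : ℝ) ^ 4 * ((2 ^ (J - e)) ^ 4 / z ^ 4) := by
          gcongr
          exact le_trans (by exact_mod_cast card_le_card inter_subset_left) hF
      _ = _ := by ring
  rw [← sum_mul, ← mul_sum]
  refine (mul_le_mul_of_nonneg_right (mul_le_mul_of_nonneg_left a1 (by positivity))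
    (by positivity)).trans_eq ?_
  rw [show (2 : ℝ) ^ J = 2 ^ (J - e) * 2 ^ e by rw [← pow_add, Nat.sub_add_cancel he]]
  ring

/-- pairs of a point and a window of height `e` that holds a heavy window of height `k` -/
theorem Star.heavy (h : Star P S J A) {k : ℕ} (hk : k ≤ J) {z c : ℝ} (hz : 0 < z)
    (hc : z ^ 4 * 2 ^ k ≤ c) (R : Finset (α × ℕ)) (hR : ∀ y ∈ R, y.1 ∈ P ∧
      ∃ v, c ≤ ((cell S y.1 e y.2).filter fun B => B / 16 ^ k = v).card) :
    (R.card : ℝ) * c ≤ A ^ 3 * P.card * 2 ^ J / z := by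
  classical
  choose! v hv using fun y hy => (hR y hy).2
  set G := fun y : α × ℕ =>
    ((cell S y.1 e y.2).filter fun B => B / 16 ^ k = v y).image fun B => (y.1, B) with hG
  have a0 : ∀ y x, x ∈ G y → x.1 = y.1 ∧ x.2 ∈ S y.1 ∧ x.2 / 16 ^ e = y.2 ∧ x.2 / 16 ^ k = v y :=
    fun y x hx => by
      obtain ⟨B, hB, rfl⟩ := mem_image.1 hx
      simp only [cell, mem_filter] at hB
      exact ⟨rfl, hB.1.1, hB.1.2, hB.2⟩
  refine le_trans ?_ (h.up hk (Q := R.biUnion G) (fun x hx => ?_) hz fun x hx => ?_)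
  · rw [card_biUnion fun y _ y' _ hn => disjoint_left.2 fun x a b => hn (Prod.ext
      ((a0 y x a).1.symm.trans (a0 y' x b).1) ((a0 y x a).2.2.1.symm.trans (a0 y' x b).2.2.1)),
      ← nsmul_eq_mul, ← sum_const]
    push_cast
    refine sum_le_sum fun y hy => (hv y hy).trans_eq ?_
    rw [card_image_of_injective _ fun a b k => (Prod.ext_iff.1 k).2]
  · obtain ⟨y, hy, a⟩ := mem_biUnion.1 hx
    rw [(a0 y x a).1]
    exact ⟨(hR y hy).1, (a0 y x a).2.1⟩
  · obtain ⟨y, hy, a⟩ := mem_biUnion.1 hx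
    rw [(a0 y x a).1, (a0 y x a).2.2.2]
    refine hc.trans ((hv y hy).trans ?_)
    exact_mod_cast card_le_card (filter_subset_filter _ (filter_subset _ _))

/-- not many visits, but a heavy window of height `k` inside -/
theorem Star.atom (h : Star P S J A) {k : ℕ} (hk : k ≤ J) (hQ : Vis P S Q) {z a D : ℝ}
    (hz : 0 < z) (hD : 0 ≤ D) (ha : z ^ 4 * 2 ^ k ≤ a * 2 ^ e)
    (hc : ∀ x ∈ Q, ((cell S x.1 e (x.2 / 16 ^ e)).card : ℝ) ≤ D * 2 ^ e ∧ ∃ v, a * 2 ^ e ≤
      ((cell S x.1 e (x.2 / 16 ^ e)).filter fun B => B / 16 ^ k = v).card) :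
    (Q.card : ℝ) ≤ A ^ 3 * D * P.card * 2 ^ J / (z * a) := by
  classical
  have a0 : 0 < a := (mul_pos_iff_of_pos_right (by positivity)).1 (lt_of_lt_of_le (by positivity) ha)
  set R := Q.image fun x => (x.1, x.2 / 16 ^ e)
  have a1 := h.heavy (e := e) hk hz ha R fun y hy => by
    obtain ⟨x, hx, rfl⟩ := mem_image.1 hy
    exact ⟨(hQ x hx).1, (hc x hx).2⟩
  have a2 : (Q.card : ℝ) ≤ R.card * (D * 2 ^ e) := by
    rw [card_eq_sum_card_image (fun x : α × ℕ => (x.1, x.2 / 16 ^ e)), ← nsmul_eq_mul,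
      ← sum_const]
    push_cast
    refine sum_le_sum fun y hy => ?_
    obtain ⟨x, hx, rfl⟩ := mem_image.1 hy
    refine le_trans ?_ (hc x hx).1
    refine Nat.cast_le.2 (card_le_card_of_injOn Prod.snd (fun x' hx' => ?_) fun a ha b hb k => ?_)
    · obtain ⟨b1, b2⟩ := mem_filter.1 (mem_coe.1 hx')
      obtain ⟨b3, b4⟩ := Prod.ext_iff.1 b2
      exact mem_coe.2 (mem_filter.2 ⟨(show x'.1 = x.1 from b3) ▸ (hQ x' b1).2, b4⟩)
    · exact Prod.ext ((Prod.ext_iff.1 (mem_filter.1 (mem_coe.1 ha)).2).1.trans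
        (Prod.ext_iff.1 (mem_filter.1 (mem_coe.1 hb)).2).1.symm) k
  rw [le_div_iff₀ hz] at a1
  rw [le_div_iff₀ (by positivity)]
  calc _ ≤ R.card * (D * 2 ^ e) * (z * a) := by gcongr
    _ = D * (R.card * (a * 2 ^ e) * z) := by ring
    _ ≤ D * (A ^ 3 * P.card * 2 ^ J) := by gcongr
    _ = _ := by ring

end Pool.Agent.P.MP_77a832_co.KS.Tails
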