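import Pool.Agent.P.MP_77a832_co.KS.ZStar

/-! From the gain at one scale to a bound on the number of upper sets of equal size. -/

set_option autoImplicit false

namespace Pool.Agent.P.MP_77a832_co.KS

open Finset
open scoped Classical

variable {α : Type} {x y : α → ℝ} {th be : ℕ → ℝ} {A : ℕ → Finset α} {P : Finset α}

theorem act_shift (A : ℕ → Finset α) (Z : Finset α) (a u v : ℕ) :
    act (fun t => A (a + t)) Z u v = act A Z (a + u) (a + v) := by
  ext p
  rw [mem_act, mem_act]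
  refine and_congr_right fun _ => ⟨?_, ?_⟩
  · rintro ⟨s, t, h1, h2, h3, h4, h5⟩
    exact ⟨a + s, a + t, by omega, by omega, by omega, by omega, h5⟩
  · rintro ⟨s, t, h1, h2, h3, h4, h5⟩
    obtain ⟨s, rfl⟩ := Nat.exists_eq_add_of_le (show a ≤ s by omega)
    obtain ⟨t, rfl⟩ := Nat.exists_eq_add_of_le (show a ≤ t by omega)
    exact ⟨s, t, by omega, by omega, by omega, by omega, h5⟩

theorem Bal.shift {a n : ℕ} (h : Bal x y th be A P a (a + n)) :
    Bal x y (fun t => th (a + t)) (fun t => be (a + t)) (fun t => A (a + t)) P 0 n :=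
  ⟨fun _ _ e => h.mono (by omega), fun t _ _ => h.ab (a + t) (by omega) (by omega),
    fun s t _ _ _ _ => h.card (a + s) (a + t) (by omega) (by omega) (by omega) (by omega)⟩

theorem GP.shift {a n : ℕ} (h : GP x y th be P a (a + n)) :
    GP x y (fun t => th (a + t)) (fun t => be (a + t)) P 0 n :=
  ⟨fun p hp t _ _ => h.off p hp (a + t) (by omega) (by omega), h.inj, h.col,
    fun p hp q hq e t _ _ => h.par p hp q hq e (a + t) (by omega) (by omega)⟩

theorem sum_range_blocks (f : ℕ → ℕ) (K M : ℕ) :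
    ∑ i ∈ range (K * M), f i = ∑ u ∈ range K, ∑ v ∈ range M, f (u * M + v) := by
  induction K with
  | zero => simp
  | succ K ih => rw [Nat.succ_mul, sum_range_add, ih, sum_range_succ]

/-- the gain is multiplied over the scales -/
theorem submult {L : ℕ} (hM : MainAt L) (j : ℕ) : ∀ (P : Finset α) (a : ℕ),
    Bal x y th be A P a (a + (16 ^ L) ^ j) → GP x y th be P a (a + (16 ^ L) ^ j) →
    2 ^ j * ∑ i ∈ range ((16 ^ L) ^ j), (act A P (a + i) (a + i + 1)).card ≤
      (2 ^ L) ^ j * P.card := by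
  induction j with
  | zero =>
    intro P a _ _
    simpa using card_le_card (act_subset A P a (a + 1))
  | succ j ih =>
    intro P a h g
    have hM1 : 1 ≤ (16 ^ L) ^ j := Nat.one_le_pow _ _ (by positivity)
    rw [pow_succ' (16 ^ L)] at h g ⊢
    generalize (16 ^ L) ^ j = M at ih h g hM1 ⊢
    have h0 := hM α _ _ _ _ _ P M hM1 h.shift g.shift
    simp only [act_shift] at h0
    rw [sum_range_blocks, pow_succ, mul_comm _ 2, mul_assoc, mul_sum]
    have key : ∀ u ∈ range (16 ^ L), 2 ^ j * ∑ v ∈ range M,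
        (act A P (a + (u * M + v)) (a + (u * M + v) + 1)).card ≤
        (2 ^ L) ^ j * (act A P (a + u * M) (a + (u + 1) * M)).card := by
      intro u hu
      have hu' : (u + 1) * M ≤ 16 ^ L * M := Nat.mul_le_mul_right M (mem_range.1 hu)
      have e : a + (u + 1) * M = a + u * M + M := by ring
      rw [e]
      have hb : a + u * M + M ≤ a + 16 ^ L * M := by rw [← e]; omega
      refine le_of_eq_of_le ?_ (ih _ (a + u * M) (h.sub (by omega) hb)
        (g.mono (act_subset _ _ _ _) (by omega) hb))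
      congr 1
      refine sum_congr rfl fun v hv => ?_
      rw [mem_range] at hv
      rw [act_act (by omega) (by omega), add_assoc a (u * M) v]
    calc 2 * ∑ u ∈ range (16 ^ L), 2 ^ j * ∑ v ∈ range M,
          (act A P (a + (u * M + v)) (a + (u * M + v) + 1)).card
        ≤ 2 * ∑ u ∈ range (16 ^ L), (2 ^ L) ^ j * (act A P (a + u * M) (a + (u + 1) * M)).card :=
          Nat.mul_le_mul_left 2 (sum_le_sum key)
      _ = (2 ^ L) ^ j *
            (2 * ∑ u ∈ range (16 ^ L), (act A P (a + u * M) (a + (u + 1) * M)).card) := by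
          rw [← mul_sum]; ring
      _ ≤ (2 ^ L) ^ j * (2 ^ L * P.card) := Nat.mul_le_mul_left _ h0
      _ = (2 ^ L) ^ (j + 1) * P.card := by ring

/-- every balanced instance has a copy in general position -/
theorem Bal.pert {N : ℕ} (h : Bal x y th be A P 0 N) :
    ∃ (x' y' : α → ℝ) (be' : ℕ → ℝ), Bal x' y' th be' A P 0 N ∧ GP x' y' th be' P 0 N := by
  obtain ⟨x', y', be', h1, h2, h3, h4, h5⟩ := Z.pert x y th be P N
  exact ⟨x', y', be', ⟨h.mono, fun t e1 e2 p hp => (h.ab t e1 e2 p hp).trans (h1 p hp t e2).symm,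
    h.card⟩, ⟨fun p hp t _ e => h2 p hp t e, h3, h4, fun p hp q hq e t _ e' => h5 p hp q hq e t e'⟩⟩

/-- a sequence in which every step changes the set is short -/
theorem steps_le {L N : ℕ} (hL : 1 ≤ L) (hM : MainAt L) (h : Bal x y th be A P 0 N)
    (hne : ∀ t, t < N → P ∩ A t ≠ P ∩ A (t + 1)) :
    (N : ℝ) ≤ 16 ^ L * (P.card : ℝ) ^ (4 * (L : ℝ) / (3 * L + 1)) := by
  rcases Nat.eq_zero_or_pos N with rfl | hN
  · rw [Nat.cast_zero]
    positivity
  obtain ⟨x', y', be', h', g⟩ := h.pert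
  have h16 : 1 < 16 ^ L := Nat.one_lt_pow (by omega) (by norm_num)
  obtain ⟨j, j1, j2⟩ : ∃ j, (16 ^ L) ^ j ≤ N ∧ N < (16 ^ L) ^ (j + 1) :=
    ⟨Nat.log (16 ^ L) N, Nat.pow_log_le_self _ hN.ne', Nat.lt_pow_succ_log_self h16 N⟩
  have h1 := submult hM j P 0 (h'.times le_rfl (by omega)) (g.mono Subset.rfl le_rfl (by omega))
  have h2 : (16 ^ L) ^ j ≤ ∑ i ∈ range ((16 ^ L) ^ j), (act A P (0 + i) (0 + i + 1)).card := by
    refine le_of_eq_of_le (by simp) (card_nsmul_le_sum _ _ 1 fun i hi => ?_)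
    rw [mem_range] at hi
    rw [zero_add, Nat.one_le_iff_ne_zero, card_ne_zero]
    by_contra hc
    rw [not_nonempty_iff_eq_empty] at hc
    refine hne i (by omega) ?_
    ext p
    simp only [mem_inter]
    refine and_congr_right fun hp => ⟨fun e => ?_, fun e => ?_⟩ <;> by_contra e'
    · exact notMem_empty p
        (hc ▸ mem_act.2 ⟨hp, i, i + 1, le_rfl, by omega, by omega, le_rfl, e, e'⟩)
    · exact notMem_empty p
        (hc ▸ mem_act.2 ⟨hp, i + 1, i, by omega, le_rfl, le_rfl, by omega, e, e'⟩)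
  have h3 : 2 ^ ((3 * L + 1) * j) ≤ P.card := by
    have := (Nat.mul_le_mul_left (2 ^ j) h2).trans h1
    have e : 2 ^ j * (16 ^ L) ^ j = (2 ^ L) ^ j * 2 ^ ((3 * L + 1) * j) := by
      rw [show (16 : ℕ) = 2 ^ 4 by norm_num]
      simp only [← pow_mul, ← pow_add]
      congr 1
      ring
    rw [e] at this
    exact Nat.le_of_mul_le_mul_left this (by positivity)
  have h4 : (((16 : ℝ) ^ L) ^ j) ≤ (P.card : ℝ) ^ (4 * (L : ℝ) / (3 * L + 1)) := by
    have h5 : ((2 : ℝ) ^ ((3 * L + 1) * j)) ≤ P.card := by exact_mod_cast h3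
    refine le_of_eq_of_le ?_ (Real.rpow_le_rpow (by positivity) h5 (by positivity))
    rw [← Real.rpow_natCast 2, ← Real.rpow_mul (by norm_num), show (16 : ℝ) = 2 ^ 4 by norm_num,
      ← pow_mul, ← pow_mul, ← Real.rpow_natCast 2]
    congr 1
    push_cast
    field_simp
  have h6 : (N : ℝ) ≤ (16 ^ L) ^ (j + 1) := by exact_mod_cast j2.le
  rw [pow_succ'] at h6
  exact h6.trans (mul_le_mul_of_nonneg_left h4 (by positivity))

theorem enum {β : Type} (s : Finset β) (u : β → ℝ) (hu : Set.InjOn u s) {N : ℕ}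
    (hN : s.card = N + 1) :
    ∃ f : ℕ → β, (∀ t, t ≤ N → f t ∈ s) ∧ ∀ a b, a < b → b ≤ N → u (f a) < u (f b) := by
  have hc : (s.image u).card = N + 1 := (card_image_of_injOn hu).trans hN
  let e := (s.image u).orderEmbOfFin hc
  have he : ∀ t : ℕ, ∃ b ∈ s, u b = e ⟨min t N, by omega⟩ := fun t =>
    mem_image.1 (orderEmbOfFin_mem _ _ _)
  choose f h1 h2 using he
  refine ⟨f, fun t _ => h1 t, fun a b hab hb => ?_⟩
  rw [h2, h2]
  refine e.strictMono ?_
  rw [Fin.mk_lt_mk]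
  omega

/-- the part of `P` above some line -/
def Up (x y : α → ℝ) (P S : Finset α) : Prop :=
  ∃ u v : ℝ, ∀ p, p ∈ S ↔ p ∈ P ∧ u * x p + v < y p

/-- upper sets of equal size, sorted by slope -/
theorem sort_up {k N : ℕ} {𝓕 : Finset (Finset α)} (h : ∀ S ∈ 𝓕, S.card = k ∧ Up x y P S)
    (hN : 𝓕.card = N + 1) : ∃ (th be : ℕ → ℝ) (A : ℕ → Finset α), Bal x y th be A P 0 N ∧
      (∀ t, t ≤ N → A t ⊆ P ∧ (A t).card = k) ∧ ∀ t, t < N → A t ≠ A (t + 1) := by
  have h' : ∀ S : Finset α, ∃ u v : ℝ, S ∈ 𝓕 → ∀ p, p ∈ S ↔ p ∈ P ∧ u * x p + v < y p := by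
    intro S
    by_cases hS : S ∈ 𝓕
    · obtain ⟨u, v, e⟩ := (h S hS).2
      exact ⟨u, v, fun _ => e⟩
    · exact ⟨0, 0, fun e => absurd e hS⟩
  choose u v huv using h'
  have sub : ∀ S ∈ 𝓕, ∀ T ∈ 𝓕, u S = u T → v S ≤ v T → T = S := fun S hS T hT e1 e2 =>
    eq_of_subset_of_card_le (fun p hp => (huv S hS p).2
      ⟨((huv T hT p).1 hp).1, by rw [e1]; linarith [((huv T hT p).1 hp).2]⟩)
      (by rw [(h S hS).1, (h T hT).1])
  have inj : Set.InjOn u 𝓕 := fun S hS T hT e => by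
    rcases le_total (v S) (v T) with c | c
    · exact (sub S hS T hT e c).symm
    · exact sub T hT S hS e.symm c
  obtain ⟨f, f1, f2⟩ := enum 𝓕 u inj hN
  have hsub : ∀ t, t ≤ N → f t ⊆ P := fun t ht p hp => ((huv _ (f1 t ht) p).1 hp).1
  refine ⟨fun t => u (f (min t N)) + ((t - N : ℕ) : ℝ), fun t => v (f t), f, ⟨?_, ?_, ?_⟩,
    fun t ht => ⟨hsub t ht, (h _ (f1 t ht)).1⟩, fun t ht e => ?_⟩
  · refine strictMono_nat_of_lt_succ fun t => ?_
    by_cases ht : t < N
    · rw [min_eq_left ht.le, min_eq_left ht, Nat.sub_eq_zero_of_le ht.le,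
        Nat.sub_eq_zero_of_le ht]
      simpa using f2 t (t + 1) (Nat.lt_succ_self t) ht
    · rw [min_eq_right (by omega), min_eq_right (by omega)]
      have : ((t - N : ℕ) : ℝ) < ((t + 1 - N : ℕ) : ℝ) := by exact_mod_cast (by omega)
      linarith
  · intro t _ ht p hp
    rw [min_eq_left ht, Nat.sub_eq_zero_of_le ht, huv _ (f1 t ht)]
    simp [hp]
  · intro s t _ hs _ ht
    rw [inter_eq_right.2 (hsub s hs), inter_eq_right.2 (hsub t ht), (h _ (f1 s hs)).1,
      (h _ (f1 t ht)).1]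
  · have := f2 t (t + 1) (Nat.lt_succ_self t) ht
    rw [e] at this
    exact lt_irrefl _ this

/-- a bound for families of upper sets of equal size, in terms of the number of points -/
def UpB (C γ : ℝ) : Prop := ∀ (α : Type) (x y : α → ℝ) (P : Finset α) (k : ℕ)
  (𝓕 : Finset (Finset α)), (∀ S ∈ 𝓕, S.card = k ∧ Up x y P S) →
    (𝓕.card : ℝ) ≤ 1 + C * (P.card : ℝ) ^ γ

theorem upB {L : ℕ} (hL : 1 ≤ L) (hM : MainAt L) :
    UpB (16 ^ L) (4 * (L : ℝ) / (3 * L + 1)) := by
  intro α x y P k 𝓕 h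
  rcases Nat.eq_zero_or_eq_succ_pred 𝓕.card with e | e
  · rw [e, Nat.cast_zero]
    positivity
  obtain ⟨th, be, A, h1, h2, h3⟩ := sort_up h e
  have := steps_le hL hM h1 fun t ht => by
    rw [inter_eq_right.2 (h2 t ht.le).1, inter_eq_right.2 (h2 (t + 1) ht).1]
    exact h3 t ht
  rw [e]
  push_cast
  linarith

end Pool.Agent.P.MP_77a832_co.KS
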