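import Pool.Agent.P.MP_77a832_co.KS.ZCount

/-! From the bound in the number of points to the bound in `k`, by vertical slabs. -/

set_option autoImplicit false

namespace Pool.Agent.P.MP_77a832_co.KS

open Finset
open scoped Classical

variable {α : Type} {x y : α → ℝ} {th be : ℕ → ℝ} {A : ℕ → Finset α} {P : Finset α} {N k : ℕ}

theorem sum_pairs {E G : Finset α} (f : α → ℕ) (hc : E.card = G.card)
    (h : ∀ p ∈ E, ∀ q ∈ G, f p ≤ f q) :
    ∑ p ∈ E, f p ≤ ∑ q ∈ G, f q ∧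
      ∀ p ∈ E, ∀ q ∈ G, f p < f q → ∑ p ∈ E, f p < ∑ q ∈ G, f q := by
  have e1 : ∑ z ∈ E ×ˢ G, f z.1 = G.card * ∑ p ∈ E, f p := by
    rw [sum_product, mul_sum]
    simp
  have e2 : ∑ z ∈ E ×ˢ G, f z.2 = G.card * ∑ q ∈ G, f q := by
    rw [sum_product, ← hc]
    simp
  have le : ∀ z ∈ E ×ˢ G, f z.1 ≤ f z.2 := fun z hz =>
    h _ (mem_product.1 hz).1 _ (mem_product.1 hz).2
  refine ⟨?_, fun p hp q hq hlt => ?_⟩
  · rcases G.eq_empty_or_nonempty with rfl | hG
    · rw [card_empty, card_eq_zero] at hc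
      rw [hc]
    · have := sum_le_sum le
      rw [e1, e2] at this
      exact Nat.le_of_mul_le_mul_left this hG.card_pos
  · have := sum_lt_sum le ⟨(p, q), mem_product.2 ⟨hp, hq⟩, hlt⟩
    rw [e1, e2] at this
    exact Nat.lt_of_mul_lt_mul_left this

theorem sum_sdiff_swap (f : α → ℕ) (S T : Finset α) :
    ∑ p ∈ T, f p + ∑ p ∈ S \ T, f p = ∑ p ∈ S, f p + ∑ p ∈ T \ S, f p := by
  rw [← sum_inter_add_sum_sdiff T S f, ← sum_inter_add_sum_sdiff S T f, inter_comm S T]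
  ring

/-- a weight that grows from left to right has a total on `A t` that decreases in time -/
theorem Bal.pot (h : Bal x y th be A P 0 N) (hA : ∀ t, t ≤ N → A t ⊆ P ∧ (A t).card = k)
    (f : α → ℕ) (hf : ∀ p ∈ P, ∀ q ∈ P, x p < x q → f p ≤ f q) {s t : ℕ} (hst : s ≤ t)
    (ht : t ≤ N) : ∑ p ∈ A t, f p ≤ ∑ p ∈ A s, f p ∧
      ∀ p ∈ A t \ A s, ∀ q ∈ A s \ A t, f p < f q → ∑ p ∈ A t, f p < ∑ p ∈ A s, f p := by
  have hs := hst.trans ht
  have := sum_pairs (E := A t \ A s) (G := A s \ A t) f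
    (card_sdiff_comm (by rw [(hA t ht).2, (hA s hs).2])) fun p hp q hq => by
      rw [mem_sdiff] at hp hq
      have p0 := (hA t ht).1 hp.1
      have q0 := (hA s hs).1 hq.1
      exact hf p p0 q q0 (h.slope (Nat.zero_le _) hst ht p0 q0 hp.1 hp.2 hq.1 hq.2).1
  have e := sum_sdiff_swap f (A s) (A t)
  refine ⟨by omega, fun p hp q hq hlt => ?_⟩
  have := this.2 p hp q hq hlt
  omega

theorem drops_le (ψ : ℕ → ℕ) (N : ℕ) (h : ∀ t, t < N → ψ (t + 1) ≤ ψ t) :
    ((range N).filter fun t => ψ (t + 1) < ψ t).card + ψ N ≤ ψ 0 := by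
  induction N with
  | zero => simp
  | succ N ih =>
    have h1 := ih fun t ht => h t (by omega)
    have h2 := h N (Nat.lt_succ_self N)
    rw [range_add_one, filter_insert]
    split_ifs with hc
    · have := card_insert_le N ((range N).filter fun t => ψ (t + 1) < ψ t)
      omega
    · omega

theorem far (th be : ℕ → ℝ) (hth : StrictMono th) (N : ℕ) : ∃ R : ℝ, ∀ s t, s < t → t ≤ N →
    th t * -R + be t < th s * -R + be s ∧ th s * R + be s < th t * R + be t := by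
  have : ∀ᶠ R : ℝ in Filter.atTop, ∀ s ∈ range (N + 1), ∀ t ∈ range (N + 1), s < t →
      th t * -R + be t < th s * -R + be s ∧ th s * R + be s < th t * R + be t := by
    rw [Filter.eventually_all_finset]
    intro s _
    rw [Filter.eventually_all_finset]
    intro t _
    by_cases hst : s < t
    · have hp : 0 < th t - th s := sub_pos.2 (hth hst)
      filter_upwards [Filter.eventually_gt_atTop (|be t - be s| / (th t - th s))] with R hR _
      rw [div_lt_iff₀ hp] at hR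
      constructor
      · nlinarith [le_abs_self (be t - be s)]
      · nlinarith [neg_abs_le (be t - be s)]
    · exact Filter.Eventually.of_forall fun _ e => absurd e hst
  obtain ⟨R, hR⟩ := this.exists
  exact ⟨R, fun s t h1 h2 => hR s (mem_range.2 (by omega)) t (mem_range.2 (by omega)) h1⟩

/-- the step `t` exchanges two points of the slab `j` -/
def Exch (A : ℕ → Finset α) (σ : α → ℕ) (j t : ℕ) : Prop :=
  ∃ p ∈ A (t + 1) \ A t, ∃ q ∈ A t \ A (t + 1), σ p = j ∧ σ q = j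

theorem slab_steps {C γ : ℝ} (hU : UpB C γ) (hC : 0 ≤ C) (hγ : 0 ≤ γ)
    (h : Bal x y th be A P 0 N) (hA : ∀ t, t ≤ N → A t ⊆ P ∧ (A t).card = k)
    (σ : α → ℕ) (hσ : ∀ p ∈ P, ∀ q ∈ P, x p < x q → σ p ≤ σ q) (j : ℕ)
    (hQ : (P.filter fun p => σ p = j).card ≤ k) :
    (((range N).filter (Exch A σ j)).card : ℝ) ≤ 1 + C * (3 * k : ℝ) ^ γ := by
  obtain ⟨l, hl⟩ : ∃ l : ℕ → ℕ, ∀ t, l t = ((A t).filter fun p => σ p < j).card :=
    ⟨_, fun _ => rfl⟩
  obtain ⟨r, hr⟩ : ∃ r : ℕ → ℕ, ∀ t, r t = ((A t).filter fun p => j < σ p).card :=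
    ⟨_, fun _ => rfl⟩
  have rm : ∀ s t, s ≤ t → t ≤ N → r t ≤ r s := fun s t h1 h2 => by
    rw [hr, hr, card_filter, card_filter]
    refine (h.pot hA (fun p => if j < σ p then 1 else 0) (fun p hp q hq e => ?_) h1 h2).1
    have := hσ p hp q hq e
    split_ifs <;> omega
  have lm : ∀ s t, s ≤ t → t ≤ N → l s ≤ l t := fun s t h1 h2 => by
    have e1 := card_filter_add_card_filter_not (s := A s) fun p => σ p < j
    have e2 := card_filter_add_card_filter_not (s := A t) fun p => σ p < j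
    have e3 := (h.pot hA (fun p => if ¬ σ p < j then 1 else 0) (fun p hp q hq e => by
      have := hσ p hp q hq e
      split_ifs <;> omega) h1 h2).1
    rw [← card_filter, ← card_filter] at e3
    rw [(hA s (h1.trans h2)).2] at e1
    rw [(hA t h2).2] at e2
    rw [hl, hl]
    omega
  have tot : ∀ t, t ≤ N → ((A t).filter fun p => σ p = j).card + (l t + r t) = k := by
    intro t ht
    rw [hl, hr, ← (hA t ht).2, card_filter, card_filter, card_filter, ← sum_add_distrib,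
      ← sum_add_distrib, card_eq_sum_ones]
    refine sum_congr rfl fun p _ => ?_
    split_ifs <;> omega
  obtain ⟨R, hR⟩ := far th be h.mono N
  obtain ⟨Y, hY⟩ := Z.dum N (fun t => th t * -R + be t) l fun s t hs ht e =>
    (hR s t (by by_contra hc; exact absurd (lm t s (not_lt.1 hc) hs) (not_le.2 e)) ht).1
  obtain ⟨Y', hY'⟩ := Z.dum N (fun t => th t * R + be t) r fun s t hs ht e =>
    (hR t s (by by_contra hc; exact absurd (rm s t (not_lt.1 hc) ht) (not_le.2 e)) hs).2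
  let B : ℕ → Finset (α ⊕ ℕ ⊕ ℕ) := fun t =>
    ((A t).filter fun p => σ p = j).disjSum ((range (l t)).disjSum (range (r t)))
  have hB : ∀ t p, Sum.inl p ∈ B t ↔ p ∈ A t ∧ σ p = j := fun t p => by
    simp only [B, inl_mem_disjSum, mem_filter]
  have main := hU (α ⊕ ℕ ⊕ ℕ) (Sum.elim x (Sum.elim (fun _ => -R) fun _ => R))
    (Sum.elim y (Sum.elim Y Y'))
    ((P.filter fun p => σ p = j).disjSum ((range k).disjSum (range k))) k
    (((range N).filter (Exch A σ j)).image fun t => B (t + 1)) (by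
    intro S hS
    obtain ⟨t, ht, rfl⟩ := mem_image.1 hS
    have ht' : t + 1 ≤ N := mem_range.1 (mem_filter.1 ht).1
    have e := tot _ ht'
    refine ⟨?_, th (t + 1), be (t + 1), ?_⟩
    · simp only [B, card_disjSum, card_range]
      exact e
    · rintro (p | i | i)
      · rw [hB, inl_mem_disjSum, mem_filter, Sum.elim_inl, Sum.elim_inl]
        exact ⟨fun c => ⟨⟨(hA _ ht').1 c.1, c.2⟩,
          (h.ab _ (Nat.zero_le _) ht' p ((hA _ ht').1 c.1)).1 c.1⟩,
          fun c => ⟨(h.ab _ (Nat.zero_le _) ht' p c.1.1).2 c.2, c.1.2⟩⟩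
      · simp only [B, inr_mem_disjSum, inl_mem_disjSum, mem_range, Sum.elim_inr, Sum.elim_inl]
        rw [hY i _ ht']
        omega
      · simp only [B, inr_mem_disjSum, mem_range, Sum.elim_inr]
        rw [hY' i _ ht']
        omega)
  have key : ∀ s t, s < t → t < N → Exch A σ j t → B (s + 1) ≠ B (t + 1) := by
    rintro s t hst ht ⟨p, hp, q, hq, p1, q1⟩ e
    rw [mem_sdiff] at hp hq
    have p0 := (hA _ ht).1 hp.1
    have q0 := (hA _ ht.le).1 hq.1
    have p2 : p ∈ A (s + 1) := ((hB _ _).1 (e ▸ (hB _ _).2 ⟨hp.1, p1⟩)).1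
    have q2 : q ∉ A (s + 1) := fun c => hq.2 ((hB _ _).1 (e ▸ (hB _ _).2 ⟨c, q1⟩)).1
    have c1 := (h.slope (Nat.zero_le _) (Nat.le_succ t) ht p0 q0 hp.1 hp.2 hq.1 hq.2).1
    have c2 := (h.slope (Nat.zero_le _) (show s + 1 ≤ t from hst) ht.le q0 p0 hq.1 q2 p2 hp.2).1
    exact lt_asymm c1 c2
  rw [card_image_of_injOn (fun s hs t ht e => by
    rw [mem_coe, mem_filter, mem_range] at hs ht
    rcases lt_trichotomy s t with c | c | c
    · exact absurd e (key s t c ht.1 ht.2)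
    · exact c
    · exact absurd e.symm (key t s c hs.1 hs.2))] at main
  refine main.trans ?_
  have hc : (((P.filter fun p => σ p = j).disjSum ((range k).disjSum (range k))).card : ℝ) ≤
      3 * k := by
    simp only [card_disjSum, card_range]
    exact_mod_cast (by omega)
  gcongr

/-- the bound in `k` for upper sets -/
theorem up_k {C γ : ℝ} (hU : UpB C γ) (hC : 0 ≤ C) (hγ : 1 ≤ γ) (hk : 1 ≤ k)
    {𝓕 : Finset (Finset α)} (h𝓕 : ∀ S ∈ 𝓕, S.card = k ∧ Up x y P S) :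
    (𝓕.card : ℝ) ≤ (4 + 2 * C * 3 ^ γ) * P.card * (k : ℝ) ^ (γ - 1) := by
  rcases Nat.eq_zero_or_eq_succ_pred 𝓕.card with e | e
  · rw [e, Nat.cast_zero]
    positivity
  obtain ⟨th, be, A, h0, hA, hne⟩ := sort_up h𝓕 e
  rw [e]
  generalize 𝓕.card.pred = N at h0 hA hne ⊢
  obtain ⟨x', y', be', h, g⟩ := h0.pert
  have hkn : k ≤ P.card := (hA 0 (Nat.zero_le _)).2 ▸ card_le_card (hA 0 (Nat.zero_le _)).1
  obtain ⟨rk, hrk⟩ : ∃ rk : α → ℕ, ∀ p, rk p = (P.filter fun q => x' q < x' p).card :=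
    ⟨_, fun _ => rfl⟩
  have r1 : ∀ p ∈ P, ∀ q, x' p < x' q → rk p < rk q := fun p hp q e => by
    rw [hrk, hrk]
    refine card_lt_card ⟨fun z hz => ?_, fun c => ?_⟩
    · rw [mem_filter] at hz ⊢
      exact ⟨hz.1, hz.2.trans e⟩
    · exact lt_irrefl _ (mem_filter.1 (c (mem_filter.2 ⟨hp, e⟩))).2
  have r2 : ∀ p, rk p ≤ P.card := fun p => (hrk p) ▸ card_filter_le _ _
  have hσ : ∀ p ∈ P, ∀ q ∈ P, x' p < x' q → rk p / k ≤ rk q / k := fun p hp q _ e =>
    Nat.div_le_div_right (r1 p hp q e).le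
  have hQ : ∀ j, (P.filter fun p => rk p / k = j).card ≤ k := fun j => by
    refine le_of_le_of_eq (card_le_card_of_injOn (t := range k) (fun p => rk p % k)
      (fun p _ => mem_coe.2 (mem_range.2 (Nat.mod_lt _ hk))) fun p hp q hq e => ?_) (card_range k)
    rw [mem_coe, mem_filter] at hp hq
    have e1 : rk p = rk q := by
      rw [← Nat.div_add_mod (rk p) k, ← Nat.div_add_mod (rk q) k, hp.2, hq.2]
      exact congrArg _ e
    by_contra hc
    rcases lt_or_gt_of_ne (g.inj p hp.1 q hq.1 hc) with c | c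
    · exact (r1 p hp.1 q c).ne e1
    · exact (r1 q hq.1 p c).ne e1.symm
  have hs := fun j => slab_steps hU hC (zero_le_one.trans hγ) h hA (fun p => rk p / k) hσ j (hQ j)
  have hd := drops_le (fun t => ∑ p ∈ A t, rk p / k) N fun t ht =>
    (h.pot hA (fun p => rk p / k) hσ (Nat.le_succ t) ht).1
  have h1 : ∑ p ∈ A 0, rk p / k ≤ P.card := by
    refine (sum_le_card_nsmul _ _ (P.card / k) fun p _ => Nat.div_le_div_right (r2 p)).trans ?_
    rw [(hA 0 (Nat.zero_le _)).2, smul_eq_mul]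
    exact Nat.mul_div_le _ _
  have cov : range N ⊆ ((range N).filter fun t =>
      ∑ p ∈ A (t + 1), rk p / k < ∑ p ∈ A t, rk p / k) ∪
      (range (P.card / k + 1)).biUnion fun j =>
        (range N).filter (Exch A (fun p => rk p / k) j) := by
    intro t ht
    have ht' := mem_range.1 ht
    have c : (A t).card = (A (t + 1)).card := by rw [(hA t ht'.le).2, (hA _ ht').2]
    obtain ⟨p, hp⟩ : (A (t + 1) \ A t).Nonempty := sdiff_nonempty.2 fun hc =>
      hne t ht' (eq_of_subset_of_card_le hc c.le).symm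
    obtain ⟨q, hq⟩ : (A t \ A (t + 1)).Nonempty := sdiff_nonempty.2 fun hc =>
      hne t ht' (eq_of_subset_of_card_le hc c.ge)
    have p0 := (hA _ ht').1 (mem_sdiff.1 hp).1
    have q0 := (hA _ ht'.le).1 (mem_sdiff.1 hq).1
    have c1 := hσ p p0 q q0 (h.slope (Nat.zero_le _) (Nat.le_succ t) ht' p0 q0 (mem_sdiff.1 hp).1
      (mem_sdiff.1 hp).2 (mem_sdiff.1 hq).1 (mem_sdiff.1 hq).2).1
    rw [mem_union]
    rcases c1.lt_or_eq with c2 | c2
    · exact Or.inl (mem_filter.2 ⟨ht,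
        (h.pot hA (fun p => rk p / k) hσ (Nat.le_succ t) ht').2 p hp q hq c2⟩)
    · exact Or.inr (mem_biUnion.2 ⟨rk p / k,
        mem_range.2 (Nat.lt_succ_of_le (Nat.div_le_div_right (r2 p))),
        mem_filter.2 ⟨ht, p, hp, q, hq, rfl, c2.symm⟩⟩)
  have h2 := (card_le_card cov).trans ((card_union_le _ _).trans
    (Nat.add_le_add ((Nat.le_add_right _ _).trans (hd.trans h1)) card_biUnion_le))
  rw [card_range] at h2
  have h3 : (N : ℝ) ≤ P.card + ((P.card / k + 1 : ℕ) : ℝ) * (1 + C * (3 * k : ℝ) ^ γ) := by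
    refine (Nat.cast_le.2 h2).trans ?_
    rw [Nat.cast_add, Nat.cast_sum]
    refine add_le_add le_rfl ((sum_le_card_nsmul _ _ _ fun j _ => hs j).trans ?_)
    rw [card_range, nsmul_eq_mul]
  have k0 : (1 : ℝ) ≤ k := by exact_mod_cast hk
  have n0 : (k : ℝ) ≤ P.card := by exact_mod_cast hkn
  have h4 : ((P.card / k + 1 : ℕ) : ℝ) * k ≤ 2 * P.card := by
    have : (P.card / k + 1) * k ≤ 2 * P.card := by
      have := Nat.div_mul_le_self P.card k
      rw [add_mul]
      omega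
    exact_mod_cast this
  have h5 : (1 : ℝ) ≤ (k : ℝ) ^ (γ - 1) := Real.one_le_rpow k0 (by linarith)
  have h6 : (3 * k : ℝ) ^ γ = 3 ^ γ * (k * (k : ℝ) ^ (γ - 1)) := by
    rw [Real.mul_rpow (by norm_num) (by linarith), Real.rpow_sub_one (by linarith)]
    field_simp
  rw [h6] at h3
  have h7 : (0 : ℝ) ≤ C * 3 ^ γ := by positivity
  have h8 : (0 : ℝ) ≤ ((P.card / k + 1 : ℕ) : ℝ) := Nat.cast_nonneg _
  rw [Nat.cast_succ, mul_assoc 2 C]
  rw [← mul_assoc C] at h3
  generalize C * 3 ^ γ = D at h3 h7 ⊢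
  generalize (k : ℝ) ^ (γ - 1) = K at h3 h5 ⊢
  generalize ((P.card / k + 1 : ℕ) : ℝ) = m at h3 h4 h8 ⊢
  generalize (P.card : ℝ) = n at h3 h4 n0 ⊢
  have h9 : m ≤ 2 * n := by nlinarith
  have h10 : m * (D * (k * K)) ≤ 2 * D * n * K := by
    have := mul_le_mul_of_nonneg_right h4 (mul_nonneg h7 (zero_le_one.trans h5))
    nlinarith
  have h11 : n ≤ n * K := by nlinarith
  nlinarith

theorem ksets (h : ∃ L, 1 ≤ L ∧ MainAt L) : S_KSETS := by
  obtain ⟨L, hL, hM⟩ := h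
  have hL' : (1 : ℝ) ≤ L := by exact_mod_cast hL
  have hγ : 1 ≤ 4 * (L : ℝ) / (3 * L + 1) := by
    rw [le_div_iff₀ (by positivity)]
    linarith
  refine ⟨2 * (4 + 2 * 16 ^ L * 3 ^ (4 * (L : ℝ) / (3 * L + 1))),
    4 / 3 - 4 * (L : ℝ) / (3 * L + 1), ?_, fun α x y P k hk 𝓕 h𝓕 => ?_⟩
  · rw [sub_pos, div_lt_div_iff₀ (by positivity) (by norm_num)]
    linarith
  have h1 := up_k (upB hL hM) (by positivity) hγ hk (x := x) (y := y) (P := P)
    (𝓕 := 𝓕.filter fun S => Up x y P S) fun S hS =>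
      ⟨(h𝓕 S (mem_filter.1 hS).1).1, (mem_filter.1 hS).2⟩
  have h2 := up_k (upB hL hM) (by positivity) hγ hk (x := x) (y := fun p => -y p) (P := P)
    (𝓕 := 𝓕.filter fun S => ¬ Up x y P S) fun S hS => by
      obtain ⟨c1, a, b, c, e⟩ := h𝓕 S (mem_filter.1 hS).1
      refine ⟨c1, ?_⟩
      rcases Z.tilt x y P a b c with ⟨u, v, t⟩ | ⟨u, v, t⟩
      · refine absurd ⟨u, v, fun p => ?_⟩ (mem_filter.1 hS).2
        rw [e, mem_filter]
        exact and_congr_right (t p)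
      · refine ⟨u, v, fun p => ?_⟩
        rw [e, mem_filter]
        exact and_congr_right (t p)
  have h3 : ((𝓕.filter fun S => Up x y P S).card : ℝ) +
      (𝓕.filter fun S => ¬ Up x y P S).card = 𝓕.card := by
    exact_mod_cast card_filter_add_card_filter_not _
  rw [show (1 / 3 : ℝ) - (4 / 3 - 4 * (L : ℝ) / (3 * L + 1)) = 4 * (L : ℝ) / (3 * L + 1) - 1 by
    ring]
  linarith

/-- the bound for point sets of the Euclidean plane -/
theorem final (h : ∃ L, 1 ≤ L ∧ MainAt L) : ∃ C ε : ℝ, 0 < ε ∧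
    ∀ (P : Finset (EuclideanSpace ℝ (Fin 2))) (k : ℕ), 1 ≤ k →
      (Set.ncard {S : Finset (EuclideanSpace ℝ (Fin 2)) | S.card = k ∧
        ∃ (v : EuclideanSpace ℝ (Fin 2)) (d : ℝ), v ≠ 0 ∧
          (S : Set (EuclideanSpace ℝ (Fin 2))) =
            (P : Set (EuclideanSpace ℝ (Fin 2))) ∩ {z | inner ℝ v z < d}} : ℝ) ≤
        C * P.card * (k : ℝ) ^ (1 / 3 - ε) := by
  obtain ⟨C, ε, hε, hC⟩ := ksets h
  refine ⟨C, ε, hε, fun P k hk => ?_⟩
  have fin : {S : Finset (EuclideanSpace ℝ (Fin 2)) | S.card = k ∧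
      ∃ (v : EuclideanSpace ℝ (Fin 2)) (d : ℝ), v ≠ 0 ∧
        (S : Set (EuclideanSpace ℝ (Fin 2))) =
          (P : Set (EuclideanSpace ℝ (Fin 2))) ∩ {z | inner ℝ v z < d}}.Finite := by
    refine P.powerset.finite_toSet.subset ?_
    rintro S ⟨-, v, d, -, e⟩
    rw [mem_coe, mem_powerset, ← coe_subset, e]
    exact Set.inter_subset_left
  rw [Set.ncard_eq_toFinset_card _ fin]
  refine hC _ (fun z => z 0) (fun z => z 1) P k hk _ fun S hS => ?_
  obtain ⟨c1, v, d, -, e⟩ := fin.mem_toFinset.1 hS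
  refine ⟨c1, v 0, v 1, d, ?_⟩
  ext z
  rw [← mem_coe, e, mem_filter, Set.mem_inter_iff, mem_coe, Set.mem_ofPred_eq,
    PiLp.inner_apply, Fin.sum_univ_two]
  simp [mul_comm]

end Pool.Agent.P.MP_77a832_co.KS
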